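import Pool.Agent.Bloch.Painleve

namespace BlochMult

open Complex Metric Set Filter Topology MeasureTheory Interval

section
variable {G : ℂ → ℂ} {ζ₀ : ℂ} {ρ M : ℝ}

/-- horizontal average -/
noncomputable def avg (G : ℂ → ℂ) (η : ℝ) (ζ : ℂ) : ℂ := ∫ s in (0:ℝ)..η, G (ζ + s)

lemma add_mem_ball' {η : ℝ} {ζ : ℂ} (hζ : ζ ∈ ball ζ₀ (ρ - η)) {s : ℝ} (hs0 : 0 ≤ s) (hs : s ≤ η) :
    ζ + s ∈ ball ζ₀ ρ := by
  rw [mem_ball, dist_eq_norm] at *
  have : ζ + s - ζ₀ = (ζ - ζ₀) + s := by ring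
  rw [this]
  refine (norm_add_le _ _).trans_lt ?_
  rw [Complex.norm_real, Real.norm_eq_abs, abs_of_nonneg hs0]
  linarith

lemma avg_bound {η : ℝ} (hη : 0 ≤ η) (ha : ∀ ζ ∈ ball ζ₀ ρ, ‖G ζ‖ ≤ M) {ζ : ℂ}
    (hζ : ζ ∈ ball ζ₀ (ρ - η)) : ‖avg G η ζ‖ ≤ M * η := by
  have := intervalIntegral.norm_integral_le_of_norm_le_const (a := 0) (b := η)
    (f := fun s : ℝ => G (ζ + s)) (C := M) (by
      intro s hs
      rw [uIoc_of_le hη] at hs
      exact ha _ (add_mem_ball' hζ hs.1.le hs.2))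
  unfold avg
  rwa [sub_zero, abs_of_nonneg hη] at this

lemma avg_hasDerivAt {η : ℝ} (hη : 0 ≤ η) (ha : ∀ ζ ∈ ball ζ₀ ρ, ‖G ζ‖ ≤ M)
    (hb : ∀ ζ ∈ ball ζ₀ ρ, ζ.im ≠ 0 → DifferentiableAt ℂ G ζ)
    {ζ₁ : ℂ} (hζ : ζ₁ ∈ ball ζ₀ (ρ - η)) (him : ζ₁.im ≠ 0) :
    HasDerivAt (avg G η) (G (ζ₁ + η) - G ζ₁) ζ₁ := by
  -- choose radius
  obtain ⟨r, hr, hr1, hr2⟩ : ∃ r : ℝ, 0 < r ∧ 2 * r ≤ |ζ₁.im| ∧ 3 * r ≤ ρ - η - dist ζ₁ ζ₀ := by
    rw [mem_ball] at hζ
    refine ⟨min (|ζ₁.im| / 2) ((ρ - η - dist ζ₁ ζ₀) / 3), ?_, ?_, ?_⟩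
    · apply lt_min
      · have := abs_pos.mpr him; positivity
      · linarith
    · have := min_le_left (|ζ₁.im| / 2) ((ρ - η - dist ζ₁ ζ₀) / 3); linarith
    · have := min_le_right (|ζ₁.im| / 2) ((ρ - η - dist ζ₁ ζ₀) / 3); linarith
  have hin : ∀ ζ ∈ ball ζ₁ r, ∀ s : ℝ, 0 ≤ s → s ≤ η → ∀ x ∈ closedBall (ζ + s) (r / 2),
      x ∈ ball ζ₀ ρ ∧ x.im ≠ 0 := by
    intro ζ hζr s hs0 hs x hx
    constructor
    · rw [mem_ball] at hζr ⊢
      rw [mem_closedBall] at hx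
      have h1 : dist (ζ + s) (ζ₁) ≤ dist ζ ζ₁ + η := by
        rw [dist_eq_norm, dist_eq_norm]
        have : ζ + s - ζ₁ = (ζ - ζ₁) + s := by ring
        rw [this]
        refine (norm_add_le _ _).trans ?_
        rw [Complex.norm_real, Real.norm_eq_abs, abs_of_nonneg hs0]
        linarith
      have h2 := dist_triangle4 x (ζ + s) ζ₁ ζ₀
      linarith
    · rw [mem_ball, dist_eq_norm] at hζr
      rw [mem_closedBall, dist_eq_norm] at hx
      have h1 := (Complex.abs_im_le_norm (ζ - ζ₁)).trans hζr.le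
      have h2 := (Complex.abs_im_le_norm (x - (ζ + s))).trans hx
      simp only [Complex.sub_im, Complex.add_im, Complex.ofReal_im, add_zero] at h1 h2
      intro h0
      rw [h0] at h2
      have h3 : |ζ₁.im| ≤ |ζ.im - ζ₁.im| + |0 - ζ.im| := by
        have := abs_add_le (ζ₁.im - ζ.im) ζ.im
        rw [sub_add_cancel] at this
        rw [abs_sub_comm, zero_sub, abs_neg]
        exact this
      linarith
  have hGd : ∀ ζ ∈ ball ζ₁ r, ∀ s : ℝ, 0 ≤ s → s ≤ η → HasDerivAt (fun z => G (z + s))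
      (deriv G (ζ + s)) ζ := by
    intro ζ hζr s hs0 hs
    obtain ⟨h1, h2⟩ := hin ζ hζr s hs0 hs (ζ + s) (mem_closedBall_self (by positivity))
    have h3 := (hb _ h1 h2).hasDerivAt
    exact h3.comp_add_const ζ (s:ℂ)
  have hdb : ∀ ζ ∈ ball ζ₁ r, ∀ s : ℝ, 0 ≤ s → s ≤ η → ‖deriv G (ζ + s)‖ ≤ M / (r / 2) := by
    intro ζ hζr s hs0 hs
    refine Complex.norm_deriv_le_of_forall_mem_sphere_norm_le (by positivity) ?_ ?_
    · refine ⟨?_, ?_⟩
      · intro x hx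
        obtain ⟨h1, h2⟩ := hin ζ hζr s hs0 hs x (ball_subset_closedBall hx)
        exact (hb _ h1 h2).differentiableWithinAt
      · rw [closure_ball _ (by positivity)]
        intro x hx
        obtain ⟨h1, h2⟩ := hin ζ hζr s hs0 hs x hx
        exact (hb _ h1 h2).continuousAt.continuousWithinAt
    · intro x hx
      exact ha _ (hin ζ hζr s hs0 hs x (sphere_subset_closedBall hx)).1
  have hcont : ∀ ζ ∈ ball ζ₁ r, ContinuousOn (fun s : ℝ => G (ζ + s)) (Icc 0 η) := by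
    intro ζ hζr s hs
    obtain ⟨h1, h2⟩ := hin ζ hζr s hs.1 hs.2 (ζ + s) (mem_closedBall_self (by positivity))
    have h3 := (hb _ h1 h2).continuousAt
    have h4 : ContinuousAt (fun s : ℝ => ζ + (s:ℂ)) s := by fun_prop
    exact (ContinuousAt.comp (f := fun s : ℝ => ζ + (s:ℂ)) h3 h4).continuousWithinAt
  have key := intervalIntegral.hasDerivAt_integral_of_dominated_loc_of_deriv_le
    (μ := volume) (a := 0) (b := η)
    (F := fun (ζ : ℂ) (s : ℝ) => G (ζ + s)) (F' := fun (ζ : ℂ) (s : ℝ) => deriv G (ζ + s))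
    (x₀ := ζ₁) (s := ball ζ₁ r) (bound := fun _ => M / (r / 2)) (ball_mem_nhds ζ₁ hr)
    (by
      filter_upwards [ball_mem_nhds ζ₁ hr] with ζ hζr
      refine ((hcont ζ hζr).mono ?_).aestronglyMeasurable measurableSet_uIoc
      rw [uIoc_of_le hη]
      exact Ioc_subset_Icc_self)
    (by
      apply ContinuousOn.intervalIntegrable
      rw [uIcc_of_le hη]
      exact hcont ζ₁ (mem_ball_self hr))
    (by
      apply Measurable.aestronglyMeasurable
      exact (measurable_deriv G).comp (by fun_prop))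
    (Eventually.of_forall (by
      intro s hs ζ hζr
      rw [uIoc_of_le hη] at hs
      exact hdb ζ hζr s hs.1.le hs.2))
    intervalIntegrable_const
    (Eventually.of_forall (by
      intro s hs ζ hζr
      rw [uIoc_of_le hη] at hs
      exact hGd ζ hζr s hs.1.le hs.2))
  have hftc : ∫ s in (0:ℝ)..η, deriv G (ζ₁ + s) = G (ζ₁ + η) - G ζ₁ := by
    have h1 := intervalIntegral.integral_eq_sub_of_hasDerivAt (a := 0) (b := η)
      (f := fun s : ℝ => G (ζ₁ + s)) (f' := fun s : ℝ => deriv G (ζ₁ + s))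
      (by
        intro s hs
        rw [uIcc_of_le hη] at hs
        obtain ⟨h1, h2⟩ := hin ζ₁ (mem_ball_self hr) s hs.1 hs.2 (ζ₁ + s)
          (mem_closedBall_self (by positivity))
        have h3 := (hb _ h1 h2).hasDerivAt
        have h4 : HasDerivAt (fun s : ℝ => ζ₁ + (s:ℂ)) 1 s := by
          simpa using (Complex.ofRealCLM.hasDerivAt (x := s)).const_add ζ₁
        have h5 := h3.comp_of_eq s h4 rfl
        rw [mul_one] at h5
        exact h5)
      key.1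
    simpa using h1
  rw [← hftc]
  exact key.2

lemma avg_continuousAt {η : ℝ} (hη : 0 ≤ η) (hM : 0 ≤ M) (ha : ∀ ζ ∈ ball ζ₀ ρ, ‖G ζ‖ ≤ M)
    (hc : ∀ y : ℝ, AEStronglyMeasurable (fun x : ℝ => G (x + y * I)) volume)
    (hd : ∀ᵐ x : ℝ, (x : ℂ) ∈ ball ζ₀ ρ → ContinuousAt (fun y : ℝ => G (x + y * I)) 0)
    {ζ₁ : ℂ} (hζ : ζ₁ ∈ ball ζ₀ (ρ - η)) (him : ζ₁.im = 0) :
    ContinuousAt (avg G η) ζ₁ := by
  set x₁ := ζ₁.re with hx₁
  have hζ₁ : ζ₁ = (x₁ : ℂ) := by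
    apply Complex.ext <;> simp [hx₁, him]
  obtain ⟨r, hr, hrsub⟩ := Metric.isOpen_iff.mp isOpen_ball ζ₁ hζ
  -- rewriting
  have hrew : ∀ ζ : ℂ, avg G η ζ = ∫ u in ζ.re..(ζ.re + η), G (u + ζ.im * I) := by
    intro ζ
    unfold avg
    have h1 := intervalIntegral.integral_comp_add_right (a := 0) (b := η)
      (fun u : ℝ => G (u + ζ.im * I)) ζ.re
    simp only [zero_add] at h1
    rw [add_comm η] at h1
    rw [← h1]
    congr 1
    ext s
    congr 1
    apply Complex.ext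
    · simp; ring
    · simp
  have hclose : ∀ ζ ∈ ball ζ₁ r, ((x₁ : ℂ) + ζ.im * I) ∈ ball ζ₁ r := by
    intro ζ hζr
    rw [mem_ball, dist_eq_norm] at hζr ⊢
    refine lt_of_le_of_lt ?_ hζr
    rw [← pow_le_pow_iff_left₀ (norm_nonneg _) (norm_nonneg _) two_ne_zero, Complex.sq_norm,
      Complex.sq_norm, Complex.normSq_apply, Complex.normSq_apply]
    simp [hx₁]
    nlinarith [mul_self_nonneg (ζ.re - ζ₁.re)]
  have hconv : ∀ y : ℝ, Convex ℝ {u : ℝ | (u : ℂ) + y * I ∈ ball ζ₀ ρ} := by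
    intro y a ha' b hb' s t hs ht hst
    have := convex_ball ζ₀ ρ ha' hb' hs ht hst
    simp only [mem_ofPred_eq]
    convert this using 1
    have hst' : (s:ℂ) + t = 1 := by exact_mod_cast hst
    simp only [smul_eq_mul, Complex.real_smul, Complex.ofReal_add, Complex.ofReal_mul]
    linear_combination (-(y:ℂ) * I) * hst'
  have hS : ∀ ζ ∈ ball ζ₁ r, ζ.re ∈ {u : ℝ | (u : ℂ) + ζ.im * I ∈ ball ζ₀ ρ} ∧
      ζ.re + η ∈ {u : ℝ | (u : ℂ) + ζ.im * I ∈ ball ζ₀ ρ} ∧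
      x₁ ∈ {u : ℝ | (u : ℂ) + ζ.im * I ∈ ball ζ₀ ρ} ∧
      x₁ + η ∈ {u : ℝ | (u : ℂ) + ζ.im * I ∈ ball ζ₀ ρ} := by
    intro ζ hζr
    have h1 := hrsub hζr
    have h2 := hrsub (hclose ζ hζr)
    refine ⟨?_, ?_, ?_, ?_⟩
    · have := add_mem_ball' h1 le_rfl hη
      simp only [mem_ofPred_eq, Complex.re_add_im]
      simpa using this
    · have := add_mem_ball' h1 hη le_rfl
      simp only [mem_ofPred_eq]
      convert this using 1
      push_cast
      nth_rewrite 3 [← Complex.re_add_im ζ]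
      ring
    · have := add_mem_ball' h2 le_rfl hη
      simp only [mem_ofPred_eq]
      simpa using this
    · have := add_mem_ball' h2 hη le_rfl
      simp only [mem_ofPred_eq]
      convert this using 1
      push_cast
      ring
  have hII : ∀ y a b : ℝ, a ∈ {u : ℝ | (u : ℂ) + y * I ∈ ball ζ₀ ρ} →
      b ∈ {u : ℝ | (u : ℂ) + y * I ∈ ball ζ₀ ρ} →
      (∀ u ∈ Ι a b, ‖G (u + y * I)‖ ≤ M) ∧
      IntervalIntegrable (fun u : ℝ => G (u + y * I)) volume a b := by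
    intro y a b ha' hb'
    have h1 := (hconv y).ordConnected.uIcc_subset ha' hb'
    have h2 : ∀ u ∈ Ι a b, ‖G (u + y * I)‖ ≤ M := fun u hu => ha _ (h1 (uIoc_subset_uIcc hu))
    refine ⟨h2, ?_⟩
    refine (intervalIntegrable_const (c := M)).mono_fun (hc y).restrict ?_
    refine (ae_restrict_iff' measurableSet_uIoc).2 (Eventually.of_forall fun u hu => ?_)
    rw [Real.norm_of_nonneg hM]
    exact h2 u hu
  have hdiff : ∀ ζ ∈ ball ζ₁ r, ‖(∫ u in x₁..(x₁ + η), G (u + ζ.im * I)) - avg G η ζ‖ ≤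
      2 * M * |ζ.re - x₁| := by
    intro ζ hζr
    obtain ⟨s1, s2, s3, s4⟩ := hS ζ hζr
    rw [hrew ζ, intervalIntegral.integral_interval_sub_interval_comm (hII _ _ _ s3 s4).2
      (hII _ _ _ s1 s2).2 (hII _ _ _ s3 s1).2]
    refine (norm_sub_le _ _).trans ?_
    have h1 := intervalIntegral.norm_integral_le_of_norm_le_const (hII ζ.im _ _ s3 s1).1
    have h2 := intervalIntegral.norm_integral_le_of_norm_le_const (hII ζ.im _ _ s4 s2).1
    have h3 : ζ.re + η - (x₁ + η) = ζ.re - x₁ := by ring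
    rw [h3] at h2
    linarith
  have hV : ContinuousAt (fun y : ℝ => ∫ u in x₁..(x₁ + η), G (u + y * I)) 0 := by
    have hmem0 := hS ζ₁ (mem_ball_self hr)
    rw [him] at hmem0
    obtain ⟨-, -, s3, s4⟩ := hmem0
    have h5 := (hconv 0).ordConnected.uIcc_subset s3 s4
    refine intervalIntegral.continuousAt_of_dominated_interval (bound := fun _ => M) ?_ ?_
      intervalIntegrable_const ?_
    · exact Eventually.of_forall fun y => (hc y).restrict
    · have : ∀ᶠ y : ℝ in 𝓝 0, ((x₁:ℂ) + y * I) ∈ ball ζ₁ r := by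
        have hcc : ContinuousAt (fun y : ℝ => (x₁:ℂ) + y * I) 0 := by fun_prop
        apply hcc.eventually_mem
        apply isOpen_ball.mem_nhds
        rw [hζ₁]
        simp [hr]
      filter_upwards [this] with y hy
      obtain ⟨-, -, s3, s4⟩ := hS _ hy
      simp only [Complex.add_im, Complex.ofReal_im, Complex.mul_im, Complex.ofReal_re,
        Complex.I_im, mul_one, Complex.I_re, mul_zero, zero_add, add_zero] at s3 s4
      exact Eventually.of_forall (hII y _ _ s3 s4).1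
    · filter_upwards [hd] with u hu hu2
      apply hu
      have := h5 (uIoc_subset_uIcc hu2)
      simpa using this
  have h6 : Tendsto (fun ζ : ℂ => ∫ u in x₁..(x₁ + η), G (u + ζ.im * I)) (𝓝 ζ₁)
      (𝓝 (avg G η ζ₁)) := by
    have h7 : avg G η ζ₁ = ∫ u in x₁..(x₁ + η), G (u + (0:ℝ) * I) := by
      rw [hrew ζ₁, him]
    rw [h7]
    have h8 : Tendsto (fun ζ : ℂ => ζ.im) (𝓝 ζ₁) (𝓝 0) := by
      have := Complex.continuous_im.tendsto ζ₁
      rwa [him] at this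
    exact hV.tendsto.comp h8
  refine tendsto_of_tendsto_of_dist h6 ?_
  have h9 : Tendsto (fun ζ : ℂ => 2 * M * |ζ.re - x₁|) (𝓝 ζ₁) (𝓝 0) := by
    have : Continuous (fun ζ : ℂ => 2 * M * |ζ.re - x₁|) := by fun_prop
    have h10 := this.tendsto ζ₁
    simpa [hx₁] using h10
  refine squeeze_zero' (Eventually.of_forall fun _ => dist_nonneg) ?_ h9
  filter_upwards [ball_mem_nhds ζ₁ hr] with ζ hζr
  rw [dist_eq_norm]
  exact hdiff ζ hζr

/-- Analytic continuation across the real line with a bound, in derivative form. -/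
theorem deriv_bound_across (hρ : 0 < ρ) (hM : 0 ≤ M) (h0 : 0 < ζ₀.im)
    (ha : ∀ ζ ∈ ball ζ₀ ρ, ‖G ζ‖ ≤ M)
    (hb : ∀ ζ ∈ ball ζ₀ ρ, ζ.im ≠ 0 → DifferentiableAt ℂ G ζ)
    (hc : ∀ y : ℝ, AEStronglyMeasurable (fun x : ℝ => G (x + y * I)) volume)
    (hd : ∀ᵐ x : ℝ, (x : ℂ) ∈ ball ζ₀ ρ → ContinuousAt (fun y : ℝ => G (x + y * I)) 0) :
    ‖deriv G ζ₀‖ ≤ M / ρ := by
  have hmain : ∀ η : ℝ, 0 < η → η < ρ / 2 → ‖G (ζ₀ + η) - G ζ₀‖ ≤ M * η / (ρ - 2 * η) := by
    intro η hη hηρ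
    have hdo : DifferentiableOn ℂ (avg G η) (ball ζ₀ (ρ - η)) := by
      apply differentiableOn_of_off_real
      · intro ζ hζ
        by_cases him : ζ.im = 0
        · exact (avg_continuousAt hη.le hM ha hc hd hζ him).continuousWithinAt
        · exact (avg_hasDerivAt hη.le ha hb hζ him).continuousAt.continuousWithinAt
      · intro ζ hζ him
        exact (avg_hasDerivAt hη.le ha hb hζ him).differentiableAt
    have h1 := (avg_hasDerivAt hη.le ha hb (ζ₁ := ζ₀) (mem_ball_self (by linarith)) h0.ne').deriv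
    rw [← h1]
    have hcl : closedBall ζ₀ (ρ - 2 * η) ⊆ ball ζ₀ (ρ - η) := closedBall_subset_ball (by linarith)
    refine Complex.norm_deriv_le_of_forall_mem_sphere_norm_le (by linarith) ?_ ?_
    · refine ⟨hdo.mono (ball_subset_closedBall.trans hcl), ?_⟩
      rw [closure_ball _ (by linarith)]
      exact hdo.continuousOn.mono hcl
    · intro x hx
      exact avg_bound hη.le ha (hcl (sphere_subset_closedBall hx))
  have hder := (hb ζ₀ (mem_ball_self hρ) h0.ne').hasDerivAt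
  have h4 : HasDerivAt (fun s : ℝ => G (ζ₀ + (s:ℂ))) (deriv G ζ₀) 0 := by
    have h5 : HasDerivAt (fun s : ℝ => ζ₀ + (s:ℂ)) 1 (0:ℝ) := by
      simpa using (Complex.ofRealCLM.hasDerivAt (x := (0:ℝ))).const_add ζ₀
    have h6 := hder.comp_of_eq (0:ℝ) h5 (by simp)
    rw [mul_one] at h6
    exact h6
  have h7 := h4.tendsto_slope_zero_right
  have h8 : Tendsto (fun η : ℝ => ‖η⁻¹ • (G (ζ₀ + ((0 + η : ℝ) : ℂ)) - G (ζ₀ + ((0:ℝ):ℂ)))‖)
      (𝓝[>] 0) (𝓝 ‖deriv G ζ₀‖) := h7.norm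
  have h9 : Tendsto (fun η : ℝ => M / (ρ - 2 * η)) (𝓝[>] 0) (𝓝 (M / (ρ - 2 * 0))) := by
    refine Tendsto.div tendsto_const_nhds ?_ (by simpa using hρ.ne')
    exact ((tendsto_id.mono_left nhdsWithin_le_nhds).const_mul 2).const_sub ρ
  rw [mul_zero, sub_zero] at h9
  refine le_of_tendsto_of_tendsto h8 h9 ?_
  filter_upwards [Ioo_mem_nhdsGT (show (0:ℝ) < ρ / 2 by positivity)] with η hη
  have h10 := hmain η hη.1 hη.2
  have hη0 := hη.1
  simp only [zero_add, Complex.ofReal_zero, add_zero]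
  rw [norm_smul, norm_inv, Real.norm_of_nonneg hη0.le]
  calc η⁻¹ * ‖G (ζ₀ + η) - G ζ₀‖ ≤ η⁻¹ * (M * η / (ρ - 2 * η)) := by gcongr
    _ = M / (ρ - 2 * η) := by field_simp

end

end BlochMult
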