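import Mathlib

namespace BlochMult

open Complex Metric Set Filter Topology MeasureTheory Interval

lemma deriv_le_of_re {f : ℂ → ℂ} (hf : Differentiable ℂ f) {c : ℂ} {R κ : ℝ} (hR : 0 < R)
    (hκ : 0 < κ) (h : ∀ z ∈ closedBall c R, |(f z).re| ≤ κ) :
    ‖deriv f c‖ ≤ Real.exp 2 * κ / R := by
  set E : ℂ → ℂ := fun z => Complex.exp (f z / κ) with hE
  have hEd : Differentiable ℂ E := (hf.div_const _).cexp
  have hEn : ∀ z, ‖E z‖ = Real.exp ((f z).re / κ) := by
    intro z
    simp only [hE]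
    rw [Complex.norm_exp]
    congr 1
    rw [Complex.div_ofReal_re]
  have h1 : ‖deriv E c‖ ≤ Real.exp 1 / R := by
    refine Complex.norm_deriv_le_of_forall_mem_sphere_norm_le hR hEd.diffContOnCl ?_
    intro z hz
    rw [hEn, Real.exp_le_exp, div_le_iff₀ hκ, one_mul]
    exact (le_abs_self _).trans (h z (sphere_subset_closedBall hz))
  have h2 : deriv E c = E c * (deriv f c / κ) := by
    have := ((hf c).hasDerivAt.div_const (κ:ℂ)).cexp
    exact this.deriv
  have h3 : Real.exp (-1) ≤ ‖E c‖ := by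
    rw [hEn, Real.exp_le_exp, le_div_iff₀ hκ]
    have := (abs_le.mp (h c (mem_closedBall_self hR.le))).1
    linarith
  rw [h2, norm_mul, norm_div, Complex.norm_real, Real.norm_of_nonneg hκ.le] at h1
  have h4 : Real.exp (-1) * (‖deriv f c‖ / κ) ≤ Real.exp 1 / R :=
    (mul_le_mul_of_nonneg_right h3 (by positivity)).trans h1
  have h5 : Real.exp 2 = Real.exp 1 * Real.exp 1 := by rw [← Real.exp_add]; norm_num
  have h6 : Real.exp 1 * Real.exp (-1) = 1 := by rw [← Real.exp_add]; simp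
  calc ‖deriv f c‖ = (Real.exp 1 * Real.exp (-1)) * ‖deriv f c‖ := by rw [h6, one_mul]
    _ = Real.exp 1 * κ * (Real.exp (-1) * (‖deriv f c‖ / κ)) := by field_simp
    _ ≤ Real.exp 1 * κ * (Real.exp 1 / R) := by gcongr
    _ = Real.exp 2 * κ / R := by rw [h5]; ring

lemma re_le_of_sphere {f : ℂ → ℂ} (hf : Differentiable ℂ f) {κ : ℝ}
    (h : ∀ z : ℂ, ‖z‖ = 1 → (f z).re ≤ κ) {z : ℂ} (hz : ‖z‖ ≤ 1) : (f z).re ≤ κ := by
  have hEd : Differentiable ℂ (fun z => Complex.exp (f z)) := hf.cexp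
  have := Complex.norm_le_of_forall_mem_frontier_norm_le (U := ball (0:ℂ) 1) (C := Real.exp κ)
    isBounded_ball hEd.diffContOnCl (by
      intro w hw
      rw [frontier_ball _ one_ne_zero, mem_sphere, dist_zero_right] at hw
      rw [Complex.norm_exp, Real.exp_le_exp]
      exact h w hw) (z := z) (by
      rw [closure_ball _ one_ne_zero, mem_closedBall, dist_zero_right]; exact hz)
  rwa [Complex.norm_exp, Real.exp_le_exp] at this

lemma abs_re_le_of_sphere {f : ℂ → ℂ} (hf : Differentiable ℂ f) {κ : ℝ}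
    (h : ∀ z : ℂ, ‖z‖ = 1 → |(f z).re| ≤ κ) {z : ℂ} (hz : ‖z‖ ≤ 1) : |(f z).re| ≤ κ := by
  rw [abs_le]
  constructor
  · have := re_le_of_sphere (f := fun z => - f z) hf.neg (κ := κ) (fun w hw => by
      rw [Complex.neg_re]; linarith [(abs_le.mp (h w hw)).1]) hz
    rw [Complex.neg_re] at this
    linarith
  · exact re_le_of_sphere hf (fun w hw => (abs_le.mp (h w hw)).2) hz

/-- second difference bound -/
lemma second_diff {D : ℂ → ℂ} (hD : Differentiable ℂ D) {ζ : ℂ} {L : ℝ} (hL : 0 ≤ L)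
    (h : ∀ s : ℝ, ‖deriv (deriv D) (ζ + s)‖ ≤ L) {s : ℝ} (hs : 0 ≤ s) :
    ‖D (ζ + s) + D (ζ - s) - 2 * D ζ‖ ≤ L * s ^ 2 := by
  have hD' : Differentiable ℂ (deriv D) := hD.deriv
  have hder1 : ∀ x : ℝ, HasDerivAt (fun x : ℝ => D (ζ + x)) (deriv D (ζ + x)) x := by
    intro x
    have h5 : HasDerivAt (fun s : ℝ => ζ + (s:ℂ)) 1 x := by
      simpa using (Complex.ofRealCLM.hasDerivAt (x := x)).const_add ζ
    have h6 := (hD (ζ + x)).hasDerivAt.comp_of_eq x h5 rfl
    rw [mul_one] at h6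
    exact h6
  have hder1' : ∀ x : ℝ, HasDerivAt (fun x : ℝ => D (ζ - x)) (-deriv D (ζ - x)) x := by
    intro x
    have h5 : HasDerivAt (fun s : ℝ => ζ - (s:ℂ)) (-1) x := by
      simpa using (Complex.ofRealCLM.hasDerivAt (x := x)).const_sub ζ
    have h6 := (hD (ζ - x)).hasDerivAt.comp_of_eq x h5 rfl
    rw [mul_neg, mul_one] at h6
    exact h6
  have hlip : ∀ x y : ℝ, ‖deriv D (ζ + x) - deriv D (ζ + y)‖ ≤ L * |x - y| := by
    intro x y
    have hder2 : ∀ x : ℝ, HasDerivAt (fun x : ℝ => deriv D (ζ + x)) (deriv (deriv D) (ζ + x)) x := by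
      intro x
      have h5 : HasDerivAt (fun s : ℝ => ζ + (s:ℂ)) 1 x := by
        simpa using (Complex.ofRealCLM.hasDerivAt (x := x)).const_add ζ
      have h6 := (hD' (ζ + x)).hasDerivAt.comp_of_eq x h5 rfl
      rw [mul_one] at h6
      exact h6
    have := convex_univ.norm_image_sub_le_of_norm_hasDerivWithin_le (𝕜 := ℝ)
      (f := fun x : ℝ => deriv D (ζ + x)) (f' := fun x : ℝ => deriv (deriv D) (ζ + x)) (C := L)
      (x := y) (y := x) (fun x _ => (hder2 x).hasDerivWithinAt) (fun x _ => h x) trivial trivial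
    simpa [Real.norm_eq_abs] using this
  have key := image_norm_le_of_norm_deriv_right_le_deriv_boundary'
    (f := fun x : ℝ => D (ζ + x) + D (ζ - x) - 2 * D ζ)
    (f' := fun x : ℝ => deriv D (ζ + x) + -deriv D (ζ - x))
    (a := 0) (b := s)
    (fun x _ => (((hder1 x).add (hder1' x)).sub_const _).continuousAt.continuousWithinAt)
    (fun x _ => (((hder1 x).add (hder1' x)).sub_const _).hasDerivWithinAt)
    (B := fun x => L * x ^ 2) (B' := fun x => L * (2 * x))
    (by simp; ring_nf)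
    (by fun_prop)
    (fun x _ => by
      have := ((hasDerivAt_pow 2 x).const_mul L).hasDerivWithinAt (s := Ici x)
      simpa using this)
    (by
      intro x hx
      have h1 := hlip x (-x)
      have h2 : ζ + ((-x : ℝ) : ℂ) = ζ - x := by push_cast; ring
      rw [h2] at h1
      have h3 : |x - -x| = 2 * x := by
        rw [abs_of_nonneg (by linarith [hx.1])]; ring
      rw [h3] at h1
      rw [← sub_eq_add_neg]
      exact h1)
  exact key ⟨hs, le_rfl⟩

/-- the constant -/
noncomputable def C1 : ℝ := 3 + 2 / 3 * Real.exp 2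

lemma C1_pos : 0 < C1 := by unfold C1; positivity

section
variable {G : ℂ → ℂ} {κ : ℝ}

lemma half_plane_re (hG : Differentiable ℂ G) (hκ : 0 < κ)
    (h : ∀ m : ℕ, ∀ z : ℂ, ‖z‖ = 1 →
      |(G (Complex.exp (((2 * Real.pi / 3 ^ m : ℝ) : ℂ) * I) * z) - G z).re| ≤ κ)
    {ζ : ℂ} (hζ : 0 < ζ.im) :
    |(deriv (fun ζ => G (Complex.exp (I * ζ))) ζ).re| ≤ C1 * κ / ζ.im := by
  set g : ℂ → ℂ := fun ζ => G (Complex.exp (I * ζ)) with hg
  have hgd : Differentiable ℂ g := by
    intro ζ
    have h1 : DifferentiableAt ℂ (fun ζ : ℂ => Complex.exp (I * ζ)) ζ := by fun_prop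
    exact (hG _).comp ζ h1
  set y := ζ.im with hy
  set hm : ℕ → ℝ := fun m => 2 * Real.pi / 3 ^ m with hhm
  have hpi := Real.pi_pos
  have hm0 : ∀ m, 0 < hm m := fun m => by simp only [hhm]; positivity
  have hms : ∀ m, hm (m + 1) = hm m / 3 := fun m => by simp only [hhm]; rw [pow_succ]; field_simp
  set D : ℕ → ℂ → ℂ := fun m ζ => g (ζ + (hm m / 2 : ℝ)) - g (ζ - (hm m / 2 : ℝ)) with hD
  have hDd : ∀ m, Differentiable ℂ (D m) := by
    intro m
    simp only [hD]
    exact (hgd.comp (differentiable_id.add_const _)).sub (hgd.comp (differentiable_id.sub_const _))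
  -- (1)
  have h1 : ∀ m, ∀ ζ : ℂ, 0 ≤ ζ.im → |(D m ζ).re| ≤ κ := by
    intro m ζ hζ
    set a : ℂ := Complex.exp (((hm m / 2 : ℝ) : ℂ) * I) with ha
    have ha1 : ‖a‖ = 1 := Complex.norm_exp_ofReal_mul_I _
    have ha0 : a ≠ 0 := by rw [← norm_pos_iff, ha1]; norm_num
    have hQ : Differentiable ℂ (fun z => G (a * z) - G (a⁻¹ * z)) :=
      (hG.comp (differentiable_id.const_mul a)).sub (hG.comp (differentiable_id.const_mul a⁻¹))
    have hQ1 : ∀ z : ℂ, ‖z‖ = 1 → |((fun z => G (a * z) - G (a⁻¹ * z)) z).re| ≤ κ := by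
      intro z hz
      have h3 := h m (a⁻¹ * z) (by rw [norm_mul, norm_inv, ha1, hz]; norm_num)
      have h4 : Complex.exp (((2 * Real.pi / 3 ^ m : ℝ) : ℂ) * I) * (a⁻¹ * z) = a * z := by
        have h5 : Complex.exp (((2 * Real.pi / 3 ^ m : ℝ) : ℂ) * I) = a * a := by
          rw [ha, ← Complex.exp_add]
          congr 1
          simp only [hhm]
          push_cast
          ring
        rw [h5]
        field_simp
      rw [h4] at h3
      exact h3
    have h5 := abs_re_le_of_sphere hQ hQ1 (z := Complex.exp (I * ζ)) (by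
      rw [Complex.norm_exp]
      simp [hζ])
    have h6 : D m ζ = G (a * Complex.exp (I * ζ)) - G (a⁻¹ * Complex.exp (I * ζ)) := by
      simp only [hD, hg]
      rw [ha, ← Complex.exp_neg, ← Complex.exp_add, ← Complex.exp_add]
      congr 3 <;> ring
    rw [h6]
    exact h5
  -- (2)
  have h2 : ∀ m, ∀ ζ : ℂ, 0 < ζ.im → ‖deriv (D m) ζ‖ ≤ Real.exp 2 * κ / ζ.im := by
    intro m ζ hζ
    refine deriv_le_of_re (hDd m) hζ hκ ?_
    intro z hz
    apply h1
    rw [mem_closedBall, dist_eq_norm] at hz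
    have := (abs_le.mp ((Complex.abs_im_le_norm (z - ζ)).trans hz)).1
    rw [Complex.sub_im] at this
    linarith
  have h2' : ∀ m, ∀ s : ℝ, ‖deriv (deriv (D m)) (ζ + s)‖ ≤ 4 * Real.exp 2 * κ / y ^ 2 := by
    intro m s
    have e1 : ‖deriv (deriv (D m)) (ζ + s)‖ ≤ (Real.exp 2 * κ / (y / 2)) / (y / 2) := by
      refine Complex.norm_deriv_le_of_forall_mem_sphere_norm_le (by positivity)
        (hDd m).deriv.diffContOnCl ?_
      intro z hz
      rw [mem_sphere, dist_eq_norm] at hz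
      have h5 := (abs_le.mp ((Complex.abs_im_le_norm (z - (ζ + s))).trans hz.le)).1
      simp only [Complex.sub_im, Complex.add_im, Complex.ofReal_im, add_zero] at h5
      have h6 : y / 2 ≤ z.im := by linarith
      refine (h2 m z (by linarith)).trans ?_
      gcongr
    refine e1.trans (le_of_eq ?_)
    field_simp
    ring
  -- (3)
  have h3 : ∀ m, ‖D m ζ - 3 * D (m + 1) ζ‖ ≤ 4 * Real.exp 2 * κ / y ^ 2 * (hm (m + 1)) ^ 2 := by
    intro m
    have e1 := second_diff (hDd (m + 1)) (ζ := ζ) (L := 4 * Real.exp 2 * κ / y ^ 2) (by positivity)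
      (h2' (m + 1)) (hm0 (m + 1)).le
    have e2 : D m ζ - 3 * D (m + 1) ζ = D (m + 1) (ζ + (hm (m + 1) : ℝ)) +
        D (m + 1) (ζ - (hm (m + 1) : ℝ)) - 2 * D (m + 1) ζ := by
      simp only [hD]
      have e3 : hm m = 3 * hm (m + 1) := by rw [hms]; ring
      rw [e3]
      have e4 : ζ + ((hm (m + 1) : ℝ) : ℂ) + ((hm (m + 1) / 2 : ℝ) : ℂ) =
        ζ + ((3 * hm (m + 1) / 2 : ℝ) : ℂ) := by push_cast; ring
      have e5 : ζ + ((hm (m + 1) : ℝ) : ℂ) - ((hm (m + 1) / 2 : ℝ) : ℂ) =
        ζ + ((hm (m + 1) / 2 : ℝ) : ℂ) := by push_cast; ring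
      have e6 : ζ - ((hm (m + 1) : ℝ) : ℂ) + ((hm (m + 1) / 2 : ℝ) : ℂ) =
        ζ - ((hm (m + 1) / 2 : ℝ) : ℂ) := by push_cast; ring
      have e7 : ζ - ((hm (m + 1) : ℝ) : ℂ) - ((hm (m + 1) / 2 : ℝ) : ℂ) =
        ζ - ((3 * hm (m + 1) / 2 : ℝ) : ℂ) := by push_cast; ring
      rw [e4, e5, e6, e7]
      ring
    rw [e2]
    exact e1
  -- (4)
  set q : ℕ → ℂ := fun m => D m ζ / (hm m : ℝ) with hq
  have h4 : ∀ m, ‖q m - q (m + 1)‖ ≤ 4 / 9 * Real.exp 2 * κ / y ^ 2 * hm m := by
    intro m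
    have e1 : q m - q (m + 1) = (D m ζ - 3 * D (m + 1) ζ) / (hm m : ℝ) := by
      simp only [hq]
      rw [hms]
      have : ((hm m : ℝ) : ℂ) ≠ 0 := by exact_mod_cast (hm0 m).ne'
      push_cast
      field_simp
    rw [e1, norm_div, Complex.norm_real, Real.norm_of_nonneg (hm0 m).le, div_le_iff₀ (hm0 m)]
    refine (h3 m).trans (le_of_eq ?_)
    rw [hms]
    ring
  -- (5) partial sums
  have h5 : ∀ n k, ‖q n - q (n + k)‖ ≤ 2 / 3 * Real.exp 2 * κ / y ^ 2 * (hm n - hm (n + k)) := by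
    intro n k
    induction k with
    | zero => simp
    | succ k ih =>
      have e1 : q n - q (n + (k + 1)) = (q n - q (n + k)) + (q (n + k) - q (n + k + 1)) := by
        rw [← add_assoc]; ring
      rw [e1]
      refine (norm_add_le _ _).trans ?_
      have e2 := h4 (n + k)
      have e3 : hm (n + (k + 1)) = hm (n + k) / 3 := by rw [← add_assoc, hms]
      rw [e3]
      have e4 : 2 / 3 * Real.exp 2 * κ / y ^ 2 * (hm n - hm (n + k) / 3) =
        2 / 3 * Real.exp 2 * κ / y ^ 2 * (hm n - hm (n + k)) +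
          4 / 9 * Real.exp 2 * κ / y ^ 2 * hm (n + k) := by ring
      rw [e4]
      gcongr
  have hmlim : Tendsto hm atTop (𝓝 0) := by
    have : Tendsto (fun m : ℕ => 2 * Real.pi * (1 / 3 : ℝ) ^ m) atTop (𝓝 (2 * Real.pi * 0)) :=
      (tendsto_pow_atTop_nhds_zero_of_lt_one (by norm_num) (by norm_num)).const_mul _
    rw [mul_zero] at this
    refine this.congr (fun m => ?_)
    simp only [hhm]
    rw [one_div, inv_pow]
    ring
  have hqlim : Tendsto q atTop (𝓝 (deriv g ζ)) := by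
    have e1 : HasDerivAt g (deriv g ζ) ζ := (hgd ζ).hasDerivAt
    have e2 : HasDerivAt (fun s : ℝ => g (ζ + s) - g (ζ - s)) (2 * deriv g ζ) 0 := by
      have h5 : HasDerivAt (fun s : ℝ => ζ + (s:ℂ)) 1 (0:ℝ) := by
        simpa using (Complex.ofRealCLM.hasDerivAt (x := (0:ℝ))).const_add ζ
      have h5' : HasDerivAt (fun s : ℝ => ζ - (s:ℂ)) (-1) (0:ℝ) := by
        simpa using (Complex.ofRealCLM.hasDerivAt (x := (0:ℝ))).const_sub ζ
      have h6 := e1.comp_of_eq (0:ℝ) h5 (by simp)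
      have h6' := e1.comp_of_eq (0:ℝ) h5' (by simp)
      refine (h6.sub h6').congr_deriv ?_
      ring
    have e3 := e2.tendsto_slope_zero_right
    have e4 : Tendsto (fun m => hm m / 2) atTop (𝓝[>] 0) := by
      refine tendsto_nhdsWithin_iff.2 ⟨?_, Eventually.of_forall fun m => ?_⟩
      · simpa using hmlim.div_const 2
      · have := hm0 m
        simp only [mem_Ioi]
        positivity
    have e5 := (e3.comp e4).div_const 2
    rw [mul_div_cancel_left₀ _ (two_ne_zero)] at e5
    refine e5.congr (fun m => ?_)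
    simp only [Function.comp_apply, hq, hD, zero_add, Complex.ofReal_zero, add_zero, sub_zero,
      sub_self]
    have : ((hm m : ℝ) : ℂ) ≠ 0 := by exact_mod_cast (hm0 m).ne'
    rw [Complex.real_smul]
    push_cast
    field_simp
  have h6 : ∀ n, ‖q n - deriv g ζ‖ ≤ 2 / 3 * Real.exp 2 * κ / y ^ 2 * hm n := by
    intro n
    have e1 : Tendsto (fun k => ‖q n - q (n + k)‖) atTop (𝓝 ‖q n - deriv g ζ‖) := by
      have : Tendsto (fun k => q (n + k)) atTop (𝓝 (deriv g ζ)) := by
        have := (tendsto_add_atTop_iff_nat n).2 hqlim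
        refine this.congr (fun k => ?_)
        rw [add_comm]
      exact (this.const_sub _).norm
    refine le_of_tendsto e1 (Eventually.of_forall fun k => ?_)
    refine (h5 n k).trans ?_
    have := hm0 (n + k)
    gcongr
    linarith
  have h7 : ∀ n, |(deriv g ζ).re| ≤ |(D n ζ).re| / hm n + 2 / 3 * Real.exp 2 * κ / y ^ 2 * hm n := by
    intro n
    have e1 : (deriv g ζ).re = (q n).re - (q n - deriv g ζ).re := by
      rw [Complex.sub_re]; ring
    have e2 : (q n).re = (D n ζ).re / hm n := by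
      simp only [hq]
      rw [Complex.div_ofReal_re]
    rw [e1, e2]
    refine (abs_sub _ _).trans ?_
    rw [abs_div, abs_of_pos (hm0 n)]
    gcongr
    exact (Complex.abs_re_le_norm _).trans (h6 n)
  -- (6) conclusion
  have hC1 : C1 * κ / y = 3 * κ / y + 2 / 3 * Real.exp 2 * κ / y := by unfold C1; ring
  rw [hC1]
  rcases le_or_gt (2 * Real.pi) y with hyl | hys
  · have e1 := h7 0
    have e2 : D 0 ζ = 0 := by
      simp only [hD, hg, hhm]
      rw [sub_eq_zero]
      congr 1
      rw [Complex.exp_eq_exp_iff_exists_int]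
      exact ⟨1, by push_cast; ring⟩
    rw [e2, Complex.zero_re, abs_zero, zero_div, zero_add] at e1
    refine e1.trans ?_
    have e3 : hm 0 = 2 * Real.pi := by simp [hhm]
    rw [e3]
    have e4 : 2 / 3 * Real.exp 2 * κ / y ^ 2 * (2 * Real.pi) ≤ 2 / 3 * Real.exp 2 * κ / y ^ 2 * y := by
      gcongr
    have e5 : 2 / 3 * Real.exp 2 * κ / y ^ 2 * y = 2 / 3 * Real.exp 2 * κ / y := by
      field_simp
    have e6 : 0 ≤ 3 * κ / y := by positivity
    linarith
  · have hex : ∃ n, hm n ≤ y := ((hmlim.eventually_lt_const hζ).mono (fun _ h => h.le)).exists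
    classical
    obtain ⟨n, hn, hmin⟩ : ∃ n, hm n ≤ y ∧ ∀ k < n, ¬ hm k ≤ y :=
      ⟨Nat.find hex, Nat.find_spec hex, fun k hk => Nat.find_min hex hk⟩
    have hn0 : n ≠ 0 := by
      rintro rfl
      have e3 : hm 0 = 2 * Real.pi := by simp [hhm]
      rw [e3] at hn
      linarith
    obtain ⟨k, rfl⟩ := Nat.exists_eq_succ_of_ne_zero hn0
    have e1 := hmin k (Nat.lt_succ_self k)
    push Not at e1
    have e2 : hm k = 3 * hm (k + 1) := by rw [hms]; ring
    have e3 := h7 (k + 1)
    have e4 := h1 (k + 1) ζ hζ.le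
    have e5 : |(D (k + 1) ζ).re| / hm (k + 1) ≤ 3 * κ / y := by
      rw [div_le_div_iff₀ (hm0 _) hζ]
      have := hm0 (k + 1)
      calc |(D (k + 1) ζ).re| * y ≤ κ * (3 * hm (k + 1)) := by
            gcongr
            rw [← e2]
            exact e1.le
        _ = 3 * κ * hm (k + 1) := by ring
    have e6 : 2 / 3 * Real.exp 2 * κ / y ^ 2 * hm (k + 1) ≤ 2 / 3 * Real.exp 2 * κ / y := by
      calc 2 / 3 * Real.exp 2 * κ / y ^ 2 * hm (k + 1) ≤ 2 / 3 * Real.exp 2 * κ / y ^ 2 * y := by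
            gcongr
        _ = 2 / 3 * Real.exp 2 * κ / y := by field_simp
    linarith

/-- final constant -/
noncomputable def C0 : ℝ := 16 * Real.exp 2 * C1

lemma C0_pos : 0 < C0 := by
  have := C1_pos
  unfold C0
  positivity

theorem bloch_bound (hG : Differentiable ℂ G) (hκ : 0 < κ)
    (h : ∀ m : ℕ, ∀ z : ℂ, ‖z‖ = 1 →
      |(G (Complex.exp (((2 * Real.pi / 3 ^ m : ℝ) : ℂ) * I) * z) - G z).re| ≤ κ)
    {z : ℂ} (hz : ‖z‖ < 1) : ‖deriv G z‖ * (1 - ‖z‖) ≤ C0 * κ := by
  have hC1 := C1_pos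
  set g : ℂ → ℂ := fun ζ => G (Complex.exp (I * ζ)) with hg
  have hgd : Differentiable ℂ g := by
    intro ζ
    have h1 : DifferentiableAt ℂ (fun ζ : ℂ => Complex.exp (I * ζ)) ζ := by fun_prop
    exact (hG _).comp ζ h1
  have hgder : ∀ ζ : ℂ, deriv g ζ = deriv G (Complex.exp (I * ζ)) * (Complex.exp (I * ζ) * I) := by
    intro ζ
    have h2 : HasDerivAt (fun ζ : ℂ => Complex.exp (I * ζ)) (Complex.exp (I * ζ) * I) ζ := by
      have h3 : HasDerivAt (fun ζ : ℂ => I * ζ) I ζ := by
        simpa using (hasDerivAt_id ζ).const_mul I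
      exact h3.cexp
    exact ((hG _).hasDerivAt.comp ζ h2).deriv
  -- (7)
  have h7 : ∀ ζ : ℂ, 0 < ζ.im → ‖deriv (deriv g) ζ‖ ≤ 4 * Real.exp 2 * C1 * κ / ζ.im ^ 2 := by
    intro ζ hζ
    have e1 := deriv_le_of_re (f := deriv g) hgd.deriv (c := ζ) (R := ζ.im / 2)
      (κ := C1 * κ / (ζ.im / 2)) (by positivity) (by positivity) (by
        intro w hw
        rw [mem_closedBall, dist_eq_norm] at hw
        have h5 := (abs_le.mp ((Complex.abs_im_le_norm (w - ζ)).trans hw)).1
        rw [Complex.sub_im] at h5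
        have h6 : ζ.im / 2 ≤ w.im := by linarith
        refine (half_plane_re hG hκ h (show 0 < w.im by linarith)).trans ?_
        gcongr)
    refine e1.trans (le_of_eq ?_)
    field_simp
    ring
  -- (8)
  have h8 : ∀ ζ : ℂ, 0 < ζ.im → ‖deriv g ζ‖ ≤ 4 * Real.exp 2 * C1 * κ / ζ.im := by
    intro ζ hζ
    set A := 4 * Real.exp 2 * C1 * κ with hA
    have hA0 : 0 < A := by positivity
    have hder : ∀ s : ℝ, HasDerivAt (fun s : ℝ => deriv g (ζ + (s:ℂ) * I))
        (deriv (deriv g) (ζ + (s:ℂ) * I) * I) s := by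
      intro s
      have h5 : HasDerivAt (fun s : ℝ => ζ + (s:ℂ) * I) I s := by
        simpa using ((Complex.ofRealCLM.hasDerivAt (x := s)).mul_const I).const_add ζ
      exact (hgd.deriv _).hasDerivAt.comp_of_eq s h5 rfl
    have hbd : ∀ S : ℝ, 0 ≤ S → ‖deriv g (ζ + (S:ℂ) * I) - deriv g ζ‖ ≤
        A * (1 / ζ.im - 1 / (ζ.im + S)) := by
      intro S hS
      have key := image_norm_le_of_norm_deriv_right_le_deriv_boundary'
        (f := fun s : ℝ => deriv g (ζ + (s:ℂ) * I) - deriv g ζ)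
        (f' := fun s : ℝ => deriv (deriv g) (ζ + (s:ℂ) * I) * I)
        (a := 0) (b := S)
        (fun x _ => ((hder x).sub_const _).continuousAt.continuousWithinAt)
        (fun x _ => ((hder x).sub_const _).hasDerivWithinAt)
        (B := fun x => A * (1 / ζ.im - 1 / (ζ.im + x)))
        (B' := fun x => A * (1 / (ζ.im + x) ^ 2))
        (by simp)
        (by
          intro x hx
          have : ζ.im + x ≠ 0 := by have := hx.1; positivity
          apply ContinuousAt.continuousWithinAt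
          fun_prop (disch := exact this))
        (fun x hx => by
          have hne : ζ.im + x ≠ 0 := by have := hx.1; positivity
          have e1 : HasDerivAt (fun x : ℝ => ζ.im + x) 1 x := (hasDerivAt_id x).const_add _
          have e2 := ((e1.inv hne).const_sub (1 / ζ.im)).const_mul A
          have e3 : HasDerivAt (fun x => A * (1 / ζ.im - 1 / (ζ.im + x)))
              (A * (1 / (ζ.im + x) ^ 2)) x := by
            have e4 : (fun x => A * (1 / ζ.im - 1 / (ζ.im + x))) =
                (fun y => A * (1 / ζ.im - (fun x => ζ.im + x)⁻¹ y)) := by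
              ext y
              simp
            rw [e4]
            refine e2.congr_deriv ?_
            ring
          exact e3.hasDerivWithinAt)
        (by
          intro x hx
          have hx0 := hx.1
          have him : (ζ + (x:ℂ) * I).im = ζ.im + x := by simp
          have e1 := h7 (ζ + (x:ℂ) * I) (by rw [him]; positivity)
          rw [him] at e1
          rw [norm_mul, Complex.norm_I, mul_one]
          refine e1.trans (le_of_eq ?_)
          rw [hA]
          ring)
      exact key ⟨hS, le_rfl⟩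
    have hlim0 : Tendsto (fun S : ℝ => deriv g (ζ + (S:ℂ) * I)) atTop (𝓝 0) := by
      have e1 : Tendsto (fun S : ℝ => Complex.exp (I * (ζ + (S:ℂ) * I))) atTop (𝓝 0) := by
        rw [tendsto_zero_iff_norm_tendsto_zero]
        have e2 : ∀ S : ℝ, ‖Complex.exp (I * (ζ + (S:ℂ) * I))‖ = Real.exp (-ζ.im) * Real.exp (-S) := by
          intro S
          rw [Complex.norm_exp, ← Real.exp_add]
          congr 1
          simp
          ring
        simp only [e2]
        have := (Real.tendsto_exp_neg_atTop_nhds_zero).const_mul (Real.exp (-ζ.im))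
        simpa using this
      have e3 : Continuous (deriv G) := hG.deriv.continuous
      have e4 := (e3.tendsto 0).comp e1
      have e5 := e4.mul (e1.mul_const I)
      simp only [zero_mul, mul_zero] at e5
      refine e5.congr (fun S => ?_)
      rw [hgder]
      rfl
    have hlim1 : Tendsto (fun S : ℝ => ‖deriv g (ζ + (S:ℂ) * I) - deriv g ζ‖) atTop
        (𝓝 ‖0 - deriv g ζ‖) := (hlim0.sub_const _).norm
    rw [zero_sub, norm_neg] at hlim1
    refine le_of_tendsto hlim1 ?_
    filter_upwards [eventually_ge_atTop (0:ℝ)] with S hS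
    refine (hbd S hS).trans ?_
    rw [mul_sub, mul_one_div]
    have : 0 ≤ A * (1 / (ζ.im + S)) := by positivity
    linarith
  -- (9)
  have h9 : ∀ z : ℂ, ‖z‖ < 1 → ‖deriv G z‖ * ‖z‖ * (1 - ‖z‖) ≤ 4 * Real.exp 2 * C1 * κ := by
    intro z hz
    rcases eq_or_ne z 0 with rfl | hz0
    · simp
      positivity
    have hnz : 0 < ‖z‖ := norm_pos_iff.mpr hz0
    set ζ₀ : ℂ := -I * Complex.log z with hζ₀
    have hexp : Complex.exp (I * ζ₀) = z := by
      rw [hζ₀, ← mul_assoc]
      have : I * -I = 1 := by simp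
      rw [this, one_mul, Complex.exp_log hz0]
    have him : ζ₀.im = -Real.log ‖z‖ := by
      rw [hζ₀]
      simp [Complex.log_re]
    have hlog : 1 - ‖z‖ ≤ ζ₀.im := by
      rw [him]
      have := Real.log_le_sub_one_of_pos hnz
      linarith
    have him0 : 0 < ζ₀.im := by linarith
    have e1 := h8 ζ₀ him0
    rw [hgder, hexp, norm_mul, norm_mul, Complex.norm_I, mul_one, le_div_iff₀ him0] at e1
    refine le_trans ?_ e1
    gcongr
  -- (10)
  have h10 : ∀ z : ℂ, 1 / 2 ≤ ‖z‖ → ‖z‖ < 1 →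
      ‖deriv G z‖ * (1 - ‖z‖) ≤ 2 * (4 * Real.exp 2 * C1 * κ) := by
    intro z hz1 hz2
    have e1 := h9 z hz2
    have e2 : 0 ≤ ‖deriv G z‖ * (1 - ‖z‖) := mul_nonneg (norm_nonneg _) (by linarith)
    nlinarith
  have hfin : C0 * κ = 4 * (4 * Real.exp 2 * C1 * κ) := by unfold C0; ring
  rw [hfin]
  have hX : 0 < 4 * Real.exp 2 * C1 * κ := by positivity
  rcases le_or_gt (1 / 2) ‖z‖ with h | h
  · have := h10 z h hz
    linarith
  · have e1 : ‖deriv G z‖ ≤ 4 * (4 * Real.exp 2 * C1 * κ) := by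
      refine Complex.norm_le_of_forall_mem_frontier_norm_le (U := ball (0:ℂ) (1 / 2))
        isBounded_ball hG.deriv.diffContOnCl ?_ (z := z) ?_
      · intro w hw
        rw [frontier_ball _ (by norm_num), mem_sphere, dist_zero_right] at hw
        have := h10 w hw.ge (by rw [hw]; norm_num)
        rw [hw] at this
        linarith
      · apply subset_closure
        simpa using h
    have e2 : ‖deriv G z‖ * (1 - ‖z‖) ≤ ‖deriv G z‖ * 1 := by
      gcongr
      linarith [norm_nonneg z]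
    linarith

end

end BlochMult
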