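import Pool.Agent.Bloch.Defs

namespace BlochMult

open Complex Metric Set Filter Topology MeasureTheory Interval Finset

/-- disc-algebra function, unimodular on the circle -/
structure Fac (B : ℂ → ℂ) : Prop where
  diff : DifferentiableOn ℂ B (ball 0 1)
  cont : ContinuousOn B (closedBall 0 1)
  le_one : ∀ z : ℂ, ‖z‖ ≤ 1 → ‖B z‖ ≤ 1
  eq_one : ∀ z : ℂ, ‖z‖ = 1 → ‖B z‖ = 1

lemma prod_lower {ι : Type*} (s : Finset ι) (x η : ι → ℝ) (hx0 : ∀ i ∈ s, 0 ≤ x i)
    (hx1 : ∀ i ∈ s, x i ≤ 1) (hx : ∀ i ∈ s, 1 - η i ≤ x i) :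
    1 - ∑ i ∈ s, η i ≤ ∏ i ∈ s, x i := by
  classical
  induction s using Finset.induction_on with
  | empty => simp
  | insert a s ha ih =>
    rw [Finset.sum_insert ha, Finset.prod_insert ha]
    have h1 := ih (fun i hi => hx0 i (Finset.mem_insert_of_mem hi))
      (fun i hi => hx1 i (Finset.mem_insert_of_mem hi))
      (fun i hi => hx i (Finset.mem_insert_of_mem hi))
    have h2 := hx0 a (Finset.mem_insert_self a s)
    have h3 := hx1 a (Finset.mem_insert_self a s)
    have h4 := hx a (Finset.mem_insert_self a s)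
    have h5 : 0 ≤ ∏ i ∈ s, x i := Finset.prod_nonneg fun i hi => hx0 i (Finset.mem_insert_of_mem hi)
    have h6 : ∏ i ∈ s, x i ≤ 1 := Finset.prod_le_one (fun i hi => hx0 i (Finset.mem_insert_of_mem hi))
      (fun i hi => hx1 i (Finset.mem_insert_of_mem hi))
    nlinarith

theorem inner_prod {B : ℕ → ℂ → ℂ} (hB : ∀ k, Fac (B k)) {η : ℕ → ℝ} (hη : Summable η)
    {r : ℕ → ℝ} (hr : Tendsto r atTop (𝓝 0))
    (hfar : ∀ k, ∀ z : ℂ, ‖z‖ ≤ 1 → r k ≤ ‖z - 1‖ → ‖B k z - 1‖ ≤ η k) :
    ∃ Θ : ℂ → ℂ, IsInner Θ ∧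
      (∀ z : ℂ, ‖z‖ < 1 → Tendsto (fun n => ∏ k ∈ range n, B k z) atTop (𝓝 (Θ z))) ∧
      (∀ z : ℂ, ‖z‖ < 1 → Tendsto (fun n => deriv (fun z => ∏ k ∈ range n, B k z) z) atTop
        (𝓝 (deriv Θ z))) := by
  set P : ℕ → ℂ → ℂ := fun n z => ∏ k ∈ range n, B k z with hP
  set u : ℕ → ℂ → ℂ := fun n z => P (n + 1) z - P n z with hu
  set Θ : ℂ → ℂ := fun z => 1 + ∑' n, u n z with hΘ
  have hP1 : ∀ n z, ‖z‖ ≤ 1 → ‖P n z‖ ≤ 1 := by
    intro n z hz
    simp only [hP]
    rw [norm_prod]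
    exact Finset.prod_le_one (fun i _ => norm_nonneg _) (fun i _ => (hB i).le_one z hz)
  have htel : ∀ N z, ∑ n ∈ range N, u n z = P N z - 1 := by
    intro N z
    simp only [hu]
    rw [Finset.sum_range_sub (fun n => P n z)]
    simp [hP]
  have hunif : ∀ δ : ℝ, 0 < δ → TendstoUniformlyOn P Θ atTop
      {z : ℂ | ‖z‖ ≤ 1 ∧ δ ≤ ‖z - 1‖} := by
    intro δ hδ
    have h1 := tendstoUniformlyOn_tsum_nat_eventually (f := u) (u := η) hη
      (s := {z : ℂ | ‖z‖ ≤ 1 ∧ δ ≤ ‖z - 1‖}) (by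
        filter_upwards [hr.eventually_lt_const hδ] with n hn z hz
        have h2 : u n z = P n z * (B n z - 1) := by
          simp only [hu, hP, Finset.prod_range_succ]
          ring
        rw [h2, norm_mul]
        have h3 := hfar n z hz.1 (hn.le.trans hz.2)
        calc ‖P n z‖ * ‖B n z - 1‖ ≤ 1 * ‖B n z - 1‖ := by gcongr; exact hP1 n z hz.1
          _ ≤ η n := by rw [one_mul]; exact h3)
    rw [Metric.tendstoUniformlyOn_iff] at h1 ⊢
    intro ε hε
    filter_upwards [h1 ε hε] with n hn z hz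
    have h2 := hn z hz
    rw [htel] at h2
    simp only [hΘ]
    rw [dist_eq_norm] at h2 ⊢
    convert h2 using 2
    ring
  -- local uniform convergence away from 1
  have hloc : TendstoLocallyUniformlyOn P Θ atTop (closedBall 0 1 \ {1}) := by
    apply tendstoLocallyUniformlyOn_of_forall_exists_nhds
    intro z hz
    have hz1 : 0 < ‖z - 1‖ := norm_pos_iff.mpr (sub_ne_zero.mpr (by simpa using hz.2))
    refine ⟨{w : ℂ | ‖w‖ ≤ 1 ∧ ‖z - 1‖ / 2 ≤ ‖w - 1‖}, ?_, hunif _ (by positivity)⟩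
    have h2 : ∀ᶠ w in 𝓝 z, ‖z - 1‖ / 2 < ‖w - 1‖ := by
      have : Continuous (fun w : ℂ => ‖w - 1‖) := by fun_prop
      exact this.continuousAt.eventually_const_lt (by linarith)
    filter_upwards [nhdsWithin_le_nhds h2, self_mem_nhdsWithin] with w hw hw2
    exact ⟨by simpa using hw2.1, hw.le⟩
  have hsub : ball (0:ℂ) 1 ⊆ closedBall 0 1 \ {1} := by
    intro z hz
    refine ⟨ball_subset_closedBall hz, ?_⟩
    rintro rfl
    simp at hz
  have hlocb : TendstoLocallyUniformlyOn P Θ atTop (ball 0 1) := hloc.mono hsub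
  have hPd : ∀ n, DifferentiableOn ℂ (P n) (ball 0 1) := by
    intro n
    simp only [hP]
    exact DifferentiableOn.fun_finsetProd fun i _ => (hB i).diff
  have hPc : ∀ n, ContinuousOn (P n) (closedBall 0 1) := by
    intro n
    simp only [hP]
    exact continuousOn_finsetProd _ fun i _ => (hB i).cont
  have hΘd : DifferentiableOn ℂ Θ (ball 0 1) :=
    hlocb.differentiableOn (Eventually.of_forall hPd) isOpen_ball
  have hΘc : ContinuousOn Θ (closedBall 0 1 \ {1}) :=
    hloc.continuousOn (Eventually.of_forall fun n => (hPc n).mono sdiff_subset).frequently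
  have hpt : ∀ z : ℂ, z ∈ closedBall (0:ℂ) 1 \ {1} → Tendsto (fun n => P n z) atTop (𝓝 (Θ z)) :=
    fun z hz => hloc.tendsto_at hz
  refine ⟨Θ, ⟨hΘd, ⟨1, ?_⟩, ?_⟩, fun z hz => hpt z (hsub (by simpa using hz)), ?_⟩
  · intro z hz
    refine le_of_tendsto (hpt z (hsub hz)).norm (Eventually.of_forall fun n => ?_)
    exact hP1 n z (by simpa using (ball_subset_closedBall hz))
  · have hcount : Set.Countable {θ : ℝ | Complex.exp ((θ:ℂ) * I) = 1} := by
      have : {θ : ℝ | Complex.exp ((θ:ℂ) * I) = 1} ⊆ Set.range (fun n : ℤ => (n:ℝ) * (2 * Real.pi)) := by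
        intro θ hθ
        simp only [mem_ofPred_eq] at hθ
        rw [Complex.exp_eq_one_iff] at hθ
        obtain ⟨n, hn⟩ := hθ
        refine ⟨n, ?_⟩
        have h2 : ((θ:ℂ) - n * (2 * Real.pi)) * I = 0 := by linear_combination hn
        rw [mul_eq_zero] at h2
        rcases h2 with h2 | h2
        · have h3 : (θ:ℂ) = ((n * (2 * Real.pi) : ℝ) : ℂ) := by
            push_cast
            linear_combination h2
          exact (Complex.ofReal_injective h3).symm
        · exact absurd h2 Complex.I_ne_zero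
      exact (Set.countable_range _).mono this
    have hae : ∀ᵐ θ : ℝ, θ ∉ {θ : ℝ | Complex.exp ((θ:ℂ) * I) = 1} := by
      rw [ae_iff]
      simp only [not_not]
      exact hcount.measure_zero _
    filter_upwards [hae] with θ hθ
    set e := Complex.exp ((θ:ℂ) * I) with he
    have he1 : ‖e‖ = 1 := Complex.norm_exp_ofReal_mul_I θ
    have hmem : e ∈ closedBall (0:ℂ) 1 \ {1} := ⟨by simp [he1], by simpa using hθ⟩
    refine ⟨Θ e, ?_, ?_⟩
    · have h1 := (hpt e hmem).norm
      have h2 : (fun n => ‖P n e‖) = fun _ => (1:ℝ) := by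
        ext n
        simp only [hP]
        rw [norm_prod]
        exact Finset.prod_eq_one fun i _ => (hB i).eq_one e he1
      rw [h2] at h1
      exact tendsto_nhds_unique h1 tendsto_const_nhds
    · have h1 : ContinuousWithinAt Θ (closedBall 0 1 \ {1}) e := hΘc e hmem
      have h2 : Tendsto (fun r : ℝ => (r:ℂ) * e) (𝓝[<] 1) (𝓝[closedBall 0 1 \ {1}] e) := by
        refine tendsto_nhdsWithin_iff.2 ⟨?_, ?_⟩
        · have h3 : Continuous (fun r : ℝ => (r:ℂ) * e) := by fun_prop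
          have h4 := h3.tendsto 1
          simp only [Complex.ofReal_one, one_mul] at h4
          exact h4.mono_left nhdsWithin_le_nhds
        · filter_upwards [Ioo_mem_nhdsLT (show (0:ℝ) < 1 by norm_num)] with r hr
          apply hsub
          rw [mem_ball, dist_zero_right, norm_mul, he1, mul_one, Complex.norm_real,
            Real.norm_of_nonneg hr.1.le]
          exact hr.2
      exact h1.tendsto.comp h2
  · intro z hz
    have h1 := hlocb.deriv (Eventually.of_forall hPd) isOpen_ball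
    exact h1.tendsto_at (by simpa using hz)

end BlochMult
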