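import Mathlib

namespace BlochMult

open Complex Metric Set Filter Topology

/-- The Blaschke factor with zero `p`. -/
noncomputable def mob (p z : ℂ) : ℂ := (z - p) / (1 - (starRingEnd ℂ) p * z)

lemma den_lower (p z : ℂ) : 1 - ‖p‖ * ‖z‖ ≤ ‖1 - (starRingEnd ℂ) p * z‖ := by
  have h := norm_sub_norm_le (1 : ℂ) ((starRingEnd ℂ) p * z)
  rw [norm_one, norm_mul, RCLike.norm_conj] at h
  exact h

lemma den_ne {p z : ℂ} (hp : ‖p‖ < 1) (hz : ‖z‖ ≤ 1) : 1 - (starRingEnd ℂ) p * z ≠ 0 := by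
  have h := den_lower p z
  have : ‖p‖ * ‖z‖ ≤ ‖p‖ * 1 := by gcongr
  have h3 : 0 < ‖1 - (starRingEnd ℂ) p * z‖ := by linarith
  exact norm_pos_iff.mp h3

lemma den_pos {p z : ℂ} (hp : ‖p‖ < 1) (hz : ‖z‖ ≤ 1) : 0 < ‖1 - (starRingEnd ℂ) p * z‖ :=
  norm_pos_iff.mpr (den_ne hp hz)

lemma den_ge_left {p z : ℂ} (hz : ‖z‖ ≤ 1) :
    1 - ‖p‖ ≤ ‖1 - (starRingEnd ℂ) p * z‖ := by
  have h := den_lower p z
  have : ‖p‖ * ‖z‖ ≤ ‖p‖ * 1 := by gcongr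
  linarith

lemma den_ge_right {p z : ℂ} (hp : ‖p‖ ≤ 1) :
    1 - ‖z‖ ≤ ‖1 - (starRingEnd ℂ) p * z‖ := by
  have h := den_lower p z
  have : ‖p‖ * ‖z‖ ≤ 1 * ‖z‖ := by gcongr
  linarith

lemma den_sq_sub (p z : ℂ) : ‖1 - (starRingEnd ℂ) p * z‖ ^ 2 - ‖z - p‖ ^ 2 =
    (1 - ‖p‖ ^ 2) * (1 - ‖z‖ ^ 2) := by
  simp only [← Complex.normSq_eq_norm_sq, Complex.normSq_apply]
  simp
  ring

lemma norm_mob (p z : ℂ) : ‖mob p z‖ = ‖z - p‖ / ‖1 - (starRingEnd ℂ) p * z‖ := by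
  simp [mob]

lemma one_sub_norm_mob_sq {p z : ℂ} (hp : ‖p‖ < 1) (hz : ‖z‖ ≤ 1) :
    1 - ‖mob p z‖ ^ 2 = (1 - ‖p‖ ^ 2) * (1 - ‖z‖ ^ 2) / ‖1 - (starRingEnd ℂ) p * z‖ ^ 2 := by
  have h := den_pos hp hz
  have h2 : ‖1 - (starRingEnd ℂ) p * z‖ ^ 2 ≠ 0 := by positivity
  rw [norm_mob, ← den_sq_sub, div_pow, sub_div, div_self h2]

lemma norm_mob_le_one {p z : ℂ} (hp : ‖p‖ < 1) (hz : ‖z‖ ≤ 1) : ‖mob p z‖ ≤ 1 := by
  have h := one_sub_norm_mob_sq hp hz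
  have h1 : 0 ≤ (1 - ‖p‖ ^ 2) * (1 - ‖z‖ ^ 2) / ‖1 - (starRingEnd ℂ) p * z‖ ^ 2 := by
    apply div_nonneg _ (by positivity)
    apply mul_nonneg <;> nlinarith [norm_nonneg p, norm_nonneg z]
  nlinarith [norm_nonneg (mob p z)]

lemma norm_mob_lt_one {p z : ℂ} (hp : ‖p‖ < 1) (hz : ‖z‖ < 1) : ‖mob p z‖ < 1 := by
  have h := one_sub_norm_mob_sq hp hz.le
  have hd := den_pos hp hz.le
  have h1 : 0 < (1 - ‖p‖ ^ 2) * (1 - ‖z‖ ^ 2) / ‖1 - (starRingEnd ℂ) p * z‖ ^ 2 := by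
    apply div_pos _ (by positivity)
    apply mul_pos <;> nlinarith [norm_nonneg p, norm_nonneg z]
  nlinarith [norm_nonneg (mob p z)]

lemma norm_mob_eq_one {p z : ℂ} (hp : ‖p‖ < 1) (hz : ‖z‖ = 1) : ‖mob p z‖ = 1 := by
  have h := one_sub_norm_mob_sq hp hz.le
  rw [hz] at h
  have h2 : ‖mob p z‖ ^ 2 = 1 := by
    have : (1 - ‖p‖ ^ 2) * (1 - (1:ℝ) ^ 2) / ‖1 - (starRingEnd ℂ) p * z‖ ^ 2 = 0 := by simp
    linarith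
  nlinarith [norm_nonneg (mob p z)]

lemma mob_self (p : ℂ) : mob p p = 0 := by simp [mob]

lemma mob_sub {p z w : ℂ} (hp : ‖p‖ < 1) (hz : ‖z‖ ≤ 1) (hw : ‖w‖ ≤ 1) :
    mob p z - mob p w = ((1 - ‖p‖ ^ 2 : ℝ) : ℂ) * (z - w) /
      ((1 - (starRingEnd ℂ) p * z) * (1 - (starRingEnd ℂ) p * w)) := by
  have h1 := den_ne hp hz
  have h2 := den_ne hp hw
  have h3 : ((1 - ‖p‖ ^ 2 : ℝ) : ℂ) = 1 - (starRingEnd ℂ) p * p := by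
    push_cast
    rw [← Complex.ofReal_pow, ← Complex.normSq_eq_norm_sq, ← Complex.normSq_eq_conj_mul_self]
  rw [h3]
  unfold mob
  rw [div_sub_div _ _ h1 h2]
  congr 1
  ring

lemma hasDerivAt_mob {p z : ℂ} (h1 : 1 - (starRingEnd ℂ) p * z ≠ 0) :
    HasDerivAt (mob p) (((1 - ‖p‖ ^ 2 : ℝ) : ℂ) / (1 - (starRingEnd ℂ) p * z) ^ 2) z := by
  have h3 : ((1 - ‖p‖ ^ 2 : ℝ) : ℂ) = 1 - (starRingEnd ℂ) p * p := by
    push_cast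
    rw [← Complex.ofReal_pow, ← Complex.normSq_eq_norm_sq, ← Complex.normSq_eq_conj_mul_self]
  have ha : HasDerivAt (fun z : ℂ => z - p) 1 z := (hasDerivAt_id z).sub_const p
  have hb : HasDerivAt (fun z : ℂ => 1 - (starRingEnd ℂ) p * z) (-(starRingEnd ℂ) p) z := by
    simpa using ((hasDerivAt_id z).const_mul ((starRingEnd ℂ) p)).const_sub 1
  have := ha.div hb h1
  refine this.congr_deriv ?_
  rw [h3]
  congr 1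
  ring

end BlochMult
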