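import Pool.Agent.Bloch.Grid
import Pool.Agent.Bloch.Mobius
import Pool.Agent.Bloch.InnerProd

namespace BlochMult

open Complex Metric Set Filter Topology

/-- the zeros -/
noncomputable def zr (N i : ℕ) : ℂ := ((1 - 1 / N : ℝ) : ℂ) * rt N ^ i

/-- finite Blaschke product -/
noncomputable def fbl (N : ℕ) (s : Finset ℕ) (w : ℂ) : ℂ := ∏ i ∈ s, mob (zr N i) w

lemma zr_norm {N : ℕ} (hN : N ≠ 0) (i : ℕ) : ‖zr N i‖ = 1 - 1 / N := by
  unfold zr
  have h1 : (1:ℝ) ≤ N := by exact_mod_cast Nat.one_le_iff_ne_zero.mpr hN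
  have h2 : (0:ℝ) ≤ 1 - 1 / N := by
    rw [sub_nonneg, div_le_one (by linarith)]
    exact h1
  rw [norm_mul, norm_pow, rt_norm hN, one_pow, mul_one, Complex.norm_real,
    Real.norm_of_nonneg h2]

lemma zr_lt {N : ℕ} (hN : N ≠ 0) (i : ℕ) : ‖zr N i‖ < 1 := by
  rw [zr_norm hN]
  have : (0:ℝ) < N := by exact_mod_cast Nat.pos_of_ne_zero hN
  have : (0:ℝ) < 1 / N := by positivity
  linarith

lemma mob_diffAt {p z : ℂ} (hp : ‖p‖ < 1) (hz : ‖z‖ ≤ 1) : DifferentiableAt ℂ (mob p) z :=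
  (hasDerivAt_mob (den_ne hp hz)).differentiableAt

lemma fac_mob {p : ℂ} (hp : ‖p‖ < 1) : Fac (mob p) where
  diff := fun z hz => (mob_diffAt hp (by rw [mem_ball, dist_zero_right] at hz; exact hz.le)).differentiableWithinAt
  cont := fun z hz => (mob_diffAt hp (by simpa using hz)).continuousAt.continuousWithinAt
  le_one := fun z hz => norm_mob_le_one hp hz
  eq_one := fun z hz => norm_mob_eq_one hp hz

lemma fac_prod {ι : Type*} (s : Finset ι) {B : ι → ℂ → ℂ} (h : ∀ i ∈ s, Fac (B i)) :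
    Fac (fun z => ∏ i ∈ s, B i z) where
  diff := DifferentiableOn.fun_finsetProd fun i hi => (h i hi).diff
  cont := continuousOn_finsetProd _ fun i hi => (h i hi).cont
  le_one := fun z hz => by
    rw [norm_prod]
    exact Finset.prod_le_one (fun i _ => norm_nonneg _) (fun i hi => (h i hi).le_one z hz)
  eq_one := fun z hz => by
    rw [norm_prod]
    exact Finset.prod_eq_one fun i hi => (h i hi).eq_one z hz

lemma fac_fbl {N : ℕ} (hN : N ≠ 0) (s : Finset ℕ) : Fac (fbl N s) :=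
  fac_prod s fun i _ => fac_mob (zr_lt hN i)

lemma prod_lip {ι : Type*} (s : Finset ι) (a b : ι → ℂ) (ha : ∀ i ∈ s, ‖a i‖ ≤ 1)
    (hb : ∀ i ∈ s, ‖b i‖ ≤ 1) : ‖∏ i ∈ s, a i - ∏ i ∈ s, b i‖ ≤ ∑ i ∈ s, ‖a i - b i‖ := by
  classical
  induction s using Finset.induction_on with
  | empty => simp
  | insert j s hj ih =>
    rw [Finset.prod_insert hj, Finset.prod_insert hj, Finset.sum_insert hj]
    have h1 := ih (fun i hi => ha i (Finset.mem_insert_of_mem hi))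
      (fun i hi => hb i (Finset.mem_insert_of_mem hi))
    have h2 : a j * ∏ i ∈ s, a i - b j * ∏ i ∈ s, b i =
      (a j - b j) * ∏ i ∈ s, a i + b j * (∏ i ∈ s, a i - ∏ i ∈ s, b i) := by ring
    rw [h2]
    refine (norm_add_le _ _).trans ?_
    rw [norm_mul, norm_mul]
    have h3 : ‖∏ i ∈ s, a i‖ ≤ 1 := by
      rw [norm_prod]
      exact Finset.prod_le_one (fun i _ => norm_nonneg _)
        (fun i hi => ha i (Finset.mem_insert_of_mem hi))
    have h4 := hb j (Finset.mem_insert_self j s)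
    have h5 : ‖a j - b j‖ * ‖∏ i ∈ s, a i‖ ≤ ‖a j - b j‖ * 1 := by gcongr
    have h6 : ‖b j‖ * ‖∏ i ∈ s, a i - ∏ i ∈ s, b i‖ ≤ 1 * ‖∏ i ∈ s, a i - ∏ i ∈ s, b i‖ := by
      gcongr
    linarith

lemma mob_lip {p z w : ℂ} (hp : ‖p‖ < 1) (hz : ‖z‖ ≤ 1) (hw : ‖w‖ ≤ 1) :
    ‖mob p z - mob p w‖ ≤ 2 / (1 - ‖p‖) * ‖z - w‖ := by
  rw [mob_sub hp hz hw, norm_div, norm_mul, norm_mul, Complex.norm_real]
  have h1 := den_ge_left (p := p) hz
  have h2 := den_ge_left (p := p) hw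
  have h3 : 0 < 1 - ‖p‖ := by linarith
  have h4 : (0:ℝ) ≤ 1 - ‖p‖ ^ 2 := by nlinarith [norm_nonneg p]
  rw [Real.norm_of_nonneg h4, div_le_iff₀ (mul_pos (by linarith) (by linarith))]
  have h5 : 1 - ‖p‖ ^ 2 ≤ 2 * (1 - ‖p‖) := by nlinarith [norm_nonneg p]
  calc (1 - ‖p‖ ^ 2) * ‖z - w‖ ≤ 2 * (1 - ‖p‖) * ‖z - w‖ := by gcongr
    _ = 2 / (1 - ‖p‖) * ‖z - w‖ * ((1 - ‖p‖) * (1 - ‖p‖)) := by field_simp
    _ ≤ _ := by gcongr

lemma fbl_lip {N : ℕ} (hN : N ≠ 0) (s : Finset ℕ) {z w : ℂ} (hz : ‖z‖ ≤ 1) (hw : ‖w‖ ≤ 1) :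
    ‖fbl N s z - fbl N s w‖ ≤ (s.card * (2 * N)) * ‖z - w‖ := by
  unfold fbl
  refine (prod_lip s _ _ (fun i _ => norm_mob_le_one (zr_lt hN i) hz)
    (fun i _ => norm_mob_le_one (zr_lt hN i) hw)).trans ?_
  have h1 : ∀ i ∈ s, ‖mob (zr N i) z - mob (zr N i) w‖ ≤ 2 * N * ‖z - w‖ := by
    intro i _
    have := mob_lip (zr_lt hN i) hz hw
    rw [zr_norm hN] at this
    have h2 : (2:ℝ) / (1 - (1 - 1 / N)) = 2 * N := by
      have : (N:ℝ) ≠ 0 := by exact_mod_cast hN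
      rw [sub_sub_cancel]
      field_simp
    rwa [h2] at this
  refine (Finset.sum_le_sum h1).trans (le_of_eq ?_)
  rw [Finset.sum_const, nsmul_eq_mul]
  ring

lemma fbl_zero {N : ℕ} (hN : N ≠ 0) (s : Finset ℕ) :
    ‖fbl N s 0‖ ≤ Real.exp (-(s.card / N)) := by
  unfold fbl
  rw [norm_prod]
  have h1 : ∀ i ∈ s, ‖mob (zr N i) 0‖ = 1 - 1 / N := by
    intro i _
    unfold mob
    rw [mul_zero, sub_zero, div_one, zero_sub, norm_neg, zr_norm hN]
  rw [Finset.prod_congr rfl h1, Finset.prod_const]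
  have h2 : (1 - 1 / N : ℝ) ≤ Real.exp (-(1 / N)) := by
    have := Real.add_one_le_exp (-(1 / (N:ℝ)))
    linarith
  have h3 : (0:ℝ) ≤ 1 - 1 / N := by rw [← zr_norm hN 0]; exact norm_nonneg _
  calc (1 - 1 / N : ℝ) ^ s.card ≤ (Real.exp (-(1 / N))) ^ s.card := by gcongr
    _ = Real.exp (-(s.card / N)) := by
      rw [← Real.exp_nat_mul]
      congr 1
      ring

lemma geom_ident {N : ℕ} (hN : N ≠ 0) {x : ℂ} (hx : ‖x‖ < 1) :
    ∑ i ∈ Finset.range N, 1 / (1 - x * (starRingEnd ℂ) (rt N ^ i)) = N / (1 - x ^ N) := by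
  have hc : ∀ i, ‖x * (starRingEnd ℂ) (rt N ^ i)‖ < 1 := by
    intro i
    rw [norm_mul, RCLike.norm_conj, norm_pow, rt_norm hN, one_pow, mul_one]
    exact hx
  have hne : ∀ i, 1 - x * (starRingEnd ℂ) (rt N ^ i) ≠ 0 := by
    intro i h
    have h1 : x * (starRingEnd ℂ) (rt N ^ i) = 1 := (sub_eq_zero.mp h).symm
    have h2 := hc i
    rw [h1, norm_one] at h2
    exact lt_irrefl _ h2
  have hxN : 1 - x ^ N ≠ 0 := by
    intro h
    have h1 : x ^ N = 1 := (sub_eq_zero.mp h).symm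
    have h2 : ‖x ^ N‖ < 1 := by
      rw [norm_pow]
      exact pow_lt_one₀ (norm_nonneg _) hx hN
    rw [h1, norm_one] at h2
    exact lt_irrefl _ h2
  rw [eq_div_iff hxN, Finset.sum_mul]
  have h3 : ∀ i ∈ Finset.range N, 1 / (1 - x * (starRingEnd ℂ) (rt N ^ i)) * (1 - x ^ N) =
      ∑ k ∈ Finset.range N, x ^ k * (starRingEnd ℂ) ((rt N ^ i) ^ k) := by
    intro i _
    have h4 := mul_neg_geom_sum (x * (starRingEnd ℂ) (rt N ^ i)) N
    have h5 : (x * (starRingEnd ℂ) (rt N ^ i)) ^ N = x ^ N := by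
      rw [mul_pow, ← map_pow, ← pow_mul, mul_comm i N, pow_mul, (rt_prim hN).pow_eq_one, one_pow,
        map_one, mul_one]
    rw [h5] at h4
    rw [← h4, one_div, inv_mul_cancel_left₀ (hne i)]
    refine Finset.sum_congr rfl fun k _ => ?_
    rw [mul_pow, ← map_pow]
  rw [Finset.sum_congr rfl h3, Finset.sum_comm]
  have h6 : ∀ k ∈ Finset.range N, ∑ i ∈ Finset.range N, x ^ k * (starRingEnd ℂ) ((rt N ^ i) ^ k) =
      if k = 0 then (N:ℂ) else 0 := by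
    intro k hk
    rw [← Finset.mul_sum, ← map_sum]
    split_ifs with h
    · subst h
      simp
    · rw [orth0 hN h (Finset.mem_range.mp hk), map_zero, mul_zero]
  rw [Finset.sum_congr rfl h6]
  simp [hN]

lemma poisson_re {u : ℂ} (hu : 1 - u ≠ 0) :
    (1 - ‖u‖ ^ 2) / ‖1 - u‖ ^ 2 = 2 * (1 / (1 - u)).re - 1 := by
  have h1 : ‖1 - u‖ ^ 2 ≠ 0 := by
    have := norm_pos_iff.mpr hu
    positivity
  have h2 : (1 / (1 - u)).re = (1 - u.re) / ‖1 - u‖ ^ 2 := by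
    rw [one_div, Complex.inv_re, Complex.normSq_eq_norm_sq]
    simp
  rw [h2]
  field_simp
  rw [Complex.sq_norm, Complex.sq_norm, Complex.normSq_apply, Complex.normSq_apply]
  simp
  ring

lemma sum_bound {N : ℕ} (hN : N ≠ 0) {w : ℂ} (hw : ‖w‖ < 1) :
    ∑ i ∈ Finset.range N, (1 - ‖mob (zr N i) w‖ ^ 2) ≤ 6 := by
  have hN1 : (1:ℝ) ≤ N := by exact_mod_cast Nat.one_le_iff_ne_zero.mpr hN
  have hN0 : (0:ℝ) < N := by linarith
  set r : ℝ := 1 - 1 / N with hr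
  have hr0 : 0 ≤ r := by
    rw [hr, sub_nonneg, div_le_one hN0]
    exact hN1
  have hr1 : r < 1 := by
    have : (0:ℝ) < 1 / N := by positivity
    linarith
  set x : ℂ := (r:ℂ) * w with hx
  have hxn : ‖x‖ = r * ‖w‖ := by
    rw [hx, norm_mul, Complex.norm_real, Real.norm_of_nonneg hr0]
  have hxr : ‖x‖ ≤ r := by
    rw [hxn]
    nlinarith [norm_nonneg w]
  have hxw : ‖x‖ ≤ ‖w‖ := by
    rw [hxn]
    nlinarith [norm_nonneg w]
  have hx1 : ‖x‖ < 1 := by linarith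
  have hden : ∀ i, 1 - (starRingEnd ℂ) (zr N i) * w = 1 - x * (starRingEnd ℂ) (rt N ^ i) := by
    intro i
    unfold zr
    rw [map_mul, Complex.conj_ofReal, hx]
    ring
  have hne : ∀ i, 1 - x * (starRingEnd ℂ) (rt N ^ i) ≠ 0 := by
    intro i
    rw [← hden]
    exact den_ne (zr_lt hN i) hw.le
  have hterm : ∀ i ∈ Finset.range N, 1 - ‖mob (zr N i) w‖ ^ 2 ≤
      (1 - r ^ 2) * ((1 - ‖x‖ ^ 2) / ‖1 - x * (starRingEnd ℂ) (rt N ^ i)‖ ^ 2) := by
    intro i _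
    rw [one_sub_norm_mob_sq (zr_lt hN i) hw.le, hden, zr_norm hN, ← hr, mul_div_assoc]
    have h1 : 0 ≤ 1 - r ^ 2 := by nlinarith
    gcongr
  refine (Finset.sum_le_sum hterm).trans ?_
  rw [← Finset.mul_sum]
  have h2 : ∀ i ∈ Finset.range N, (1 - ‖x‖ ^ 2) / ‖1 - x * (starRingEnd ℂ) (rt N ^ i)‖ ^ 2 =
      2 * (1 / (1 - x * (starRingEnd ℂ) (rt N ^ i))).re - 1 := by
    intro i _
    have h2' : ‖x * (starRingEnd ℂ) (rt N ^ i)‖ = ‖x‖ := by
      rw [norm_mul x, RCLike.norm_conj, norm_pow, rt_norm hN, one_pow, mul_one]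
    rw [← poisson_re (hne i), h2']
  rw [Finset.sum_congr rfl h2, Finset.sum_sub_distrib, ← Finset.mul_sum, ← Complex.re_sum,
    geom_ident hN hx1]
  have h3 : ‖x ^ N‖ ≤ 1 / 2 := by
    rw [norm_pow]
    calc ‖x‖ ^ N ≤ r ^ N := by gcongr
      _ ≤ Real.exp (-1) := by
        have := Real.one_sub_div_pow_le_exp_neg (n := N) (t := 1) hN1
        exact this
      _ ≤ 1 / 2 := by
        have := Real.exp_neg_one_lt_d9
        norm_num at this ⊢
        linarith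
  have h4 : (1:ℝ) / 2 ≤ ‖1 - x ^ N‖ := by
    have := norm_sub_norm_le (1:ℂ) (x ^ N)
    rw [norm_one] at this
    linarith
  have h5 : (N / (1 - x ^ N) : ℂ).re ≤ 2 * N := by
    refine (Complex.re_le_norm _).trans ?_
    rw [norm_div, Complex.norm_natCast, div_le_iff₀ (by linarith)]
    nlinarith
  have h6 : 2 * (N / (1 - x ^ N) : ℂ).re - ∑ i ∈ Finset.range N, (1:ℝ) ≤ 3 * N := by
    simp only [Finset.sum_const, Finset.card_range, nsmul_eq_mul, mul_one]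
    linarith
  have h7 : 1 - r ^ 2 ≤ 2 / N := by
    have : 1 - r ^ 2 = (1 / N) * (1 + r) := by rw [hr]; ring
    rw [this]
    have h8 : (1:ℝ) / N * (1 + r) ≤ 1 / N * 2 := by gcongr; linarith
    refine h8.trans (le_of_eq ?_)
    ring
  have h9 : 0 ≤ 1 - r ^ 2 := by nlinarith
  calc (1 - r ^ 2) * (2 * ((N:ℂ) / (1 - x ^ N)).re - ∑ i ∈ Finset.range N, (1:ℝ))
      ≤ (1 - r ^ 2) * (3 * (N:ℝ)) := by gcongr
    _ ≤ 2 / (N:ℝ) * (3 * (N:ℝ)) := by gcongr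
    _ = 6 := by field_simp; norm_num

lemma small_imp {N : ℕ} (hN : N ≠ 0) {s : Finset ℕ} (hs : s ⊆ Finset.range N) {w : ℂ}
    (hw : ‖w‖ < 1) (h : ‖fbl N s w‖ < Real.exp (-12)) : ∃ i ∈ s, ‖mob (zr N i) w‖ < 1 / 2 := by
  by_contra hcon
  push Not at hcon
  have h1 : ∀ i ∈ s, Real.exp (-(2 * (1 - ‖mob (zr N i) w‖ ^ 2))) ≤ ‖mob (zr N i) w‖ := by
    intro i hi
    have h2 := hcon i hi
    have h3 := norm_mob_le_one (zr_lt hN i) hw.le
    set y := ‖mob (zr N i) w‖ with hy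
    have hy0 : 0 < y := by linarith
    rw [← Real.le_log_iff_exp_le hy0]
    have h4 := Real.one_sub_inv_le_log_of_pos (show 0 < y ^ 2 by positivity)
    rw [Real.log_pow] at h4
    push_cast at h4
    have h5 : 1 - (y ^ 2)⁻¹ ≥ -(4 * (1 - y ^ 2)) := by
      have h6 : (y ^ 2)⁻¹ * (y ^ 2) = 1 := inv_mul_cancel₀ (by positivity)
      have h7 : (y ^ 2)⁻¹ ≤ 4 := by
        rw [inv_le_comm₀ (by positivity) (by norm_num)]
        nlinarith
      have h8 : 0 ≤ 1 - y ^ 2 := by nlinarith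
      have h9 : 1 - (y ^ 2)⁻¹ = -((y ^ 2)⁻¹ * (1 - y ^ 2)) := by
        rw [mul_sub, h6]
        ring
      rw [h9]
      have : (y ^ 2)⁻¹ * (1 - y ^ 2) ≤ 4 * (1 - y ^ 2) := by gcongr
      linarith
    linarith
  have h2 : Real.exp (-12) ≤ ‖fbl N s w‖ := by
    unfold fbl
    rw [norm_prod]
    calc Real.exp (-12) ≤ Real.exp (∑ i ∈ s, -(2 * (1 - ‖mob (zr N i) w‖ ^ 2))) := by
          rw [Real.exp_le_exp, Finset.sum_neg_distrib, ← Finset.mul_sum]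
          have h3 : ∑ i ∈ s, (1 - ‖mob (zr N i) w‖ ^ 2) ≤
              ∑ i ∈ Finset.range N, (1 - ‖mob (zr N i) w‖ ^ 2) :=
            Finset.sum_le_sum_of_subset_of_nonneg hs fun i _ _ => by
              have := norm_mob_le_one (zr_lt hN i) hw.le
              nlinarith [norm_nonneg (mob (zr N i) w)]
          have h4 := sum_bound hN hw
          linarith
      _ = ∏ i ∈ s, Real.exp (-(2 * (1 - ‖mob (zr N i) w‖ ^ 2))) := Real.exp_sum _ _
      _ ≤ ∏ i ∈ s, ‖mob (zr N i) w‖ :=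
          Finset.prod_le_prod (fun i _ => (Real.exp_pos _).le) h1
  linarith

end BlochMult
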