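import Pool.Agent.Bloch.ExistsG
import Pool.Agent.Bloch.FinBl

namespace BlochMult

open Complex Metric Set Filter Topology

/-- building blocks for the counterexample -/
structure IsBlock (R : ℝ) (F β : ℂ → ℂ) (e : ℂ) (A η : ℝ) : Prop where
  he : ‖e‖ = 1
  hF : Differentiable ℂ F
  hF1 : ∀ w : ℂ, ‖w‖ < 1 → ‖deriv F w‖ * (1 - ‖w‖) ≤ 1
  hA : 1 ≤ A
  hFA : ∀ z w : ℂ, ‖z‖ ≤ 1 → ‖w‖ ≤ 1 → ‖F z - F w‖ ≤ A * ‖z - w‖
  hFA' : ∀ w : ℂ, ‖w‖ ≤ 1 → ‖deriv F w‖ ≤ A
  hFe : ‖F e‖ ≤ 3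
  hF0 : R / 3 ≤ ‖F 0‖
  hβ : Fac β
  hβA : ∀ z w : ℂ, ‖z‖ ≤ 1 → ‖w‖ ≤ 1 → ‖β z - β w‖ ≤ A * ‖z - w‖
  hβ0 : ‖β 0‖ ≤ Real.exp (-(9 / 256))
  hη : 0 < η
  hβz : ∀ w : ℂ, ‖w‖ < 1 → ‖β w‖ < Real.exp (-12) → ‖F w‖ ≤ 3 ∧ η ≤ 1 - ‖w‖

lemma mob_half {p w : ℂ} (hp : ‖p‖ < 1) (hw : ‖w‖ < 1) (h : ‖mob p w‖ < 1 / 2) :
    (1 - ‖p‖) / 6 ≤ 1 - ‖w‖ ∧ ‖w - p‖ ≤ 2 * (1 - ‖p‖) := by
  set d := ‖1 - (starRingEnd ℂ) p * w‖ with hd
  have hd0 : 0 < d := den_pos hp hw.le
  have hdp : 1 - ‖p‖ ≤ d := den_ge_left hw.le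
  have h1 : ‖w - p‖ < d / 2 := by
    rw [norm_mob, div_lt_iff₀ hd0] at h
    linarith
  have hp0 := norm_nonneg p
  have hw0 := norm_nonneg w
  constructor
  · have h2 := one_sub_norm_mob_sq hp hw.le
    rw [← hd] at h2
    have h3 : 3 / 4 < 1 - ‖mob p w‖ ^ 2 := by nlinarith [norm_nonneg (mob p w)]
    rw [h2, lt_div_iff₀ (by positivity)] at h3
    have h4 : (1 - ‖p‖) ^ 2 ≤ d ^ 2 := by
      have : 0 ≤ 1 - ‖p‖ := by linarith
      gcongr
    have h5 : (1 - ‖p‖ ^ 2) * (1 - ‖w‖ ^ 2) ≤ (2 * (1 - ‖p‖)) * (2 * (1 - ‖w‖)) := by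
      apply mul_le_mul <;> nlinarith
    have h6 : 0 < 1 - ‖p‖ := by linarith
    have h7 : 3 / 4 * (1 - ‖p‖) ^ 2 < 4 * (1 - ‖p‖) * (1 - ‖w‖) := by nlinarith
    have h8 : 3 / 4 * (1 - ‖p‖) < 4 * (1 - ‖w‖) := by
      by_contra hcon
      push Not at hcon
      nlinarith
    linarith
  · have h2 : d ≤ (1 - ‖p‖ ^ 2) + ‖w - p‖ := by
      have e1 : 1 - (starRingEnd ℂ) p * w = ((1 - ‖p‖ ^ 2 : ℝ) : ℂ) +
          (starRingEnd ℂ) p * (p - w) := by
        have h3 : ((1 - ‖p‖ ^ 2 : ℝ) : ℂ) = 1 - (starRingEnd ℂ) p * p := by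
          push_cast
          rw [← Complex.ofReal_pow, ← Complex.normSq_eq_norm_sq, ← Complex.normSq_eq_conj_mul_self]
        rw [h3]
        ring
      rw [hd, e1]
      refine (norm_add_le _ _).trans ?_
      rw [Complex.norm_real, Real.norm_of_nonneg (by nlinarith), norm_mul, RCLike.norm_conj,
        norm_sub_rev p w]
      have : ‖p‖ * ‖w - p‖ ≤ 1 * ‖w - p‖ := by gcongr
      linarith
    nlinarith

lemma lip_of_diff {F : ℂ → ℂ} (hF : Differentiable ℂ F) : ∃ A : ℝ, 1 ≤ A ∧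
    (∀ w : ℂ, ‖w‖ ≤ 1 → ‖deriv F w‖ ≤ A) ∧
    ∀ z w : ℂ, ‖z‖ ≤ 1 → ‖w‖ ≤ 1 → ‖F z - F w‖ ≤ A * ‖z - w‖ := by
  obtain ⟨A, hA⟩ := (isCompact_closedBall (0:ℂ) 1).exists_bound_of_continuousOn
    (f := deriv F) hF.deriv.continuous.continuousOn
  refine ⟨max 1 A, le_max_left _ _, ?_, ?_⟩
  · intro w hw
    exact (hA w (by simpa using hw)).trans (le_max_right _ _)
  · intro z w hz hw
    exact (convex_closedBall (0:ℂ) 1).norm_image_sub_le_of_norm_deriv_le (f := F) (C := max 1 A)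
      (fun x _ => hF x) (fun x hx => (hA x hx).trans (le_max_right _ _)) (by simpa using hw)
      (by simpa using hz)

theorem exists_block {R : ℝ} (hR : 1 < R) : ∃ (F β : ℂ → ℂ) (e : ℂ) (A η : ℝ),
    IsBlock R F β e A η := by
  have hR0 : 0 < R := by linarith
  have hC0 := C0_pos
  set lam : ℝ := 2 * Real.log R with hlam
  have hlam0 : 0 < lam := by have := Real.log_pos hR; positivity
  have hexplam : Real.exp (lam * (1 / 2)) = R := by
    rw [hlam]
    have : 2 * Real.log R * (1 / 2) = Real.log R := by ring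
    rw [this, Real.exp_log hR0]
  set a : ℝ := 1 / (lam * (2 + 72 * C0) * (18 * R ^ 2)) with ha
  have ha0 : 0 < a := by positivity
  have hR2 : 1 ≤ 18 * R ^ 2 := by nlinarith
  have hlama : lam * a * (2 + 72 * C0) ≤ 1 := by
    have : lam * a * (2 + 72 * C0) = 1 / (18 * R ^ 2) := by
      rw [ha]
      field_simp
    rw [this, div_le_one (by positivity)]
    exact hR2
  have hlama1 : lam * a ≤ 1 := by
    have : 0 < lam * a := by positivity
    nlinarith
  have hlama2 : 18 * R ^ 2 * lam * C0 * a ≤ 1 := by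
    have : 18 * R ^ 2 * lam * C0 * a = C0 / (2 + 72 * C0) := by
      rw [ha]
      field_simp
    rw [this, div_le_one (by positivity)]
    linarith
  have he3 : Real.exp 1 ≤ 3 := by
    have := Real.exp_one_lt_d9
    norm_num at this ⊢
    linarith
  have he3' : 1 / 3 ≤ Real.exp (-1) := by
    have := Real.exp_neg_one_gt_d9
    norm_num at this ⊢
    linarith
  obtain ⟨G, J, hG, hJ, hG1, hG2, hG3, hG4⟩ := exists_G ha0
  obtain ⟨L, hL1, hL', hL⟩ := lip_of_diff hG
  set F : ℂ → ℂ := fun w => (R:ℂ) * Complex.exp (-(lam:ℂ) * G w) with hFdef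
  have hFd : Differentiable ℂ F := ((hG.const_mul _).cexp).const_mul _
  have hFn : ∀ w, ‖F w‖ = R * Real.exp (-lam * (G w).re) := by
    intro w
    simp only [hFdef]
    rw [norm_mul, Complex.norm_real, Real.norm_of_nonneg hR0.le, Complex.norm_exp]
    congr 2
    rw [← Complex.ofReal_neg, Complex.re_ofReal_mul]
  have hFder : ∀ w, deriv F w = F w * (-(lam:ℂ) * deriv G w) := by
    intro w
    have := (((hG w).hasDerivAt.const_mul (-(lam:ℂ))).cexp).const_mul (R:ℂ)
    rw [this.deriv]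
    simp only [hFdef]
    ring
  obtain ⟨A₁, hA₁1, hA₁', hA₁⟩ := lip_of_diff hFd
  obtain ⟨M, hM⟩ := exists_nat_gt (max ((3:ℝ) ^ J) (L / a))
  have hM1 : 3 ^ J < M := by
    have := (le_max_left _ _).trans_lt hM
    exact_mod_cast this
  have hM2 : L / a < M := (le_max_right _ _).trans_lt hM
  set N := 2 * M with hN
  have h3J : 0 < 3 ^ J := by positivity
  have hN0 : N ≠ 0 := by omega
  have hNpos : (0:ℝ) < N := by exact_mod_cast Nat.pos_of_ne_zero hN0
  set s := (Finset.range N).filter (fun i => Real.sqrt (J / 8) ≤ (lac J (rt N ^ i)).re) with hs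
  have hcount : (9:ℝ) / 256 * N ≤ s.card := grid_count hJ hM1
  have hsne : s.Nonempty := by
    rw [← Finset.card_pos]
    have : (0:ℝ) < s.card := lt_of_lt_of_le (by positivity) hcount
    exact_mod_cast this
  obtain ⟨i₀, hi₀⟩ := hsne
  have hre : ∀ i ∈ s, 1 / 2 - a ≤ (G (rt N ^ i)).re := by
    intro i hi
    rw [hs, Finset.mem_filter] at hi
    exact hG4 _ (by rw [norm_pow, rt_norm hN0, one_pow]) hi.2
  have hβlip := fun z w (hz : ‖z‖ ≤ 1) (hw : ‖w‖ ≤ 1) => fbl_lip hN0 s (z := z) (w := w) hz hw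
  refine ⟨F, fbl N s, rt N ^ i₀, max A₁ (s.card * (2 * N)), 1 / (6 * N), ?_⟩
  refine ⟨by rw [norm_pow, rt_norm hN0, one_pow], hFd, ?_, le_max_of_le_left hA₁1, ?_, ?_, ?_, ?_,
    fac_fbl hN0 s, ?_, ?_, by positivity, ?_⟩
  · intro w hw
    have hw0 : 0 < 1 - ‖w‖ := by linarith
    rw [hFder, norm_mul (F w), hFn, norm_mul (-(lam:ℂ)), norm_neg, Complex.norm_real,
      Real.norm_of_nonneg hlam0.le]
    have e1 := hG2 w hw
    have e2 : -lam * (G w).re ≤ lam * (1 / 2) + 1 := by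
      have e3 := (abs_le.mp (hG1 w hw.le)).1
      have e4 : lam * (-(1 / 2 + a)) ≤ lam * (G w).re := by gcongr
      linarith
    have e5 : Real.exp (-lam * (G w).re) ≤ R * 3 := by
      calc Real.exp (-lam * (G w).re) ≤ Real.exp (lam * (1 / 2) + 1) := Real.exp_le_exp.mpr e2
        _ = R * Real.exp 1 := by rw [Real.exp_add, hexplam]
        _ ≤ R * 3 := by gcongr
    calc R * Real.exp (-lam * (G w).re) * (lam * ‖deriv G w‖) * (1 - ‖w‖)
        = R * Real.exp (-lam * (G w).re) * lam * (‖deriv G w‖ * (1 - ‖w‖)) := by ring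
      _ ≤ R * (R * 3) * lam * (6 * C0 * a) := by gcongr
      _ = 18 * R ^ 2 * lam * C0 * a := by ring
      _ ≤ 1 := hlama2
  · intro z w hz hw
    refine (hA₁ z w hz hw).trans ?_
    gcongr
    exact le_max_left _ _
  · intro w hw
    exact (hA₁' w hw).trans (le_max_left _ _)
  · rw [hFn]
    have e1 := hre i₀ hi₀
    have e2 : -lam * (G (rt N ^ i₀)).re ≤ -(lam * (1 / 2)) + 1 := by
      have : lam * (1 / 2 - a) ≤ lam * (G (rt N ^ i₀)).re := by gcongr
      linarith
    calc R * Real.exp (-lam * (G (rt N ^ i₀)).re) ≤ R * Real.exp (-(lam * (1 / 2)) + 1) := by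
          gcongr
      _ = Real.exp 1 := by
          rw [Real.exp_add, Real.exp_neg, hexplam]
          field_simp
      _ ≤ 3 := he3
  · rw [hFn]
    have e1 := (abs_le.mp hG3).2
    have e2 : -1 ≤ -lam * (G 0).re := by
      have : lam * (G 0).re ≤ lam * a := by gcongr
      linarith
    calc R / 3 = R * (1 / 3) := by ring
      _ ≤ R * Real.exp (-lam * (G 0).re) := by
        gcongr
        exact he3'.trans (Real.exp_le_exp.mpr e2)
  · intro z w hz hw
    refine (hβlip z w hz hw).trans ?_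
    gcongr
    exact le_max_right _ _
  · refine (fbl_zero hN0 s).trans ?_
    rw [Real.exp_le_exp, neg_le_neg_iff, le_div_iff₀ hNpos]
    exact hcount
  · intro w hw hβ
    obtain ⟨i, hi, hmob⟩ := small_imp hN0 (Finset.filter_subset _ _) hw hβ
    set p := zr N i with hp
    have hp1 : ‖p‖ < 1 := zr_lt hN0 i
    have hpn : 1 - ‖p‖ = 1 / N := by rw [hp, zr_norm hN0]; ring
    obtain ⟨e1, e2⟩ := mob_half hp1 hw hmob
    constructor
    · -- G difference
      have hp0 : 0 < 1 - ‖p‖ := by linarith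
      have e3 : ‖G w - G p‖ ≤ (36 * C0 * a / (1 - ‖p‖)) * ‖w - p‖ := by
        refine (convex_closedBall (0:ℂ) (1 - (1 - ‖p‖) / 6)).norm_image_sub_le_of_norm_deriv_le
          (f := G) (fun x _ => hG x) ?_ ?_ ?_
        · intro x hx
          rw [mem_closedBall, dist_zero_right] at hx
          have hx1 : ‖x‖ < 1 := by linarith
          have e4 := hG2 x hx1
          have e5 : 0 < 1 - ‖x‖ := by linarith
          rw [← le_div_iff₀ e5] at e4
          refine e4.trans ?_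
          rw [div_le_div_iff₀ e5 hp0]
          have : (1 - ‖p‖) ≤ 6 * (1 - ‖x‖) := by linarith
          calc 6 * C0 * a * (1 - ‖p‖) ≤ 6 * C0 * a * (6 * (1 - ‖x‖)) := by gcongr
            _ = 36 * C0 * a * (1 - ‖x‖) := by ring
        · rw [mem_closedBall, dist_zero_right]
          linarith
        · rw [mem_closedBall, dist_zero_right]
          linarith
      have e4 : ‖G w - G p‖ ≤ 72 * C0 * a := by
        refine e3.trans ?_
        calc (36 * C0 * a / (1 - ‖p‖)) * ‖w - p‖ ≤ (36 * C0 * a / (1 - ‖p‖)) * (2 * (1 - ‖p‖)) := by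
              gcongr
          _ = 72 * C0 * a := by field_simp; ring
      have e5 : ‖G p - G (rt N ^ i)‖ ≤ a := by
        have e6 := hL p (rt N ^ i) hp1.le (by rw [norm_pow, rt_norm hN0, one_pow])
        have e7 : ‖p - rt N ^ i‖ = 1 / N := by
          have : p - rt N ^ i = ((-(1 / N) : ℝ) : ℂ) * rt N ^ i := by
            rw [hp]
            unfold zr
            push_cast
            ring
          rw [this, norm_mul, norm_pow, rt_norm hN0, one_pow, mul_one, Complex.norm_real, norm_neg,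
            Real.norm_of_nonneg (by positivity)]
        rw [e7] at e6
        refine e6.trans ?_
        rw [mul_one_div, div_le_iff₀ hNpos]
        rw [div_lt_iff₀ ha0] at hM2
        have : (N:ℝ) = 2 * M := by rw [hN]; push_cast; ring
        rw [this]
        nlinarith
      have e6 := hre i hi
      have e7 := (abs_le.mp ((Complex.abs_re_le_norm (G w - G p)).trans e4)).1
      have e8 := (abs_le.mp ((Complex.abs_re_le_norm (G p - G (rt N ^ i))).trans e5)).1
      rw [Complex.sub_re] at e7 e8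
      have e9 : 1 / 2 - (2 + 72 * C0) * a ≤ (G w).re := by linarith
      rw [hFn]
      have e10 : -lam * (G w).re ≤ -(lam * (1 / 2)) + 1 := by
        have : lam * (1 / 2 - (2 + 72 * C0) * a) ≤ lam * (G w).re := by gcongr
        linarith
      calc R * Real.exp (-lam * (G w).re) ≤ R * Real.exp (-(lam * (1 / 2)) + 1) := by
            gcongr
        _ = Real.exp 1 := by
            rw [Real.exp_add, Real.exp_neg, hexplam]
            field_simp
        _ ≤ 3 := he3
    · refine le_trans (le_of_eq ?_) e1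
      rw [hpn]
      field_simp

end BlochMult
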