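import Mathlib

namespace BlochMult

open Complex Metric Set Filter Topology MeasureTheory

/-- Continuity modulus: continuous, non-decreasing, positive on `(0,1)`. -/
def IsModulus (ω : ℝ → ℝ) : Prop :=
  ContinuousOn ω (Ioo 0 1) ∧ MonotoneOn ω (Ioo 0 1) ∧ ∀ t ∈ Ioo (0:ℝ) 1, 0 < ω t

/-- The space `B_ω`. -/
def MemB (ω : ℝ → ℝ) (f : ℂ → ℂ) : Prop :=
  DifferentiableOn ℂ f (ball 0 1) ∧ ∃ C : ℝ, ∃ r ∈ Ioo (0:ℝ) 1, ∀ z : ℂ, r < ‖z‖ → ‖z‖ < 1 →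
    ‖deriv f z‖ * (1 - ‖z‖) ≤ C * ω (1 - ‖z‖)

/-- Inner functions: bounded analytic in the disc, radial boundary values of modulus one
almost everywhere. -/
def IsInner (Θ : ℂ → ℂ) : Prop :=
  DifferentiableOn ℂ Θ (ball 0 1) ∧ (∃ C : ℝ, ∀ z ∈ ball (0:ℂ) 1, ‖Θ z‖ ≤ C) ∧
  ∀ᵐ θ : ℝ, ∃ w : ℂ, ‖w‖ = 1 ∧
    Tendsto (fun r : ℝ => Θ ((r : ℂ) * Complex.exp ((θ : ℂ) * I))) (𝓝[<] 1) (𝓝 w)

/-- `S_ε(f, Θ) < ∞`. -/
def SFin (ω : ℝ → ℝ) (f Θ : ℂ → ℂ) (ε : ℝ) : Prop :=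
  BddAbove ((fun z : ℂ => ‖f z‖ / ω (1 - ‖z‖)) '' {z : ℂ | z ≠ 0 ∧ ‖z‖ < 1 ∧ ‖Θ z‖ < ε})

/-- Property (P). -/
def PropP (ω : ℝ → ℝ) : Prop :=
  ∀ f : ℂ → ℂ, MemB ω f → ∀ Θ : ℂ → ℂ, IsInner Θ →
    (MemB ω (fun z => f z * Θ z) ↔ ∃ ε ∈ Ioo (0:ℝ) 1, SFin ω f Θ ε) ∧
    ((∃ ε ∈ Ioo (0:ℝ) 1, SFin ω f Θ ε) ↔ ∀ ε ∈ Ioo (0:ℝ) 1, SFin ω f Θ ε)

/-- Two-sided power-type regularity. -/
structure Reg (W : ℝ → ℝ) (c K α : ℝ) : Prop where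
  c_pos : 0 < c
  K_pos : 0 < K
  α_pos : 0 < α
  mono : ∀ s t, 0 < s → s ≤ t → W s ≤ W t
  pos : ∀ t, 0 < t → 0 < W t
  lower : ∀ s t, 0 < s → s ≤ t → c * (s / t) * W t ≤ W s
  upper : ∀ s t, 0 < s → s ≤ t → t ≤ 2 → W s ≤ K * (s / t) ^ α * W t

lemma radial_bound {W : ℝ → ℝ} {c K α : ℝ} (hW : Reg W c K α) {g g' : ℂ → ℂ} {A : ℝ} (hA : 0 ≤ A)
    {z : ℂ} {r₁ r₂ : ℝ} (h0 : 0 ≤ r₁) (h12 : r₁ ≤ r₂) (h2 : r₂ * ‖z‖ < 1)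
    (hg : ∀ r ∈ Icc r₁ r₂, HasDerivAt g (g' ((r:ℂ) * z)) ((r:ℂ) * z))
    (hb : ∀ r ∈ Icc r₁ r₂, ‖g' ((r:ℂ) * z)‖ ≤ A * W (1 - r * ‖z‖) / (1 - r * ‖z‖)) :
    ‖g ((r₂:ℂ) * z) - g ((r₁:ℂ) * z)‖ ≤ A * (K / α) * W (1 - r₁ * ‖z‖) := by
  have hα := hW.α_pos
  have hK := hW.K_pos
  set t : ℝ := 1 - r₁ * ‖z‖ with ht
  have hn := norm_nonneg z
  have ht0 : 0 < t := by
    have : r₁ * ‖z‖ ≤ r₂ * ‖z‖ := by gcongr
    linarith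
  have ht1 : t ≤ 1 := by have : 0 ≤ r₁ * ‖z‖ := by positivity
                         linarith
  have hWt := hW.pos t ht0
  have hu : ∀ r ∈ Icc r₁ r₂, 0 < 1 - r * ‖z‖ ∧ 1 - r * ‖z‖ ≤ t := by
    intro r hr
    have h1 : r * ‖z‖ ≤ r₂ * ‖z‖ := by gcongr; exact hr.2
    have h3 : r₁ * ‖z‖ ≤ r * ‖z‖ := by gcongr; exact hr.1
    constructor <;> linarith
  have hder : ∀ r ∈ Icc r₁ r₂, HasDerivAt (fun r : ℝ => g ((r:ℂ) * z) - g ((r₁:ℂ) * z))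
      (g' ((r:ℂ) * z) * z) r := by
    intro r hr
    have h1 : HasDerivAt (fun x : ℝ => (x : ℂ) * z) z r := by
      simpa using ((Complex.ofRealCLM.hasDerivAt (x := r)).mul_const z)
    have h2 := (hg r hr).comp_of_eq r h1 rfl
    exact (h2.sub_const _).congr_deriv (by ring)
  have hB : ∀ r ∈ Icc r₁ r₂, HasDerivAt
      (fun r : ℝ => A * (K / α) * W t * (1 - ((1 - r * ‖z‖) / t) ^ α))
      (A * (K / α) * W t * (α * ((1 - r * ‖z‖) / t) ^ (α - 1) * (‖z‖ / t))) r := by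
    intro r hr
    obtain ⟨hu0, hut⟩ := hu r hr
    have h1 : HasDerivAt (fun r : ℝ => (1 - r * ‖z‖) / t) (-(‖z‖ / t)) r := by
      have := (((hasDerivAt_id r).mul_const ‖z‖).const_sub 1).div_const t
      refine this.congr_deriv ?_
      ring
    have h3 : (1 - r * ‖z‖) / t ≠ 0 := by positivity
    have h4 := h1.rpow_const (p := α) (Or.inl h3)
    refine ((h4.const_sub 1).const_mul (A * (K / α) * W t)).congr_deriv ?_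
    ring
  have key := image_norm_le_of_norm_deriv_right_le_deriv_boundary'
    (f := fun r : ℝ => g ((r:ℂ) * z) - g ((r₁:ℂ) * z)) (f' := fun r : ℝ => g' ((r:ℂ) * z) * z)
    (a := r₁) (b := r₂)
    (fun r hr => (hder r hr).continuousAt.continuousWithinAt)
    (fun r hr => (hder r ⟨hr.1, hr.2.le⟩).hasDerivWithinAt)
    (B := fun r : ℝ => A * (K / α) * W t * (1 - ((1 - r * ‖z‖) / t) ^ α))
    (B' := fun r : ℝ => A * (K / α) * W t * (α * ((1 - r * ‖z‖) / t) ^ (α - 1) * (‖z‖ / t)))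
    (by
      simp only [sub_self, norm_zero]
      rw [← ht, div_self ht0.ne']
      simp)
    (fun r hr => (hB r hr).continuousAt.continuousWithinAt)
    (fun r hr => (hB r ⟨hr.1, hr.2.le⟩).hasDerivWithinAt)
    (by
      intro r hr
      have hr' : r ∈ Icc r₁ r₂ := ⟨hr.1, hr.2.le⟩
      obtain ⟨hu0, hut⟩ := hu r hr'
      have h1 := hb r hr'
      have h3 := hW.upper _ _ hu0 hut (by linarith)
      set u : ℝ := 1 - r * ‖z‖ with hudef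
      rw [norm_mul]
      calc ‖g' ((r:ℂ) * z)‖ * ‖z‖ ≤ (A * W u / u) * ‖z‖ := by gcongr
        _ ≤ (A * (K * (u / t) ^ α * W t) / u) * ‖z‖ := by gcongr
        _ = A * (K / α) * W t * (α * (u / t) ^ (α - 1) * (‖z‖ / t)) := by
          rw [Real.rpow_sub_one (by positivity)]
          field_simp)
  have := key (x := r₂) ⟨h12, le_rfl⟩
  refine this.trans ?_
  obtain ⟨hu0, hut⟩ := hu r₂ ⟨h12, le_rfl⟩
  have h5 : (0:ℝ) ≤ ((1 - r₂ * ‖z‖) / t) ^ α := by positivity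
  have h6 : 0 ≤ A * (K / α) * W t := by positivity
  nlinarith

end BlochMult
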