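import Pool.Agent.Bloch.Defs

namespace BlochMult

open Complex Metric Set Filter Topology MeasureTheory

lemma Reg.double {W : ℝ → ℝ} {c K α : ℝ} (hW : Reg W c K α) {T : ℝ} (hT : 0 < T) :
    W (2 * T) ≤ 2 / c * W T := by
  have h := hW.lower T (2 * T) hT (by linarith)
  have hc := hW.c_pos
  rw [div_mul_eq_mul_div, le_div_iff₀ hc]
  have : T / (2 * T) = 1 / 2 := by field_simp
  rw [this] at h
  linarith

lemma diff_bound {W : ℝ → ℝ} {c K α : ℝ} (hW : Reg W c K α) {f : ℂ → ℂ} {A : ℝ} (hA : 0 ≤ A)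
    (hf : DifferentiableOn ℂ f (ball 0 1))
    (hb : ∀ z : ℂ, ‖z‖ < 1 → ‖deriv f z‖ ≤ A * W (1 - ‖z‖) / (1 - ‖z‖))
    {z w : ℂ} (hz : ‖z‖ < 1) (hw : ‖w‖ < 1) {T : ℝ} (hT : 0 < T) (hzT : 1 - ‖z‖ ≤ T)
    (hwT : 1 - ‖w‖ ≤ T) (hzw : ‖z - w‖ ≤ T) :
    ‖f z - f w‖ ≤ (4 * A * K / (α * c) + A / c) * W T := by
  have hα := hW.α_pos
  have hK := hW.K_pos
  have hc := hW.c_pos
  have hWT := hW.pos T hT
  have hder : ∀ z : ℂ, ‖z‖ < 1 → HasDerivAt f (deriv f z) z := by
    intro z hz
    exact (hf.differentiableAt (isOpen_ball.mem_nhds (by simpa using hz))).hasDerivAt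
  set T' := min T 1 with hT'
  have hT'0 : 0 < T' := lt_min hT one_pos
  have hT'1 : T' ≤ 1 := min_le_right _ _
  have hT'T : T' ≤ T := min_le_left _ _
  have hrad : ∀ x : ℂ, ‖x‖ < 1 → 1 - ‖x‖ ≤ T →
      ‖f x - f (((1 - T' : ℝ) : ℂ) * x)‖ ≤ 2 * A * K / (α * c) * W T := by
    intro x hx hxT
    have h1 := radial_bound hW (g := f) (g' := deriv f) hA (z := x) (r₁ := 1 - T') (r₂ := 1)
      (by linarith) (by linarith) (by linarith)
      (by
        intro r hr
        apply hder
        rw [norm_mul, Complex.norm_real, Real.norm_eq_abs, abs_of_nonneg (by linarith [hr.1])]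
        have : r * ‖x‖ ≤ 1 * ‖x‖ := by gcongr; exact hr.2
        linarith)
      (by
        intro r hr
        have h0 : 0 ≤ r := by linarith [hr.1]
        have h2 : ‖(r:ℂ) * x‖ = r * ‖x‖ := by
          rw [norm_mul, Complex.norm_real, Real.norm_eq_abs, abs_of_nonneg h0]
        have h3 := hb ((r:ℂ) * x) (by
          rw [h2]
          have : r * ‖x‖ ≤ 1 * ‖x‖ := by gcongr; exact hr.2
          linarith)
        rwa [h2] at h3)
    simp only [Complex.ofReal_one, one_mul] at h1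
    refine h1.trans ?_
    have h4 : 1 - (1 - T') * ‖x‖ ≤ 2 * T := by
      have : T' * ‖x‖ ≤ T' * 1 := by gcongr
      nlinarith
    have h5 : 0 < 1 - (1 - T') * ‖x‖ := by
      have : (1 - T') * ‖x‖ ≤ 1 * ‖x‖ := by gcongr; linarith
      linarith
    have h6 := hW.mono _ _ h5 h4
    have h7 := hW.double hT
    calc A * (K / α) * W (1 - (1 - T') * ‖x‖) ≤ A * (K / α) * (2 / c * W T) := by
          gcongr; exact h6.trans h7
      _ = 2 * A * K / (α * c) * W T := by field_simp
  have hz1 := hrad z hz hzT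
  have hw1 := hrad w hw hwT
  have hmid : ‖f (((1 - T' : ℝ) : ℂ) * z) - f (((1 - T' : ℝ) : ℂ) * w)‖ ≤ A / c * W T := by
    rcases le_or_gt 1 T with h1T | h1T
    · have : T' = 1 := min_eq_right h1T
      rw [this]
      simp
      positivity
    · have hTT : T' = T := min_eq_left h1T.le
      rw [hTT]
      have hmem : ∀ x : ℂ, ‖x‖ < 1 → ((1 - T : ℝ) : ℂ) * x ∈ closedBall (0:ℂ) (1 - T) := by
        intro x hx
        rw [mem_closedBall, dist_zero_right, norm_mul, Complex.norm_real, Real.norm_eq_abs,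
          abs_of_nonneg (by linarith)]
        have : (1 - T) * ‖x‖ ≤ (1 - T) * 1 := by gcongr
        linarith
      have hbd : ∀ x ∈ closedBall (0:ℂ) (1 - T), ‖deriv f x‖ ≤ A * (W T / (c * T)) := by
        intro x hx
        rw [mem_closedBall, dist_zero_right] at hx
        have hx1 : ‖x‖ < 1 := by linarith
        refine (hb x hx1).trans ?_
        rw [mul_div_assoc]
        refine mul_le_mul_of_nonneg_left ?_ hA
        have hu : 0 < 1 - ‖x‖ := by linarith
        have h8 := hW.lower T (1 - ‖x‖) hT (by linarith)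
        rw [div_le_div_iff₀ hu (by positivity)]
        have h9 : c * (T / (1 - ‖x‖)) * W (1 - ‖x‖) * (1 - ‖x‖) = W (1 - ‖x‖) * (c * T) := by
          field_simp
        rw [← h9]
        gcongr
      have h10 := (convex_closedBall (0:ℂ) (1 - T)).norm_image_sub_le_of_norm_deriv_le
        (f := f) (C := A * (W T / (c * T)))
        (fun x hx => (hder x (by rw [mem_closedBall, dist_zero_right] at hx; linarith)).differentiableAt)
        hbd (hmem w hw) (hmem z hz)
      refine h10.trans ?_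
      have h11 : ‖((1 - T : ℝ) : ℂ) * z - ((1 - T : ℝ) : ℂ) * w‖ ≤ T := by
        rw [← mul_sub, norm_mul, Complex.norm_real, Real.norm_eq_abs,
          abs_of_nonneg (by linarith)]
        have : (1 - T) * ‖z - w‖ ≤ 1 * T := by
          apply mul_le_mul (by linarith) hzw (norm_nonneg _) zero_le_one
        linarith
      calc A * (W T / (c * T)) * ‖((1 - T : ℝ) : ℂ) * z - ((1 - T : ℝ) : ℂ) * w‖
          ≤ A * (W T / (c * T)) * T := by gcongr
        _ = A / c * W T := by field_simp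
  have htri : ‖f z - f w‖ ≤ ‖f z - f (((1 - T' : ℝ) : ℂ) * z)‖ +
      ‖f (((1 - T' : ℝ) : ℂ) * z) - f (((1 - T' : ℝ) : ℂ) * w)‖ +
      ‖f w - f (((1 - T' : ℝ) : ℂ) * w)‖ := by
    have : f z - f w = (f z - f (((1 - T' : ℝ) : ℂ) * z)) +
      (f (((1 - T' : ℝ) : ℂ) * z) - f (((1 - T' : ℝ) : ℂ) * w)) -
      (f w - f (((1 - T' : ℝ) : ℂ) * w)) := by ring
    rw [this]
    refine (norm_sub_le _ _).trans ?_
    gcongr
    exact norm_add_le _ _
  calc ‖f z - f w‖ ≤ 2 * A * K / (α * c) * W T + A / c * W T + 2 * A * K / (α * c) * W T := by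
        linarith
    _ = (4 * A * K / (α * c) + A / c) * W T := by ring

end BlochMult
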