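import Mathlib

namespace BlochMult

open Complex Metric Set Filter Topology

theorem weier {b : ℂ → ℝ} (hb : Continuous b) {a : ℝ} (ha : 0 < a) :
    ∃ G : ℂ → ℂ, Differentiable ℂ G ∧ ∀ z : ℂ, ‖z‖ = 1 → |(G z).re - b z| ≤ a := by
  classical
  set bh : C(UnitAddCircle, ℂ) := ⟨fun x => ((b (AddCircle.toCircle x : ℂ) : ℝ) : ℂ), by
    have h1 : Continuous (fun x : UnitAddCircle => (AddCircle.toCircle x : ℂ)) :=
      continuous_subtype_val.comp AddCircle.continuous_toCircle
    exact Complex.continuous_ofReal.comp (hb.comp h1)⟩ with hbh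
  have h1 : bh ∈ (Submodule.span ℂ (Set.range (@fourier 1))).topologicalClosure := by
    rw [span_fourier_closure_eq_top]
    exact Submodule.mem_top
  have h2 : bh ∈ closure ((Submodule.span ℂ (Set.range (@fourier 1)) : Submodule ℂ C(UnitAddCircle, ℂ)) :
      Set C(UnitAddCircle, ℂ)) := h1
  obtain ⟨q, hq, hqd⟩ := Metric.mem_closure_iff.mp h2 a ha
  rw [SetLike.mem_coe, Finsupp.mem_span_range_iff_exists_finsupp] at hq
  obtain ⟨c, hc⟩ := hq
  refine ⟨fun z => ∑ n ∈ c.support, (if 0 ≤ n then c n * z ^ n.toNat else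
    (starRingEnd ℂ) (c n) * z ^ (-n).toNat), ?_, ?_⟩
  · apply Differentiable.fun_sum
    intro n _
    split_ifs
    · fun_prop
    · fun_prop
  · intro z hz
    -- find x
    set x : UnitAddCircle := ((Complex.arg z / (2 * Real.pi) : ℝ) : UnitAddCircle) with hx
    have hxz : (AddCircle.toCircle x : ℂ) = z := by
      rw [hx, AddCircle.toCircle_apply_mk, Circle.coe_exp]
      have h3 : (2 * Real.pi / 1 * (Complex.arg z / (2 * Real.pi)) : ℝ) = Complex.arg z := by
        have := Real.pi_pos
        field_simp
      rw [h3]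
      have := Complex.norm_mul_exp_arg_mul_I z
      rwa [hz, Complex.ofReal_one, one_mul] at this
    have hqx : q x = ∑ n ∈ c.support, c n * z ^ n := by
      rw [← hc, Finsupp.sum]
      rw [ContinuousMap.coe_sum, Finset.sum_apply]
      refine Finset.sum_congr rfl fun n _ => ?_
      rw [ContinuousMap.coe_smul, Pi.smul_apply, smul_eq_mul, fourier_apply,
        AddCircle.toCircle_zsmul, Circle.coe_zpow, hxz]
    have hre : (∑ n ∈ c.support, (if 0 ≤ n then c n * z ^ n.toNat else
        (starRingEnd ℂ) (c n) * z ^ (-n).toNat)).re = (q x).re := by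
      rw [hqx, Complex.re_sum, Complex.re_sum]
      refine Finset.sum_congr rfl fun n _ => ?_
      split_ifs with hn
      · obtain ⟨m, rfl⟩ := Int.eq_ofNat_of_zero_le hn
        simp
      · push Not at hn
        obtain ⟨m, hm⟩ := Int.eq_ofNat_of_zero_le (show 0 ≤ -n by omega)
        have hnm : n = -(m:ℤ) := by omega
        subst hnm
        rw [neg_neg, Int.toNat_natCast, zpow_neg, zpow_natCast]
        have h4 : (z ^ m)⁻¹ = (starRingEnd ℂ) (z ^ m) := by
          apply inv_eq_of_mul_eq_one_right
          rw [Complex.mul_conj, Complex.normSq_eq_norm_sq, norm_pow, hz]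
          simp
        rw [h4, Complex.mul_re, Complex.mul_re, Complex.conj_re, Complex.conj_im, Complex.conj_re,
          Complex.conj_im]
        ring
    simp only
    rw [hre]
    have h5 : ‖bh x - q x‖ ≤ a := by
      have := ContinuousMap.dist_apply_le_dist (f := bh) (g := q) x
      rw [dist_eq_norm] at this
      exact this.trans hqd.le
    have h6 := (Complex.abs_re_le_norm (bh x - q x)).trans h5
    have h7 : (bh x).re = b z := by
      rw [hbh]
      simp only [ContinuousMap.coe_mk, Complex.ofReal_re]
      rw [hxz]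
    rw [Complex.sub_re, h7, abs_sub_comm] at h6
    exact h6

end BlochMult
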