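import Pool.Agent.Bloch.GridCount
import Pool.Agent.Bloch.Weier
import Pool.Agent.Bloch.BlochBound

namespace BlochMult

open Complex Metric Set Filter Topology

/-- clamp -/
noncomputable def clamp (x : ℝ) : ℝ := max (min x (1/2)) (-(1/2))

lemma clamp_cont : Continuous clamp := by unfold clamp; fun_prop

lemma clamp_abs (x : ℝ) : |clamp x| ≤ 1 / 2 := by
  unfold clamp
  rw [abs_le]
  constructor
  · exact le_max_right _ _
  · exact max_le (min_le_right _ _) (by norm_num)

lemma clamp_lip (x y : ℝ) : |clamp x - clamp y| ≤ |x - y| := by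
  unfold clamp
  refine (abs_max_sub_max_le_abs _ _ _).trans ?_
  refine (abs_min_sub_min_le_max _ _ _ _).trans ?_
  simp

lemma clamp_neg (x : ℝ) : clamp (-x) = - clamp x := by
  unfold clamp
  rcases le_total x (1/2) with h | h <;> rcases le_total x (-(1/2)) with h' | h'
  · rw [min_eq_right (by linarith), max_eq_left (by linarith), min_eq_left h, max_eq_right h']; ring
  · rw [min_eq_left (by linarith), max_eq_left (by linarith), min_eq_left h, max_eq_left h']
  · linarith
  · rw [min_eq_left (by linarith), max_eq_right (by linarith), min_eq_right h, max_eq_left (by norm_num)]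

lemma clamp_of_ge {x : ℝ} (h : 1 / 2 ≤ x) : clamp x = 1 / 2 := by
  unfold clamp
  rw [min_eq_right h, max_eq_left (by norm_num)]

lemma lac_cont (J : ℕ) : Continuous (lac J) := by
  unfold lac
  fun_prop

lemma lac_shift (J m : ℕ) {z : ℂ} (hz : ‖z‖ = 1) :
    ‖lac J (Complex.exp (((2 * Real.pi / 3 ^ m : ℝ) : ℂ) * I) * z) - lac J z‖ ≤ Real.pi := by
  set u := Complex.exp (((2 * Real.pi / 3 ^ m : ℝ) : ℂ) * I) with hu
  have hpi := Real.pi_pos
  have h1 : lac J (u * z) - lac J z = ∑ j ∈ Finset.range J, (u ^ (3 ^ j) - 1) * z ^ (3 ^ j) := by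
    unfold lac
    rw [← Finset.sum_sub_distrib]
    refine Finset.sum_congr rfl fun j _ => ?_
    rw [mul_pow]
    ring
  have h2 : ∀ j, ‖u ^ (3 ^ j) - 1‖ ≤ if j < m then 2 * Real.pi * 3 ^ j / 3 ^ m else 0 := by
    intro j
    have h3 : u ^ (3 ^ j) = Complex.exp (I * ((2 * Real.pi * 3 ^ j / 3 ^ m : ℝ) : ℂ)) := by
      rw [hu, ← Complex.exp_nat_mul]
      congr 1
      push_cast
      ring
    split_ifs with hj
    · rw [h3]
      refine Real.norm_exp_I_mul_ofReal_sub_one_le.trans ?_
      rw [Real.norm_of_nonneg (by positivity)]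
    · push Not at hj
      obtain ⟨k, rfl⟩ := Nat.exists_eq_add_of_le hj
      have h4 : (2 * Real.pi * 3 ^ (m + k) / 3 ^ m : ℝ) = (3 ^ k : ℕ) * (2 * Real.pi) := by
        rw [pow_add]
        push_cast
        field_simp
      have h5 : u ^ (3 ^ (m + k)) = 1 := by
        rw [h3, h4, Complex.exp_eq_one_iff]
        exact ⟨(3 ^ k : ℕ), by push_cast; ring⟩
      rw [h5, sub_self, norm_zero]
  have hsum : ∀ J, ∑ j ∈ Finset.range J, (if j < m then 2 * Real.pi * 3 ^ j / 3 ^ m else 0) ≤
      Real.pi * (3 ^ (min J m) - 1) / 3 ^ m := by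
    intro J
    induction J with
    | zero => simp
    | succ J ih =>
      rw [Finset.sum_range_succ]
      split_ifs with hj
      · rw [min_eq_left hj.le] at ih
        rw [min_eq_left (by omega : J + 1 ≤ m)]
        have : Real.pi * (3 ^ (J + 1) - 1) / 3 ^ m = Real.pi * (3 ^ J - 1) / 3 ^ m +
          2 * Real.pi * 3 ^ J / 3 ^ m := by rw [pow_succ]; ring
        rw [this]
        linarith
      · push Not at hj
        rw [min_eq_right hj] at ih
        rw [min_eq_right (by omega : m ≤ J + 1)]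
        linarith
  rw [h1]
  calc ‖∑ j ∈ Finset.range J, (u ^ (3 ^ j) - 1) * z ^ (3 ^ j)‖
      ≤ ∑ j ∈ Finset.range J, ‖(u ^ (3 ^ j) - 1) * z ^ (3 ^ j)‖ := norm_sum_le _ _
    _ ≤ ∑ j ∈ Finset.range J, (if j < m then 2 * Real.pi * 3 ^ j / 3 ^ m else 0) := by
        refine Finset.sum_le_sum fun j _ => ?_
        rw [norm_mul, norm_pow, hz, one_pow, mul_one]
        exact h2 j
    _ ≤ Real.pi * (3 ^ (min J m) - 1) / 3 ^ m := hsum J
    _ ≤ Real.pi := by
        rw [div_le_iff₀ (by positivity)]
        have : (3:ℝ) ^ (min J m) ≤ 3 ^ m := pow_le_pow_right₀ (by norm_num) (min_le_right _ _)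
        nlinarith

theorem exists_G {a : ℝ} (ha : 0 < a) :
    ∃ (G : ℂ → ℂ) (J : ℕ), Differentiable ℂ G ∧ 0 < J ∧
      (∀ w : ℂ, ‖w‖ ≤ 1 → |(G w).re| ≤ 1 / 2 + a) ∧
      (∀ w : ℂ, ‖w‖ < 1 → ‖deriv G w‖ * (1 - ‖w‖) ≤ 6 * C0 * a) ∧
      |(G 0).re| ≤ a ∧
      (∀ z : ℂ, ‖z‖ = 1 → Real.sqrt (J / 8) ≤ (lac J z).re → 1 / 2 - a ≤ (G z).re) := by
  obtain ⟨J, hJ⟩ := exists_nat_ge (2 / a ^ 2 + 1)
  have hJ0 : 0 < J := by
    have : (0:ℝ) < J := lt_of_lt_of_le (by positivity) hJ
    exact_mod_cast this
  have hJa : 2 / a ^ 2 ≤ J := by linarith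
  obtain ⟨G, hG, hGb⟩ := weier (b := fun z => clamp (a * (lac J z).re))
    (clamp_cont.comp (continuous_const.mul (Complex.continuous_re.comp (lac_cont J)))) ha
  refine ⟨G, J, hG, hJ0, ?_, ?_, ?_, ?_⟩
  · intro w hw
    refine abs_re_le_of_sphere hG ?_ hw
    intro z hz
    have h1 := hGb z hz
    have h2 := clamp_abs (a * (lac J z).re)
    have h3 : (G z).re = ((G z).re - clamp (a * (lac J z).re)) + clamp (a * (lac J z).re) := by ring
    rw [h3]
    refine (abs_add_le _ _).trans ?_
    linarith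
  · intro w hw
    have h := bloch_bound hG (κ := 6 * a) (by positivity) (by
      intro m z hz
      set u := Complex.exp (((2 * Real.pi / 3 ^ m : ℝ) : ℂ) * I) with hu
      have hu1 : ‖u‖ = 1 := Complex.norm_exp_ofReal_mul_I _
      have h1 := hGb z hz
      have h2 := hGb (u * z) (by rw [norm_mul, hu1, hz, one_mul])
      have h3 := lac_shift J m hz
      rw [← hu] at h3
      have h4 : |clamp (a * (lac J (u * z)).re) - clamp (a * (lac J z).re)| ≤ a * Real.pi := by
        refine (clamp_lip _ _).trans ?_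
        rw [← mul_sub, abs_mul, abs_of_pos ha, ← Complex.sub_re]
        gcongr
        exact (Complex.abs_re_le_norm _).trans h3
      have h5 : (G (u * z) - G z).re = ((G (u * z)).re - clamp (a * (lac J (u * z)).re)) +
          (clamp (a * (lac J (u * z)).re) - clamp (a * (lac J z).re)) -
          ((G z).re - clamp (a * (lac J z).re)) := by
        rw [Complex.sub_re]; ring
      rw [h5]
      refine (abs_sub _ _).trans ?_
      have h6 := abs_add_le ((G (u * z)).re - clamp (a * (lac J (u * z)).re))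
          (clamp (a * (lac J (u * z)).re) - clamp (a * (lac J z).re))
      have h7 : a * Real.pi ≤ a * 4 := by gcongr; exact Real.pi_le_four
      linarith) hw
    linarith
  · have h1 : Differentiable ℂ (fun z => (G z + G (-z)) / 2) :=
      (hG.add (hG.comp differentiable_neg)).div_const 2
    have h2 := abs_re_le_of_sphere h1 (κ := a) (by
      intro z hz
      have h1 := hGb z hz
      have h2 := hGb (-z) (by rw [norm_neg]; exact hz)
      rw [lac_neg, Complex.neg_re, mul_neg, clamp_neg] at h2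
      have h3 : ((G z + G (-z)) / 2).re = (((G z).re - clamp (a * (lac J z).re)) +
        ((G (-z)).re - -clamp (a * (lac J z).re))) / 2 := by
        have : ((2:ℝ):ℂ) = 2 := by norm_num
        rw [← this, Complex.div_ofReal_re, Complex.add_re]
        ring
      rw [h3, abs_div, abs_of_pos (show (0:ℝ) < 2 by norm_num)]
      have h4 := abs_add_le ((G z).re - clamp (a * (lac J z).re))
        ((G (-z)).re - -clamp (a * (lac J z).re))
      linarith) (z := 0) (by simp)
    simp only [neg_zero, add_self_div_two] at h2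
    exact h2
  · intro z hz hlac
    have h1 := hGb z hz
    have h2 : 1 / 2 ≤ a * (lac J z).re := by
      have h3 : 1 / (2 * a) ≤ Real.sqrt (J / 8) := by
        apply Real.le_sqrt_of_sq_le
        rw [div_pow, mul_pow]
        rw [div_le_iff₀ (by positivity)] at hJa ⊢
        linarith
      calc (1:ℝ) / 2 = a * (1 / (2 * a)) := by field_simp
        _ ≤ a * (lac J z).re := by gcongr; exact h3.trans hlac
    rw [clamp_of_ge h2] at h1
    linarith [(abs_le.mp h1).1]

end BlochMult
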