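import Pool.Agent.Bloch.Glue3

namespace BlochMult

open Complex Metric Set Filter Topology MeasureTheory

lemma seq_exists {S : Type*} (good : S → Prop) (rel : ℕ → S → S → Prop) (s₀ : S) (h₀ : good s₀)
    (h : ∀ k s, good s → ∃ s', good s' ∧ rel k s s') :
    ∃ u : ℕ → S, u 0 = s₀ ∧ (∀ k, good (u k)) ∧ ∀ k, rel k (u k) (u (k + 1)) := by
  classical
  choose! nxt hn using h
  set u : ℕ → S := fun n => Nat.rec s₀ (fun k s => nxt k s) n with hu
  have hgood : ∀ k, good (u k) := by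
    intro k
    induction k with
    | zero => exact h₀
    | succ k ih => exact (hn k (u k) ih).1
  exact ⟨u, rfl, hgood, fun k => (hn k (u k) (hgood k)).2⟩

lemma plateau {ω : ℝ → ℝ} (hω : IsModulus ω) {t₀ : ℝ} (ht0 : 0 < t₀) (ht1 : t₀ < 1)
    (hcon : ¬ ∃ C α t₁ : ℝ, 0 < α ∧ 0 < t₁ ∧ t₁ ≤ t₀ ∧
      ∀ s t, 0 < s → s ≤ t → t ≤ t₁ → ω s / ω t ≤ C * (s / t) ^ α)
    {l d : ℝ} (hl0 : 0 < l) (hl1 : l < 1) (hd : 0 < d) :
    ∃ δ, 0 < δ ∧ δ ≤ d ∧ δ ≤ t₀ ∧ ω δ / 2 ≤ ω (l * δ) := by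
  by_contra hno
  push Not at hno
  apply hcon
  have hlog : 0 < Real.log (1 / l) := Real.log_pos (by rw [lt_div_iff₀ hl0]; linarith)
  set α := Real.log 2 / Real.log (1 / l) with hα
  have hα0 : 0 < α := by
    have := Real.log_pos (show (1:ℝ) < 2 by norm_num)
    positivity
  have hlα : l ^ α = 1 / 2 := by
    have h1 : Real.log l = -Real.log (1 / l) := by rw [one_div, Real.log_inv]; ring
    rw [Real.rpow_def_of_pos hl0, h1, hα]
    have h2 : -Real.log (1 / l) * (Real.log 2 / Real.log (1 / l)) = -Real.log 2 := by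
      field_simp
    rw [h2, Real.exp_neg, Real.exp_log (by norm_num)]
    norm_num
  refine ⟨2, α, min d t₀, hα0, lt_min hd ht0, min_le_right _ _, ?_⟩
  intro s t hs hst ht
  have htpos : 0 < t := hs.trans_le hst
  have htd : t ≤ d := ht.trans (min_le_left _ _)
  have htt : t ≤ t₀ := ht.trans (min_le_right _ _)
  have hωt := hω.2.2 t ⟨htpos, htt.trans_lt ht1⟩
  have hiter : ∀ n : ℕ, 0 < l ^ n * t ∧ l ^ n * t ≤ t ∧ ω (l ^ n * t) ≤ (1 / 2) ^ n * ω t := by
    intro n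
    induction n with
    | zero => simp [htpos]
    | succ n ih =>
      obtain ⟨h1, h2, h3⟩ := ih
      have h4 : l ^ (n + 1) * t = l * (l ^ n * t) := by rw [pow_succ]; ring
      rw [h4]
      refine ⟨by positivity, ?_, ?_⟩
      · nlinarith
      · have h5 := hno (l ^ n * t) h1 (h2.trans htd) (h2.trans htt)
        have h6 : ((1:ℝ) / 2) ^ (n + 1) * ω t = ((1 / 2) ^ n * ω t) / 2 := by rw [pow_succ]; ring
        rw [h6]
        linarith
  have hex : ∃ n : ℕ, l ^ (n + 1) * t < s := by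
    have h1 : Tendsto (fun n : ℕ => l ^ (n + 1) * t) atTop (𝓝 (0 * t)) := by
      refine Tendsto.mul_const t ?_
      exact (tendsto_add_atTop_iff_nat 1).2 (tendsto_pow_atTop_nhds_zero_of_lt_one hl0.le hl1)
    rw [zero_mul] at h1
    exact (h1.eventually_lt_const hs).exists
  classical
  obtain ⟨n, hn, hmin⟩ : ∃ n, l ^ (n + 1) * t < s ∧ ∀ k < n, ¬ l ^ (k + 1) * t < s :=
    ⟨Nat.find hex, Nat.find_spec hex, fun k hk => Nat.find_min hex hk⟩
  have hsn : s ≤ l ^ n * t := by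
    rcases n with _ | n
    · simpa using hst
    · exact not_lt.mp (hmin n (Nat.lt_succ_self n))
  obtain ⟨h1, h2, h3⟩ := hiter n
  have h4 : ω s ≤ ω (l ^ n * t) :=
    hω.2.1 ⟨hs, by linarith⟩ ⟨h1, by linarith⟩ hsn
  have h5 : (1 / 2 : ℝ) ^ (n + 1) ≤ (s / t) ^ α := by
    have h6 : l ^ (n + 1) ≤ s / t := by
      rw [le_div_iff₀ htpos]
      exact hn.le
    calc (1 / 2 : ℝ) ^ (n + 1) = (l ^ α) ^ (n + 1) := by rw [hlα]
      _ = (l ^ (n + 1)) ^ α := by
        rw [← Real.rpow_natCast, ← Real.rpow_mul hl0.le, mul_comm, Real.rpow_mul hl0.le,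
          Real.rpow_natCast]
      _ ≤ (s / t) ^ α := by gcongr
  rw [div_le_iff₀ hωt]
  calc ω s ≤ (1 / 2) ^ n * ω t := h4.trans h3
    _ = 2 * (1 / 2) ^ (n + 1) * ω t := by rw [pow_succ]; ring
    _ ≤ 2 * (s / t) ^ α * ω t := by gcongr

theorem nec_upper {ω : ℝ → ℝ} (hω : IsModulus ω) {c t₀ : ℝ} (hc : 0 < c) (ht0 : 0 < t₀)
    (ht1 : t₀ < 1) (hlow : ∀ s t, 0 < s → s ≤ t → t ≤ t₀ → c * (s / t) ≤ ω s / ω t)
    (hprop : PropP ω) : ∃ C α t₁ : ℝ, 0 < α ∧ 0 < t₁ ∧ t₁ ≤ t₀ ∧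
      ∀ s t, 0 < s → s ≤ t → t ≤ t₁ → ω s / ω t ≤ C * (s / t) ^ α := by
  by_contra hcon
  have hplat := fun {l d : ℝ} (hl0 : 0 < l) (hl1 : l < 1) (hd : 0 < d) =>
    plateau hω ht0 ht1 hcon hl0 hl1 hd
  have hωt0 := hω.2.2 t₀ ⟨ht0, ht1⟩
  have hc1 : c ≤ 1 := by
    have h1 := hlow t₀ t₀ ht0 le_rfl le_rfl
    rw [div_self hωt0.ne', div_self ht0.ne', mul_one] at h1
    exact h1
  set c' := c * ω t₀ / t₀ with hc'
  have hc'0 : 0 < c' := by positivity
  have hlin : ∀ t, 0 < t → t ≤ t₀ → c' * t ≤ ω t := by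
    intro t ht htt
    have h1 := hlow t t₀ ht htt le_rfl
    rw [le_div_iff₀ hωt0] at h1
    calc c' * t = c * (t / t₀) * ω t₀ := by rw [hc']; ring
      _ ≤ ω t := h1
  have hblocks : ∀ k : ℕ, ∃ (F β : ℂ → ℂ) (e : ℂ) (A η : ℝ), IsBlock ((k:ℝ) + 2) F β e A η := by
    intro k
    apply exists_block
    have : (0:ℝ) ≤ k := Nat.cast_nonneg k
    linarith
  choose F β e A η hblk using hblocks
  have hA : ∀ k, 0 < A k := fun k => by linarith [(hblk k).hA]
  have hm : ∀ k, 0 < min (η k) 1 := fun k => lt_min (hblk k).hη one_pos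
  obtain ⟨u, hu0, hgood, hrel⟩ := seq_exists (S := ℝ × ℝ × ℝ)
    (fun s => 0 < s.2.1 ∧ 0 < s.2.2 ∧ s.2.1 ≤ s.1)
    (fun k s s' => 0 < s'.1 ∧ s'.1 ≤ t₀ ∧ s'.1 ≤ s.2.1 / 4 ∧ s'.2.1 ≤ s.2.2 * s'.1 ∧
      s'.2.2 ≤ s.2.2 ∧
      s'.2.2 ≤ (1 / 2) ^ k * c' * (2 / 5) * s'.2.1 / (ω s'.1 * A k) ∧
      ω s'.1 / 2 ≤ ω ((c * (1 / 2) ^ (k + 8) * s'.2.1 ^ 2 / (A k * s'.1)) * min (η k) 1 / (4 * A k)))
    (1, 1, 1) ⟨one_pos, one_pos, le_rfl⟩ (by
      rintro k ⟨δ', D', κ'⟩ ⟨hD', hκ', -⟩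
      simp only at hD' hκ' ⊢
      set ck := min κ' 1 with hck
      have hck0 : 0 < ck := lt_min hκ' one_pos
      have hck1 : ck ≤ 1 := min_le_right _ _
      have hAk := hA k
      have hAk1 := (hblk k).hA
      have hmk := hm k
      have hmk1 : min (η k) 1 ≤ 1 := min_le_right _ _
      set l := c * (1 / 2) ^ (k + 8) * ck ^ 2 * min (η k) 1 / (4 * A k ^ 2) with hl
      have hl0 : 0 < l := by positivity
      have hl1 : l < 1 := by
        rw [hl, div_lt_one (by positivity)]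
        have h1 : ((1:ℝ) / 2) ^ (k + 8) ≤ 1 := pow_le_one₀ (by norm_num) (by norm_num)
        calc c * (1 / 2) ^ (k + 8) * ck ^ 2 * min (η k) 1 ≤ 1 * 1 * 1 ^ 2 * 1 := by gcongr
          _ < 4 * A k ^ 2 := by nlinarith
      obtain ⟨δ, hδ0, hδd, hδt, hδp⟩ := hplat hl0 hl1 (show 0 < D' / 4 by positivity)
      have hωδ := hω.2.2 δ ⟨hδ0, by linarith⟩
      refine ⟨(δ, ck * δ, min κ' ((1 / 2) ^ k * c' * (2 / 5) * (ck * δ) / (ω δ * A k))), ?_, ?_⟩
      · refine ⟨by positivity, lt_min hκ' (by positivity), ?_⟩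
        simp only
        nlinarith
      · refine ⟨hδ0, hδt, hδd, ?_, min_le_left _ _, min_le_right _ _, ?_⟩
        · simp only
          gcongr
          exact min_le_left _ _
        · simp only
          have h1 : (c * (1 / 2) ^ (k + 8) * (ck * δ) ^ 2 / (A k * δ)) * min (η k) 1 / (4 * A k) =
              l * δ := by
            rw [hl]
            field_simp
          rw [h1]
          exact hδp)
  set δ : ℕ → ℝ := fun k => (u (k + 1)).1 with hδ
  set D : ℕ → ℝ := fun k => (u (k + 1)).2.1 with hD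
  set σ : ℕ → ℝ := fun k => c * (1 / 2) ^ (k + 8) * D k ^ 2 / (A k * δ k) with hσ
  have hδ0 : ∀ k, 0 < δ k := fun k => (hrel k).1
  have hδt : ∀ k, δ k ≤ t₀ := fun k => (hrel k).2.1
  have hDpos : ∀ k, 0 < D k := fun k => (hgood (k + 1)).1
  have hDδ : ∀ k, D k ≤ δ k := fun k => (hgood (k + 1)).2.2
  have hstep : ∀ k, δ (k + 1) ≤ D k / 4 := fun k => (hrel (k + 1)).2.2.1
  have hDstep : ∀ k, D (k + 1) ≤ D k / 4 := fun k => (hDδ (k + 1)).trans (hstep k)
  have hσpos : ∀ k, 0 < σ k := by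
    intro k
    have := hδ0 k
    have := hDpos k
    have := hA k
    simp only [hσ]
    positivity
  have hσD : ∀ k, 16 * σ k ≤ D k := by
    intro k
    have h1 := hδ0 k
    have h2 := hDpos k
    have h3 := hA k
    have h4 := (hblk k).hA
    have h5 := hDδ k
    simp only [hσ]
    have h6 : ((1:ℝ) / 2) ^ (k + 8) ≤ 1 / 256 := by
      rw [pow_add]
      have : ((1:ℝ) / 2) ^ k ≤ 1 := pow_le_one₀ (by norm_num) (by norm_num)
      norm_num
      linarith
    rw [← mul_div_assoc, div_le_iff₀ (by positivity)]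
    calc 16 * (c * (1 / 2) ^ (k + 8) * D k ^ 2) ≤ 16 * (1 * (1 / 256) * D k ^ 2) := by gcongr
      _ = (1 / 16) * (D k * D k) := by ring
      _ ≤ 1 * (D k * (A k * δ k)) := by
        have h7 : D k ≤ A k * δ k := by nlinarith
        gcongr
        norm_num
      _ = D k * (A k * δ k) := by ring
  have hsites : ∀ k, ∃ p : ℂ, Site p (σ k) (D k) := fun k =>
    exists_site (hσpos k) (hσD k) ((hDδ k).trans ((hδt k).trans ht1.le))
  choose p hp using hsites
  have hDanti : ∀ j k, j < k → D k ≤ D j / 4 := by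
    intro j k hjk
    obtain ⟨m, rfl⟩ := Nat.exists_eq_add_of_lt hjk
    induction m with
    | zero => exact hDstep j
    | succ m ih =>
      have h1 := ih (by omega)
      have h2 := hDstep (j + m + 1)
      have h3 := hDpos j
      have h4 : j + (m + 1) + 1 = j + m + 1 + 1 := by ring
      rw [h4]
      have h5 := hDpos (j + m + 1)
      linarith
  have hδanti : ∀ j k, j ≤ k → δ k ≤ δ j := by
    intro j k hjk
    obtain ⟨m, rfl⟩ := Nat.exists_eq_add_of_le hjk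
    induction m with
    | zero => simp
    | succ m ih =>
      have h1 := ih (by omega)
      have h2 := hstep (j + m)
      have h3 := hDδ (j + m)
      have h4 := hδ0 (j + m)
      have h5 : j + (m + 1) = j + m + 1 := by ring
      rw [h5]
      linarith
  have hκanti : ∀ j k, j ≤ k → (u k).2.2 ≤ (u j).2.2 := by
    intro j k hjk
    obtain ⟨m, rfl⟩ := Nat.exists_eq_add_of_le hjk
    induction m with
    | zero => simp
    | succ m ih =>
      have h1 := ih (by omega)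
      have h2 := (hrel (j + m)).2.2.2.2.1
      exact h2.trans h1
  refine glue3 (ω := ω) (t₀ := t₀) (c := c) (R := fun k => (k:ℝ) + 2) (F := F) (β := β) (e := e)
    (A := A) (η := η) (p := p) (σ := σ) (D := D) (δ := δ) ?_ hDanti hδanti ?_ ?_ ?_ hprop
  · intro k
    exact ⟨hω, ht0, ht1, hc, hlow, hblk k, hp k, hδ0 k, hδt k, hDδ k, rfl, (hrel k).2.2.2.2.2.2⟩
  · intro j k hjk
    have h1 : D k ≤ (u k).2.2 * δ k := (hrel k).2.2.2.1
    have h2 := hκanti (j + 1) k hjk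
    have h3 : (u (j + 1)).2.2 ≤ (1 / 2) ^ j * c' * (2 / 5) * D j / (ω (δ j) * A j) :=
      (hrel j).2.2.2.2.2.1
    have hωj := hω.2.2 (δ j) ⟨hδ0 j, (hδt j).trans_lt ht1⟩
    have hAj := hA j
    have hDj := hDpos j
    have hδk := hδ0 k
    have h4 := hlin (δ k) (hδ0 k) (hδt k)
    calc ω (δ j) * A j * (5 / 2 * D k / D j)
        ≤ ω (δ j) * A j * (5 / 2 * ((1 / 2) ^ j * c' * (2 / 5) * D j / (ω (δ j) * A j) * δ k) / D j) := by
          gcongr
          refine h1.trans ?_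
          gcongr
          exact h2.trans h3
      _ = (1 / 2) ^ j * (c' * δ k) := by field_simp
      _ ≤ (1 / 2) ^ j * ω (δ k) := by gcongr
  · have h1 : ∀ k, D k ≤ (1 / 4) ^ k * D 0 := by
      intro k
      induction k with
      | zero => simp
      | succ k ih =>
        have := hDstep k
        rw [pow_succ]
        linarith
    have h2 : Tendsto (fun k : ℕ => ((1:ℝ) / 4) ^ k * D 0) atTop (𝓝 (0 * D 0)) :=
      (tendsto_pow_atTop_nhds_zero_of_lt_one (by norm_num) (by norm_num)).mul_const _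
    rw [zero_mul] at h2
    exact squeeze_zero (fun k => (hDpos k).le) h1 h2
  · exact tendsto_atTop_add_const_right _ _ tendsto_natCast_atTop_atTop

end BlochMult
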