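import Pool.Agent.Bloch.SuffMain
import Pool.Agent.Bloch.Nec3
import Pool.Agent.MP193109.Bridge

namespace BlochMult

open Complex Metric Set Filter Topology MeasureTheory

/-- two-sided power condition near `0` -/
def TwoSided (ω : ℝ → ℝ) : Prop :=
  ∃ c C α t₀ : ℝ, 0 < c ∧ 0 < α ∧ 0 < t₀ ∧ t₀ < 1 ∧ ∀ s t : ℝ, 0 < s → s ≤ t → t ≤ t₀ →
    c * (s / t) ≤ ω s / ω t ∧ ω s / ω t ≤ C * (s / t) ^ α

/-- `ω (t) / t` is almost decreasing near `0` -/
def AlmostConcave (ω : ℝ → ℝ) : Prop :=
  ∃ K t₀ : ℝ, 0 < t₀ ∧ t₀ < 1 ∧ ∀ s t : ℝ, 0 < s → s ≤ t → t ≤ t₀ → ω t / t ≤ K * (ω s / s)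

/-- `ω` is fast: `∫_0^δ ω (t) / t dt ≤ K ω (δ)` for small `δ` -/
def Fast (ω : ℝ → ℝ) : Prop :=
  ∃ K t₀ : ℝ, 0 < t₀ ∧ t₀ < 1 ∧ ∀ δ : ℝ, 0 < δ → δ ≤ t₀ →
    ∫⁻ t in Ioc 0 δ, ENNReal.ofReal (ω t / t) ≤ ENNReal.ofReal (K * ω δ)

theorem propP_iff {ω : ℝ → ℝ} (hω : IsModulus ω) : PropP ω ↔ TwoSided ω := by
  constructor
  · intro hP
    obtain ⟨c, t₀, hc, h0, h1, hlow⟩ := nec_lower hω hP
    obtain ⟨C, α, t₁, hα, ht1, ht10, hup⟩ := nec_upper hω hc h0 h1 hlow hP
    exact ⟨c, C, α, t₁, hc, hα, ht1, ht10.trans_lt h1, fun s t hs hst ht =>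
      ⟨hlow s t hs hst (ht.trans ht10), hup s t hs hst ht⟩⟩
  · rintro ⟨c, C, α, t₀, hc, hα, h0, h1, h⟩
    exact suff hω h0 h1 hc hα (fun s t hs hst ht => (h s t hs hst ht).1)
      (fun s t hs hst ht => (h s t hs hst ht).2)

theorem twoSided_iff {ω : ℝ → ℝ} (hω : IsModulus ω) :
    TwoSided ω ↔ (AlmostConcave ω ∧ Fast ω) := by
  constructor
  · rintro ⟨c, C, α, t₀, hc, hα, h0, h1, h⟩
    have hωp : ∀ t, 0 < t → t ≤ t₀ → 0 < ω t := fun t ht htt => hω.2.2 t ⟨ht, htt.trans_lt h1⟩
    constructor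
    · refine ⟨1 / c, t₀, h0, h1, fun s t hs hst ht => ?_⟩
      have ht' : 0 < t := hs.trans_le hst
      have hωt := hωp t ht' ht
      have h2 := (h s t hs hst ht).1
      rw [le_div_iff₀ hωt] at h2
      rw [div_le_iff₀ ht']
      calc ω t = (1 / c) * (c * (s / t) * ω t) * (t / s) := by field_simp
        _ ≤ (1 / c) * ω s * (t / s) := by gcongr
        _ = 1 / c * (ω s / s) * t := by ring
    · have hC : 0 < C := by
        have h2 := (h t₀ t₀ h0 le_rfl le_rfl).2
        rw [div_self (hωp t₀ h0 le_rfl).ne', div_self h0.ne', Real.one_rpow, mul_one] at h2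
        linarith
      refine ⟨C / α, t₀, h0, h1, fun δ hδ hδt => ?_⟩
      have hωδ := hωp δ hδ hδt
      have hint : IntervalIntegrable (fun t : ℝ => t ^ (α - 1)) volume 0 δ :=
        intervalIntegral.intervalIntegrable_rpow' (by linarith)
      have hint' : IntegrableOn (fun t : ℝ => C * ω δ * δ ^ (-α) * t ^ (α - 1)) (Ioc 0 δ) := by
        rw [intervalIntegrable_iff_integrableOn_Ioc_of_le hδ.le] at hint
        exact hint.const_mul _
      have h3 : ∫⁻ t in Ioc 0 δ, ENNReal.ofReal (ω t / t) ≤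
          ∫⁻ t in Ioc 0 δ, ENNReal.ofReal (C * ω δ * δ ^ (-α) * t ^ (α - 1)) := by
        refine setLIntegral_mono' measurableSet_Ioc fun t ht => ?_
        apply ENNReal.ofReal_le_ofReal
        have h4 := (h t δ ht.1 ht.2 hδt).2
        rw [div_le_iff₀ hωδ] at h4
        have ht0 := ht.1
        rw [div_le_iff₀ ht0]
        refine h4.trans (le_of_eq ?_)
        rw [Real.div_rpow ht0.le hδ.le, Real.rpow_neg hδ.le, Real.rpow_sub_one ht0.ne']
        field_simp
      refine h3.trans ?_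
      rw [← ofReal_integral_eq_lintegral_ofReal hint' (by
        refine (ae_restrict_iff' measurableSet_Ioc).2 (Eventually.of_forall fun t ht => ?_)
        have := ht.1
        simp only [Pi.zero_apply]
        positivity)]
      apply ENNReal.ofReal_le_ofReal
      rw [← intervalIntegral.integral_of_le hδ.le, intervalIntegral.integral_const_mul,
        integral_rpow (Or.inl (by linarith)), sub_add_cancel, Real.zero_rpow hα.ne', sub_zero,
        Real.rpow_neg hδ.le]
      have h5 : 0 < δ ^ α := by positivity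
      apply le_of_eq
      field_simp
  · rintro ⟨⟨K, t₀, h0, h1, hK⟩, ⟨K', t₁, h0', h1', hK'⟩⟩
    set c : ℝ := 1 / max K 1 with hc
    have hm : 0 < max K 1 := lt_max_of_lt_right one_pos
    have hc0 : 0 < c := by positivity
    have hlow : ∀ s t, 0 < s → s ≤ t → t ≤ t₀ → c * (s / t) ≤ ω s / ω t := by
      intro s t hs hst ht
      have ht' : 0 < t := hs.trans_le hst
      have hωt := hω.2.2 t ⟨ht', ht.trans_lt h1⟩
      have hωs := hω.2.2 s ⟨hs, by linarith⟩
      have h2 := hK s t hs hst ht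
      have h3 : ω t / t ≤ max K 1 * (ω s / s) := by
        refine h2.trans ?_
        gcongr
        exact le_max_left _ _
      rw [div_le_iff₀ ht'] at h3
      rw [le_div_iff₀ hωt]
      calc c * (s / t) * ω t ≤ c * (s / t) * (max K 1 * (ω s / s) * t) := by gcongr
        _ = ω s := by rw [hc]; field_simp
    have hup : ∃ C α t₂ : ℝ, 0 < α ∧ 0 < t₂ ∧ t₂ ≤ min t₀ t₁ ∧
        ∀ s t, 0 < s → s ≤ t → t ≤ t₂ → ω s / ω t ≤ C * (s / t) ^ α := by
      by_contra hcon
      set K'' := max K' 1 with hK''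
      have hK''0 : 0 < K'' := lt_max_of_lt_right one_pos
      set l := Real.exp (-(4 * K'')) with hl
      have hl0 : 0 < l := Real.exp_pos _
      have hl1 : l < 1 := by
        rw [hl, Real.exp_lt_one_iff]
        linarith
      obtain ⟨δ, hδ, -, hδt, hpl⟩ := plateau hω (lt_min h0 h0') ((min_le_left _ _).trans_lt h1) hcon
        hl0 hl1 one_pos
      have hδ1 : δ ≤ t₁ := hδt.trans (min_le_right _ _)
      have hδlt : δ < 1 := hδ1.trans_lt h1'
      have hωδ := hω.2.2 δ ⟨hδ, hδlt⟩
      have hld : 0 < l * δ := by positivity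
      have hld' : l * δ ≤ δ := by nlinarith
      have hωl := hω.2.2 (l * δ) ⟨hld, by linarith⟩
      have h2 := hK' δ hδ hδ1
      have hint : IntervalIntegrable (fun t : ℝ => ω (l * δ) * t⁻¹) volume (l * δ) δ := by
        refine (ContinuousOn.intervalIntegrable ?_).const_mul _
        intro t ht
        rw [uIcc_of_le hld'] at ht
        exact (continuousAt_inv₀ (by linarith [ht.1])).continuousWithinAt
      have hint' : IntegrableOn (fun t : ℝ => ω (l * δ) * t⁻¹) (Ioc (l * δ) δ) := by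
        rwa [intervalIntegrable_iff_integrableOn_Ioc_of_le hld'] at hint
      have h3 : ENNReal.ofReal (ω (l * δ) * (4 * K'')) ≤
          ∫⁻ t in Ioc 0 δ, ENNReal.ofReal (ω t / t) := by
        have h4 : ∫ t in Ioc (l * δ) δ, ω (l * δ) * t⁻¹ = ω (l * δ) * (4 * K'') := by
          rw [← intervalIntegral.integral_of_le hld', intervalIntegral.integral_const_mul,
            integral_inv_of_pos hld hδ]
          congr 1
          have : δ / (l * δ) = l⁻¹ := by field_simp
          rw [this, Real.log_inv, hl, Real.log_exp]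
          ring
        rw [← h4, ofReal_integral_eq_lintegral_ofReal hint' (by
          refine (ae_restrict_iff' measurableSet_Ioc).2 (Eventually.of_forall fun t ht => ?_)
          have : 0 < t := by linarith [ht.1]
          simp only [Pi.zero_apply]
          positivity)]
        calc ∫⁻ t in Ioc (l * δ) δ, ENNReal.ofReal (ω (l * δ) * t⁻¹)
            ≤ ∫⁻ t in Ioc (l * δ) δ, ENNReal.ofReal (ω t / t) := by
              refine setLIntegral_mono' measurableSet_Ioc fun t ht => ?_
              apply ENNReal.ofReal_le_ofReal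
              have ht0 : 0 < t := by linarith [ht.1]
              rw [← div_eq_mul_inv]
              gcongr
              exact hω.2.1 ⟨hld, by linarith⟩ ⟨ht0, by linarith [ht.2]⟩ ht.1.le
          _ ≤ ∫⁻ t in Ioc 0 δ, ENNReal.ofReal (ω t / t) :=
              lintegral_mono_set (Ioc_subset_Ioc_left hld.le)
      have h5 := h3.trans h2
      rw [ENNReal.ofReal_le_ofReal_iff'] at h5
      rcases h5 with h5 | h5
      · have h6 : K' * ω δ ≤ K'' * ω δ := by
          gcongr
          exact le_max_left _ _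
        have h7 : ω δ / 2 * (4 * K'') ≤ ω (l * δ) * (4 * K'') := by gcongr
        nlinarith
      · nlinarith [mul_pos hωl hK''0]
    obtain ⟨C, α, t₂, hα, ht2, ht2', hup⟩ := hup
    exact ⟨c, C, α, t₂, hc0, hα, ht2, (ht2'.trans (min_le_left _ _)).trans_lt h1,
      fun s t hs hst ht => ⟨hlow s t hs hst ((ht.trans ht2').trans (min_le_left _ _)),
        hup s t hs hst ht⟩⟩

end BlochMult
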