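import Pool.Agent.Bloch.Unit3

namespace BlochMult

open Complex Metric Set Filter Topology MeasureTheory

section
variable {ω : ℝ → ℝ} {t₀ c : ℝ} {R : ℕ → ℝ} {F β : ℕ → ℂ → ℂ} {e : ℕ → ℂ} {A η : ℕ → ℝ}
    {p : ℕ → ℂ} {σ D δ : ℕ → ℝ}

lemma sum_half (n : ℕ) : ∑ k ∈ Finset.range n, ((1:ℝ) / 2) ^ k ≤ 2 := by
  have := sum_geometric_two_le n
  exact this

lemma sum_half3 (n : ℕ) : ∑ k ∈ Finset.range n, ((1:ℝ) / 2) ^ (k + 3) ≤ 1 / 4 := by
  have h1 := sum_half n
  have h2 : ∑ k ∈ Finset.range n, ((1:ℝ) / 2) ^ (k + 3) =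
      (1 / 8) * ∑ k ∈ Finset.range n, ((1:ℝ) / 2) ^ k := by
    rw [Finset.mul_sum]
    refine Finset.sum_congr rfl fun k _ => ?_
    rw [pow_add]
    norm_num
    ring
  rw [h2]
  linarith

theorem glue3
    (hP : ∀ k, Placed ω t₀ c k (R k) (F k) (β k) (e k) (A k) (η k) (p k) (σ k) (D k) (δ k))
    (hDD : ∀ j k, j < k → D k ≤ D j / 4)
    (hδδ : ∀ j k, j ≤ k → δ k ≤ δ j)
    (hcross : ∀ j k, j < k → ω (δ j) * A j * (5 / 2 * D k / D j) ≤ (1 / 2) ^ j * ω (δ k))
    (hD0 : Tendsto D atTop (𝓝 0)) (hR : Tendsto R atTop atTop) : ¬ PropP ω := by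
  classical
  intro hprop
  have hω := (hP 0).hω
  have hc := (hP 0).hc
  have ht0 := (hP 0).ht0
  have ht1 := (hP 0).ht1
  -- disjointness
  have hdisj : ∀ j k, j < k → ∀ z : ℂ, ‖z‖ ≤ 1 → ‖1 - (starRingEnd ℂ) (p j) * z‖ < D j / 4 →
      ¬ ‖1 - (starRingEnd ℂ) (p k) * z‖ < D k / 4 := by
    intro j k hjk z hz hj hk
    have h1 := (hP j).site.near_lower hj
    have h2 := (hP k).site.near_upper hz hk
    have h3 := hDD j k hjk
    have h4 := (hP j).D0
    linarith
  have hdisj' : ∀ j k, j ≠ k → ∀ z : ℂ, ‖z‖ ≤ 1 → ‖1 - (starRingEnd ℂ) (p j) * z‖ < D j / 4 →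
      D k / 4 ≤ ‖1 - (starRingEnd ℂ) (p k) * z‖ := by
    intro j k hjk z hz hj
    by_contra hcon
    push Not at hcon
    rcases lt_or_gt_of_ne hjk with h | h
    · exact hdisj j k h z hz hj hcon
    · exact hdisj k j h z hz hcon hj
  set f1 : ℕ → ℂ → ℂ := fun k => fk ω (F k) (e k) (p k) (δ k) with hf1
  set B1 : ℕ → ℂ → ℂ := fun k => Bk (β k) (e k) (p k) with hB1
  set S : ℕ → ℂ → ℂ := fun n z => ∑ k ∈ Finset.range n, f1 k z with hS
  set f : ℂ → ℂ := fun z => ∑' k, f1 k z with hf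
  have hWle : ∀ j k, j ≤ k → ω (δ k) ≤ ω (δ j) := by
    intro j k hjk
    exact (hP k).mono (hP k).hδ (hδδ j k hjk) ((hP j).hδt.trans_lt ht1)
  have hsum : Summable (fun k : ℕ => ((1:ℝ) / 2) ^ (k + 3) * ω (δ 0)) := by
    apply Summable.mul_right
    exact (summable_nat_add_iff 3).2 summable_geometric_two
  have hunif : ∀ r : ℝ, 0 < r → TendstoUniformlyOn S f atTop {z : ℂ | ‖z‖ ≤ 1 ∧ r ≤ ‖z - 1‖} := by
    intro r hr
    have hev : ∀ᶠ k in atTop, D k < 4 / 5 * r := hD0.eventually_lt_const (by positivity)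
    refine tendstoUniformlyOn_tsum_nat_eventually (f := f1) hsum ?_
    filter_upwards [hev] with k hk z hz
    have hfar : D k / 4 ≤ ‖1 - (starRingEnd ℂ) (p k) * z‖ := by
      by_contra hcon
      push Not at hcon
      have h1 := (hP k).site.near_upper hz.1 hcon
      linarith [hz.2]
    refine ((hP k).fk_far_val hz.1 hfar).trans ?_
    gcongr
    exact hWle 0 k (Nat.zero_le _)
  have hloc : TendstoLocallyUniformlyOn S f atTop (ball 0 1) := by
    apply tendstoLocallyUniformlyOn_of_forall_exists_nhds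
    intro z hz
    have hz1 : 0 < ‖z - 1‖ := by
      apply norm_pos_iff.mpr
      rw [sub_ne_zero]
      rintro rfl
      simp at hz
    refine ⟨{w : ℂ | ‖w‖ ≤ 1 ∧ ‖z - 1‖ / 2 ≤ ‖w - 1‖}, ?_, hunif _ (by positivity)⟩
    have h2 : ∀ᶠ w in 𝓝 z, ‖z - 1‖ / 2 < ‖w - 1‖ := by
      have : Continuous (fun w : ℂ => ‖w - 1‖) := by fun_prop
      exact this.continuousAt.eventually_const_lt (by linarith)
    filter_upwards [nhdsWithin_le_nhds h2, self_mem_nhdsWithin] with w hw hw2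
    rw [mem_ball, dist_zero_right] at hw2
    exact ⟨hw2.le, hw.le⟩
  have hSd : ∀ n, DifferentiableOn ℂ (S n) (ball 0 1) := by
    intro n
    simp only [hS]
    exact DifferentiableOn.fun_sum fun k _ => (hP k).fk_diff
  have hfd : DifferentiableOn ℂ f (ball 0 1) :=
    hloc.differentiableOn (Eventually.of_forall hSd) isOpen_ball
  have hSlim : ∀ z : ℂ, ‖z‖ < 1 → Tendsto (fun n => S n z) atTop (𝓝 (f z)) :=
    fun z hz => hloc.tendsto_at (by simpa using hz)
  have hSdlim : ∀ z : ℂ, ‖z‖ < 1 → Tendsto (fun n => deriv (S n) z) atTop (𝓝 (deriv f z)) :=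
    fun z hz => (hloc.deriv (Eventually.of_forall hSd) isOpen_ball).tendsto_at (by simpa using hz)
  have hSder : ∀ n, ∀ z : ℂ, ‖z‖ < 1 → deriv (S n) z = ∑ k ∈ Finset.range n, deriv (f1 k) z := by
    intro n z hz
    simp only [hS]
    rw [deriv_fun_sum]
    intro k _
    exact ((hP k).hasDerivAt_fk hz).differentiableAt
  -- derivative bound
  have hbound : ∀ n, ∀ z : ℂ, ‖z‖ < 1 → 1 - ‖z‖ ≤ t₀ →
      ‖deriv (S n) z‖ * (1 - ‖z‖) ≤ (4 / c + 2) * ω (1 - ‖z‖) := by
    intro n z hz ht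
    have ht' : 0 < 1 - ‖z‖ := by linarith
    have hωt := hω.2.2 (1 - ‖z‖) ⟨ht', ht.trans_lt ht1⟩
    rw [hSder n z hz]
    have h1 : ∀ k ∈ Finset.range n, ‖deriv (f1 k) z‖ * (1 - ‖z‖) ≤
        ((1 / 2) ^ k + (if ‖1 - (starRingEnd ℂ) (p k) * z‖ < D k / 4 then 4 / c else 0)) *
          ω (1 - ‖z‖) := by
      intro k _
      split_ifs with hn
      · have h2 := (hP k).fk_all hz ht
        refine h2.trans ?_
        gcongr
        have : (0:ℝ) < (1 / 2) ^ k := by positivity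
        linarith
      · rw [add_zero]
        exact (hP k).fk_far hz ht (not_lt.mp hn)
    calc ‖∑ k ∈ Finset.range n, deriv (f1 k) z‖ * (1 - ‖z‖)
        ≤ (∑ k ∈ Finset.range n, ‖deriv (f1 k) z‖) * (1 - ‖z‖) := by
          gcongr
          exact norm_sum_le _ _
      _ = ∑ k ∈ Finset.range n, ‖deriv (f1 k) z‖ * (1 - ‖z‖) := Finset.sum_mul _ _ _
      _ ≤ ∑ k ∈ Finset.range n, ((1 / 2) ^ k +
          (if ‖1 - (starRingEnd ℂ) (p k) * z‖ < D k / 4 then 4 / c else 0)) * ω (1 - ‖z‖) :=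
          Finset.sum_le_sum h1
      _ = (∑ k ∈ Finset.range n, (1 / 2 : ℝ) ^ k + ∑ k ∈ Finset.range n,
          (if ‖1 - (starRingEnd ℂ) (p k) * z‖ < D k / 4 then 4 / c else 0)) * ω (1 - ‖z‖) := by
          rw [← Finset.sum_mul, Finset.sum_add_distrib]
      _ ≤ (4 / c + 2) * ω (1 - ‖z‖) := by
          refine mul_le_mul_of_nonneg_right ?_ hωt.le
          have h3 := sum_half n
          have h4 : ∑ k ∈ Finset.range n,
              (if ‖1 - (starRingEnd ℂ) (p k) * z‖ < D k / 4 then 4 / c else 0) ≤ 4 / c := by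
            rw [← Finset.sum_filter, Finset.sum_const, nsmul_eq_mul]
            have h5 : ((Finset.range n).filter
                (fun k => ‖1 - (starRingEnd ℂ) (p k) * z‖ < D k / 4)).card ≤ 1 := by
              rw [Finset.card_le_one]
              intro a ha b hb
              rw [Finset.mem_filter] at ha hb
              by_contra hab
              exact absurd hb.2 (not_lt.mpr (hdisj' a b hab z hz.le ha.2))
            have h6 : (((Finset.range n).filter
                (fun k => ‖1 - (starRingEnd ℂ) (p k) * z‖ < D k / 4)).card : ℝ) ≤ 1 := by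
              exact_mod_cast h5
            have h7 : 0 < 4 / c := by positivity
            nlinarith
          linarith
  have hfB : MemB ω f := by
    refine ⟨hfd, 4 / c + 2, 1 - t₀, ⟨by linarith, by linarith⟩, ?_⟩
    intro z hz hz1
    refine le_of_tendsto ((hSdlim z hz1).norm.mul_const _) (Eventually.of_forall fun n => ?_)
    exact hbound n z hz1 (by linarith)
  -- the inner function
  obtain ⟨Θ, hΘ, hΘlim, -⟩ := inner_prod (B := B1) (η := fun k => (1 / 2) ^ (k + 3))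
    (r := fun k => 2 * D k) (fun k => (hP k).Bk_fac)
    ((summable_nat_add_iff 3).2 summable_geometric_two)
    (by simpa using hD0.const_mul 2)
    (by
      intro k z hz hr
      refine (hP k).Bk_far hz ?_
      by_contra hcon
      push Not at hcon
      have h1 := (hP k).site.near_upper hz hcon
      have h2 := (hP k).D0
      linarith)
  -- value cross terms
  have hcrossval : ∀ j, ∀ z : ℂ, ‖z‖ < 1 → ‖1 - (starRingEnd ℂ) (p j) * z‖ < D j / 4 →
      ‖f z - f1 j z‖ ≤ 2 * ω (δ j) := by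
    intro j z hz hn
    have hWj := (hP j).W0
    have h1 : ∀ k, k ≠ j → ‖f1 k z‖ ≤ (1 / 2) ^ k * ω (δ j) := by
      intro k hk
      rcases lt_or_gt_of_ne hk with h | h
      · have h2 := (hP k).fk_gen_val hz.le
        refine h2.trans ?_
        refine le_trans ?_ (hcross k j h)
        have h3 := (hP j).site.near_upper hz.le hn
        have h4 := (hP k).W0
        have h5 := (hP k).A0
        have h6 := (hP k).D0
        have h7 : 2 * ‖z - 1‖ ≤ 5 / 2 * D j := by linarith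
        gcongr
      · refine ((hP k).fk_far_val hz.le (hdisj' j k (Ne.symm hk) z hz.le hn)).trans ?_
        have h2 := hWle j k h.le
        have h3 : ((1:ℝ) / 2) ^ (k + 3) ≤ (1 / 2) ^ k :=
          pow_le_pow_of_le_one (by norm_num) (by norm_num) (by omega)
        have h4 := (hP k).W0
        gcongr
    have h2 : Tendsto (fun n => ‖S n z - f1 j z‖) atTop (𝓝 ‖f z - f1 j z‖) :=
      ((hSlim z hz).sub_const _).norm
    refine le_of_tendsto h2 ?_
    filter_upwards [eventually_gt_atTop j] with n hn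
    have h3 : S n z - f1 j z = ∑ k ∈ (Finset.range n).erase j, f1 k z := by
      simp only [hS]
      rw [← Finset.add_sum_erase (Finset.range n) (fun k => f1 k z) (Finset.mem_range.mpr hn)]
      ring
    rw [h3]
    calc ‖∑ k ∈ (Finset.range n).erase j, f1 k z‖
        ≤ ∑ k ∈ (Finset.range n).erase j, ‖f1 k z‖ := norm_sum_le _ _
      _ ≤ ∑ k ∈ (Finset.range n).erase j, (1 / 2) ^ k * ω (δ j) :=
          Finset.sum_le_sum fun k hk => h1 k (Finset.ne_of_mem_erase hk)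
      _ ≤ ∑ k ∈ Finset.range n, (1 / 2) ^ k * ω (δ j) :=
          Finset.sum_le_sum_of_subset_of_nonneg (Finset.erase_subset _ _)
            fun k _ _ => by positivity
      _ = (∑ k ∈ Finset.range n, (1 / 2) ^ k) * ω (δ j) := (Finset.sum_mul _ _ _).symm
      _ ≤ 2 * ω (δ j) := by gcongr; exact sum_half n
  -- lower bound for Θ
  have hlow1 : ∀ z : ℂ, ‖z‖ < 1 → (∀ k, D k / 4 ≤ ‖1 - (starRingEnd ℂ) (p k) * z‖) →
      3 / 4 ≤ ‖Θ z‖ := by
    intro z hz hfar
    refine ge_of_tendsto (hΘlim z hz).norm (Eventually.of_forall fun n => ?_)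
    rw [norm_prod]
    have h1 := prod_lower (Finset.range n) (fun k => ‖B1 k z‖) (fun k => (1 / 2) ^ (k + 3))
      (fun k _ => norm_nonneg _) (fun k _ => (hP k).Bk_fac.le_one z hz.le)
      (fun k _ => by
        have h2 := (hP k).Bk_far hz.le (hfar k)
        have h3 := norm_sub_norm_le (1:ℂ) (B1 k z)
        rw [norm_one, norm_sub_rev] at h3
        linarith)
    have h2 := sum_half3 n
    linarith
  have hlow2 : ∀ j, ∀ z : ℂ, ‖z‖ < 1 → ‖1 - (starRingEnd ℂ) (p j) * z‖ < D j / 4 →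
      3 / 4 * ‖B1 j z‖ ≤ ‖Θ z‖ := by
    intro j z hz hn
    refine ge_of_tendsto (hΘlim z hz).norm ?_
    filter_upwards [eventually_gt_atTop j] with n hnj
    rw [norm_prod, ← Finset.mul_prod_erase (Finset.range n) (fun k => ‖B1 k z‖)
      (Finset.mem_range.mpr hnj)]
    have h1 := prod_lower ((Finset.range n).erase j) (fun k => ‖B1 k z‖)
      (fun k => (1 / 2) ^ (k + 3))
      (fun k _ => norm_nonneg _) (fun k _ => (hP k).Bk_fac.le_one z hz.le)
      (fun k hk => by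
        have h2 := (hP k).Bk_far hz.le (hdisj' j k (Finset.ne_of_mem_erase hk).symm z hz.le hn)
        have h3 := norm_sub_norm_le (1:ℂ) (B1 k z)
        rw [norm_one, norm_sub_rev] at h3
        linarith)
    have h2 : ∑ k ∈ (Finset.range n).erase j, ((1:ℝ) / 2) ^ (k + 3) ≤ 1 / 4 :=
      (Finset.sum_le_sum_of_subset_of_nonneg (Finset.erase_subset _ _)
        fun k _ _ => by positivity).trans (sum_half3 n)
    have h3 : 3 / 4 ≤ ∏ k ∈ (Finset.range n).erase j, ‖B1 k z‖ := by linarith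
    calc 3 / 4 * ‖B1 j z‖ = ‖B1 j z‖ * (3 / 4) := by ring
      _ ≤ ‖B1 j z‖ * ∏ k ∈ (Finset.range n).erase j, ‖B1 k z‖ := by gcongr
  have hupp : ∀ j, ∀ z : ℂ, ‖z‖ < 1 → ‖Θ z‖ ≤ ‖B1 j z‖ := by
    intro j z hz
    refine le_of_tendsto (hΘlim z hz).norm ?_
    filter_upwards [eventually_gt_atTop j] with n hnj
    rw [norm_prod, ← Finset.mul_prod_erase (Finset.range n) (fun k => ‖B1 k z‖)
      (Finset.mem_range.mpr hnj)]
    have h3 : ∏ k ∈ (Finset.range n).erase j, ‖B1 k z‖ ≤ 1 :=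
      Finset.prod_le_one (fun k _ => norm_nonneg _) (fun k _ => (hP k).Bk_fac.le_one z hz.le)
    calc ‖B1 j z‖ * ∏ k ∈ (Finset.range n).erase j, ‖B1 k z‖ ≤ ‖B1 j z‖ * 1 := by gcongr
      _ = ‖B1 j z‖ := mul_one _
  have hexp12 : Real.exp (-12) ≤ 1 := by
    rw [Real.exp_le_one_iff]
    norm_num
  have hexp12' := Real.exp_pos (-12)
  -- (ii)
  have hii : SFin ω f Θ (Real.exp (-12) / 2) := by
    refine ⟨16, ?_⟩
    rintro x ⟨z, ⟨hz0, hz, hΘz⟩, rfl⟩
    simp only
    have hz0' : 0 < ‖z‖ := norm_pos_iff.mpr hz0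
    have hωz := hω.2.2 (1 - ‖z‖) ⟨by linarith, by linarith⟩
    rw [div_le_iff₀ hωz]
    by_cases hall : ∀ k, D k / 4 ≤ ‖1 - (starRingEnd ℂ) (p k) * z‖
    · have := hlow1 z hz hall
      linarith
    · push Not at hall
      obtain ⟨j, hj⟩ := hall
      have h1 := hlow2 j z hz hj
      have h2 : ‖B1 j z‖ < Real.exp (-12) := by linarith
      obtain ⟨h3, h4⟩ := (hP j).Bk_small hz h2 hz0
      have h5 := hcrossval j z hz hj
      have h6 : ‖f z‖ ≤ ‖f1 j z‖ + ‖f z - f1 j z‖ := by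
        have := norm_sub_norm_le (f z) (f1 j z)
        linarith
      have h7 : ‖f1 j z‖ ≤ 6 * ω (δ j) := h3
      linarith
  -- (iii)
  set E := Real.exp (-(9 / 256)) with hE
  have hE1 : E < 1 := by
    rw [hE, Real.exp_lt_one_iff]
    norm_num
  have hE0 : 0 < E := Real.exp_pos _
  have hall := ((hprop f hfB Θ hΘ).2).1 ⟨Real.exp (-12) / 2, ⟨by positivity, by linarith⟩, hii⟩
  obtain ⟨M, hM⟩ := hall ((1 + E) / 2) ⟨by linarith, by linarith⟩
  obtain ⟨j, hj⟩ := (hR.eventually (eventually_gt_atTop (3 * (|M| + 6)))).exists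
  have hpj := (hP j).site
  have hpn := hpj.hp
  have hσj := hpj.hσ
  have hσδ := (hP j).σ_le_δ
  have hδ1 : δ j < 1 := (hP j).hδt.trans_lt ht1
  have hp0 : p j ≠ 0 := by
    rw [← norm_pos_iff, hpn]
    linarith
  have hWj := (hP j).W0
  have h1 := hM ⟨p j, ⟨hp0, hpj.lt, by
    have h2 := (hupp j (p j) hpj.lt).trans (hP j).Bk_p
    rw [← hE] at h2
    linarith⟩, rfl⟩
  simp only at h1
  have h2 : 1 - ‖p j‖ = σ j := by rw [hpn]; ring
  rw [h2] at h1
  have hωσ := hω.2.2 (σ j) ⟨hσj, by linarith⟩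
  rw [div_le_iff₀ hωσ] at h1
  have h3 := (hP j).mono hσj hσδ hδ1
  have h4 := hcrossval j (p j) hpj.lt hpj.self_near
  have h5 : ‖f1 j (p j)‖ ≤ ‖f (p j)‖ + ‖f (p j) - f1 j (p j)‖ := by
    have := norm_sub_norm_le (f1 j (p j)) (f (p j))
    rw [norm_sub_rev] at this
    linarith
  have h6 : ω (δ j) * (R j / 3 - 3) ≤ ‖f1 j (p j)‖ := (hP j).fk_p
  have h7 : ω (δ j) * (R j / 3 - 5) ≤ |M| * ω (δ j) := by
    have h8 : M * ω (σ j) ≤ |M| * ω (δ j) := by
      calc M * ω (σ j) ≤ |M| * ω (σ j) := by gcongr; exact le_abs_self M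
        _ ≤ |M| * ω (δ j) := by gcongr
    linarith
  have h9 : R j / 3 - 5 ≤ |M| := by
    rw [mul_comm] at h7
    exact le_of_mul_le_mul_right h7 hWj
  linarith

end

end BlochMult
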