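import Mathlib

namespace BlochMult

open Complex Finset

/-- primitive root -/
noncomputable def rt (N : ℕ) : ℂ := Complex.exp (2 * Real.pi * I / N)

lemma rt_prim {N : ℕ} (hN : N ≠ 0) : IsPrimitiveRoot (rt N) N := Complex.isPrimitiveRoot_exp N hN

lemma rt_norm {N : ℕ} (hN : N ≠ 0) : ‖rt N‖ = 1 := (rt_prim hN).norm'_eq_one hN

lemma rt_conj {N : ℕ} (hN : N ≠ 0) (i : ℕ) : (starRingEnd ℂ) (rt N ^ i) = (rt N ^ i)⁻¹ := by
  symm
  apply inv_eq_of_mul_eq_one_right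
  rw [Complex.mul_conj, Complex.normSq_eq_norm_sq, norm_pow, rt_norm hN]
  simp

lemma orth0 {N : ℕ} (hN : N ≠ 0) {m : ℕ} (hm : m ≠ 0) (hmN : m < N) :
    ∑ i ∈ range N, (rt N ^ i) ^ m = 0 := by
  have h1 : ∀ i, (rt N ^ i) ^ m = (rt N ^ m) ^ i := fun i => by rw [← pow_mul, ← pow_mul, mul_comm]
  simp only [h1]
  have h2 : rt N ^ m ≠ 1 := by
    intro h
    have := (rt_prim hN).dvd_of_pow_eq_one m h
    exact absurd (Nat.le_of_dvd (Nat.pos_of_ne_zero hm) this) (not_le.mpr hmN)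
  have h3 := mul_neg_geom_sum (rt N ^ m) N
  have h4 : (rt N ^ m) ^ N = 1 := by rw [← pow_mul, mul_comm, pow_mul, (rt_prim hN).pow_eq_one, one_pow]
  rw [h4, sub_self, mul_eq_zero] at h3
  rcases h3 with h3 | h3
  · exact absurd (sub_eq_zero.mp h3).symm h2
  · exact h3

lemma orth {N : ℕ} (hN : N ≠ 0) {a b : ℕ} (ha : a < N) (hb : b < N) :
    ∑ i ∈ range N, (rt N ^ i) ^ a * (starRingEnd ℂ) ((rt N ^ i) ^ b) =
      if a = b then (N : ℂ) else 0 := by
  have hnz : ∀ i, rt N ^ i ≠ 0 := fun i => pow_ne_zero _ ((rt_prim hN).ne_zero hN)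
  have hc : ∀ i, (starRingEnd ℂ) ((rt N ^ i) ^ b) = ((rt N ^ i) ^ b)⁻¹ := by
    intro i
    rw [map_pow, rt_conj hN, inv_pow]
  simp only [hc]
  split_ifs with hab
  · subst hab
    have : ∀ i ∈ range N, (rt N ^ i) ^ a * ((rt N ^ i) ^ a)⁻¹ = 1 := fun i _ =>
      mul_inv_cancel₀ (pow_ne_zero _ (hnz i))
    rw [Finset.sum_congr rfl this]
    simp
  · rcases lt_or_gt_of_ne hab with h | h
    · have h1 : ∀ i ∈ range N, (rt N ^ i) ^ a * ((rt N ^ i) ^ b)⁻¹ =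
          (starRingEnd ℂ) ((rt N ^ i) ^ (b - a)) := by
        intro i _
        rw [map_pow, rt_conj hN, inv_pow]
        have : (rt N ^ i) ^ b = (rt N ^ i) ^ (b - a) * (rt N ^ i) ^ a := by
          rw [← pow_add, Nat.sub_add_cancel h.le]
        rw [this, mul_inv]
        have h2 := pow_ne_zero a (hnz i)
        field_simp
      rw [Finset.sum_congr rfl h1, ← map_sum, orth0 hN (by omega) (by omega), map_zero]
    · have h1 : ∀ i ∈ range N, (rt N ^ i) ^ a * ((rt N ^ i) ^ b)⁻¹ = (rt N ^ i) ^ (a - b) := by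
        intro i _
        have : (rt N ^ i) ^ a = (rt N ^ i) ^ (a - b) * (rt N ^ i) ^ b := by
          rw [← pow_add, Nat.sub_add_cancel h.le]
        rw [this]
        have h2 := pow_ne_zero b (hnz i)
        field_simp
      rw [Finset.sum_congr rfl h1, orth0 hN (by omega) (by omega)]

lemma parseval {N : ℕ} (hN : N ≠ 0) {ι : Type*} (s : Finset ι) (e : ι → ℕ)
    (he : ∀ p ∈ s, e p < N) :
    ∑ i ∈ range N, ‖∑ p ∈ s, (rt N ^ i) ^ (e p)‖ ^ 2 =
      N * ∑ p ∈ s, ((s.filter (fun q => e p = e q)).card : ℝ) := by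
  have h1 : ((∑ i ∈ range N, ‖∑ p ∈ s, (rt N ^ i) ^ (e p)‖ ^ 2 : ℝ) : ℂ) =
      ((N * ∑ p ∈ s, ((s.filter (fun q => e p = e q)).card : ℝ) : ℝ) : ℂ) := by
    push_cast
    have h2 : ∀ i ∈ range N, ((‖∑ p ∈ s, (rt N ^ i) ^ (e p)‖ : ℝ) : ℂ) ^ 2 =
        ∑ p ∈ s, ∑ q ∈ s, (rt N ^ i) ^ (e p) * (starRingEnd ℂ) ((rt N ^ i) ^ (e q)) := by
      intro i _
      rw [← Complex.mul_conj', map_sum, Finset.sum_mul_sum]
    rw [Finset.sum_congr rfl h2, Finset.sum_comm, Finset.mul_sum]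
    refine Finset.sum_congr rfl fun p hp => ?_
    rw [Finset.sum_comm]
    rw [Finset.sum_congr rfl fun q hq => orth hN (he p hp) (he q hq)]
    rw [Finset.sum_ite, Finset.sum_const_zero, add_zero, Finset.sum_const]
    simp [mul_comm]
  exact_mod_cast h1

lemma three_pow_unique_aux {a b c d : ℕ} (hab : a ≤ b) (hcd : c ≤ d)
    (h : 3 ^ a + 3 ^ b = 3 ^ c + 3 ^ d) : ¬ a < c := by
  intro hac
  obtain ⟨k, rfl⟩ := Nat.exists_eq_add_of_lt hac
  obtain ⟨l, rfl⟩ := Nat.exists_eq_add_of_le hab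
  obtain ⟨m, rfl⟩ := Nat.exists_eq_add_of_le hcd
  have h1 : 3 ^ a * (1 + 3 ^ l) = 3 ^ a * (3 * (3 ^ k + 3 ^ (k + m))) := by
    have e1 : 3 ^ (a + l) = 3 ^ a * 3 ^ l := pow_add _ _ _
    have e2 : 3 ^ (a + k + 1) = 3 ^ a * (3 * 3 ^ k) := by ring
    have e3 : 3 ^ (a + k + 1 + m) = 3 ^ a * (3 * 3 ^ (k + m)) := by ring
    rw [e1, e2, e3] at h
    linarith
  have h2 := Nat.eq_of_mul_eq_mul_left (pow_pos (by norm_num) a) h1
  rcases l with _ | l
  · simp at h2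
    omega
  · rw [pow_succ] at h2
    omega

lemma three_pow_unique {a b c d : ℕ} (h : 3 ^ a + 3 ^ b = 3 ^ c + 3 ^ d) :
    (a = c ∧ b = d) ∨ (a = d ∧ b = c) := by
  wlog hab : a ≤ b generalizing a b
  · have := this (a := b) (b := a) (by rw [add_comm]; exact h) (by omega)
    tauto
  wlog hcd : c ≤ d generalizing c d
  · have := this (c := d) (d := c) (by rw [add_comm (3 ^ d)]; exact h) (by omega)
    tauto
  have h1 := three_pow_unique_aux hab hcd h
  have h2 := three_pow_unique_aux hcd hab h.symm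
  have h3 : a = c := by omega
  subst h3
  have h4 : 3 ^ b = 3 ^ d := by omega
  left
  exact ⟨rfl, Nat.pow_right_injective (le_refl 2 |>.trans (by norm_num)) h4⟩

/-- lacunary sum -/
noncomputable def lac (J : ℕ) (z : ℂ) : ℂ := ∑ j ∈ range J, z ^ (3 ^ j)

lemma lac_neg (J : ℕ) (z : ℂ) : lac J (-z) = - lac J z := by
  unfold lac
  rw [← Finset.sum_neg_distrib]
  refine Finset.sum_congr rfl fun j _ => ?_
  have : Odd (3 ^ j) := Odd.pow (by decide)
  exact this.neg_pow z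

lemma sum_sq {N : ℕ} (hN : N ≠ 0) {J : ℕ} (hJN : 3 ^ J < N) :
    ∑ i ∈ range N, ‖lac J (rt N ^ i)‖ ^ 2 = N * J := by
  unfold lac
  rw [parseval hN (range J) (fun j => 3 ^ j) (fun p hp => by
    have : 3 ^ p ≤ 3 ^ J := Nat.pow_le_pow_right (by norm_num) (Finset.mem_range.mp hp).le
    omega)]
  congr 1
  have h1 : ∀ p ∈ range J, (((range J).filter (fun q => 3 ^ p = 3 ^ q)).card : ℝ) = 1 := by
    intro p hp
    have : (range J).filter (fun q => 3 ^ p = 3 ^ q) = {p} := by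
      ext q
      simp only [Finset.mem_filter, Finset.mem_range, Finset.mem_singleton]
      constructor
      · rintro ⟨_, h⟩
        exact (Nat.pow_right_injective (by norm_num) h).symm
      · rintro rfl
        exact ⟨Finset.mem_range.mp hp, rfl⟩
    rw [this]
    simp
  rw [Finset.sum_congr rfl h1]
  simp

lemma lac_sq (J : ℕ) (z : ℂ) :
    lac J z ^ 2 = ∑ p ∈ range J ×ˢ range J, z ^ (3 ^ p.1 + 3 ^ p.2) := by
  unfold lac
  rw [sq, Finset.sum_mul_sum, Finset.sum_product]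
  refine Finset.sum_congr rfl fun j _ => Finset.sum_congr rfl fun l _ => ?_
  rw [pow_add]

lemma expo_lt {N J : ℕ} (hJN : 2 * 3 ^ J < N) : ∀ p ∈ range J ×ˢ range J, 3 ^ p.1 + 3 ^ p.2 < N := by
  intro p hp
  rw [Finset.mem_product] at hp
  have h1 : 3 ^ p.1 ≤ 3 ^ J := Nat.pow_le_pow_right (by norm_num) (Finset.mem_range.mp hp.1).le
  have h2 : 3 ^ p.2 ≤ 3 ^ J := Nat.pow_le_pow_right (by norm_num) (Finset.mem_range.mp hp.2).le
  omega

lemma sum_lac_sq {N : ℕ} (hN : N ≠ 0) {J : ℕ} (hJN : 2 * 3 ^ J < N) :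
    ∑ i ∈ range N, lac J (rt N ^ i) ^ 2 = 0 := by
  simp only [lac_sq]
  rw [Finset.sum_comm]
  refine Finset.sum_eq_zero fun p hp => ?_
  exact orth0 hN (by positivity) (expo_lt hJN p hp)

lemma sum_fourth {N : ℕ} (hN : N ≠ 0) {J : ℕ} (hJN : 2 * 3 ^ J < N) :
    ∑ i ∈ range N, ‖lac J (rt N ^ i)‖ ^ 4 ≤ 2 * N * J ^ 2 := by
  have h1 : ∀ i ∈ range N, ‖lac J (rt N ^ i)‖ ^ 4 =
      ‖∑ p ∈ range J ×ˢ range J, (rt N ^ i) ^ (3 ^ p.1 + 3 ^ p.2)‖ ^ 2 := by
    intro i _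
    rw [← lac_sq, norm_pow]
    ring
  rw [Finset.sum_congr rfl h1, parseval hN _ _ (expo_lt hJN)]
  have h2 : ∀ p ∈ range J ×ˢ range J, (((range J ×ˢ range J).filter
      (fun q => 3 ^ p.1 + 3 ^ p.2 = 3 ^ q.1 + 3 ^ q.2)).card : ℝ) ≤ 2 := by
    intro p _
    have h3 : (range J ×ˢ range J).filter
      (fun q => 3 ^ p.1 + 3 ^ p.2 = 3 ^ q.1 + 3 ^ q.2) ⊆ {p, (p.2, p.1)} := by
      intro q hq
      simp only [Finset.mem_filter] at hq
      simp only [Finset.mem_insert, Finset.mem_singleton]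
      rcases three_pow_unique hq.2 with ⟨h, h'⟩ | ⟨h, h'⟩
      · left; exact Prod.ext h.symm h'.symm
      · right; exact Prod.ext h'.symm h.symm
    have h4 := (Finset.card_le_card h3).trans Finset.card_le_two
    exact_mod_cast h4
  have h5 := Finset.sum_le_sum h2
  rw [Finset.sum_const, Finset.card_product, Finset.card_range] at h5
  have h6 : (N:ℝ) * ∑ p ∈ range J ×ˢ range J, (((range J ×ˢ range J).filter
      (fun q => 3 ^ p.1 + 3 ^ p.2 = 3 ^ q.1 + 3 ^ q.2)).card : ℝ) ≤ N * ((J * J) • 2) := by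
    gcongr
  refine h6.trans (le_of_eq ?_)
  simp
  ring

end BlochMult
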