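import Pool.Agent.Bloch.Grid

namespace BlochMult

open Complex Finset

lemma sum_re_sq {N : ℕ} (hN : N ≠ 0) {J : ℕ} (hJN : 2 * 3 ^ J < N) :
    ∑ i ∈ range N, (lac J (rt N ^ i)).re ^ 2 = N * J / 2 := by
  have h1 : ∀ z : ℂ, z.re ^ 2 = (‖z‖ ^ 2 + (z ^ 2).re) / 2 := by
    intro z
    rw [Complex.sq_norm, Complex.normSq_apply, sq z, Complex.mul_re]
    ring
  simp only [h1]
  rw [← Finset.sum_div, Finset.sum_add_distrib, sum_sq hN (by omega), ← Complex.re_sum,
    sum_lac_sq hN hJN, Complex.zero_re, add_zero]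

lemma grid_count {M J : ℕ} (hJ : 0 < J) (hM : 3 ^ J < M) :
    (9:ℝ) / 256 * ((2 * M : ℕ) : ℝ) ≤ (((range (2 * M)).filter
      (fun i => Real.sqrt (J / 8) ≤ (lac J (rt (2 * M) ^ i)).re)).card : ℝ) := by
  set N := 2 * M with hN
  have h3J : 0 < 3 ^ J := by positivity
  have hN0 : N ≠ 0 := by omega
  have hJN : 2 * 3 ^ J < N := by omega
  have hNpos : (0:ℝ) < N := by exact_mod_cast Nat.pos_of_ne_zero hN0
  have hJpos : (0:ℝ) < J := by exact_mod_cast hJ
  set X : ℕ → ℝ := fun i => (lac J (rt N ^ i)).re ^ 2 with hX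
  have hsum : ∑ i ∈ range N, X i = N * J / 2 := sum_re_sq hN0 hJN
  have hX0 : ∀ i, 0 ≤ X i := fun i => sq_nonneg _
  have hsum2 : ∑ i ∈ range N, X i ^ 2 ≤ 2 * N * J ^ 2 := by
    refine le_trans (Finset.sum_le_sum fun i _ => ?_) (sum_fourth hN0 hJN)
    simp only [hX]
    have h1 := Complex.abs_re_le_norm (lac J (rt N ^ i))
    have h2 : (lac J (rt N ^ i)).re ^ 2 ≤ ‖lac J (rt N ^ i)‖ ^ 2 := by
      rw [← sq_abs (lac J (rt N ^ i)).re]
      gcongr
    calc ((lac J (rt N ^ i)).re ^ 2) ^ 2 ≤ (‖lac J (rt N ^ i)‖ ^ 2) ^ 2 := by gcongr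
      _ = ‖lac J (rt N ^ i)‖ ^ 4 := by ring
  set A := (range N).filter (fun i => (J:ℝ) / 8 ≤ X i) with hA
  have hsplit : ∑ i ∈ range N, X i ≤ ∑ i ∈ A, X i + N * (J / 8) := by
    rw [← Finset.sum_filter_add_sum_filter_not (range N) (fun i => (J:ℝ) / 8 ≤ X i)]
    gcongr
    calc ∑ i ∈ (range N).filter (fun i => ¬ (J:ℝ) / 8 ≤ X i), X i
        ≤ ∑ i ∈ (range N).filter (fun i => ¬ (J:ℝ) / 8 ≤ X i), (J:ℝ) / 8 := by
          refine Finset.sum_le_sum fun i hi => ?_
          rw [Finset.mem_filter] at hi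
          exact (not_le.mp hi.2).le
      _ = (((range N).filter (fun i => ¬ (J:ℝ) / 8 ≤ X i)).card : ℝ) * (J / 8) := by
          rw [Finset.sum_const, nsmul_eq_mul]
      _ ≤ N * (J / 8) := by
          gcongr
          exact_mod_cast (Finset.card_filter_le _ _).trans (by simp)
  have hcs := sq_sum_le_card_mul_sum_sq (s := A) (f := X)
  have hsub : ∑ i ∈ A, X i ^ 2 ≤ ∑ i ∈ range N, X i ^ 2 :=
    Finset.sum_le_sum_of_subset_of_nonneg (Finset.filter_subset _ _) fun i _ _ => sq_nonneg _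
  have h1 : 3 * (N:ℝ) * J / 8 ≤ ∑ i ∈ A, X i := by
    rw [hsum] at hsplit
    linarith
  have h2 : (3 * (N:ℝ) * J / 8) ^ 2 ≤ (A.card : ℝ) * (2 * N * J ^ 2) := by
    calc (3 * (N:ℝ) * J / 8) ^ 2 ≤ (∑ i ∈ A, X i) ^ 2 := by gcongr
      _ ≤ (A.card : ℝ) * ∑ i ∈ A, X i ^ 2 := hcs
      _ ≤ (A.card : ℝ) * (2 * N * J ^ 2) := by
        gcongr
        exact hsub.trans hsum2
  have h3 : 9 / 128 * (N:ℝ) ≤ A.card := by
    have h4 : (3 * (N:ℝ) * J / 8) ^ 2 = (9 / 64 * N) * (N * J ^ 2) := by ring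
    have h5 : (A.card : ℝ) * (2 * N * J ^ 2) = (2 * A.card) * (N * J ^ 2) := by ring
    rw [h4, h5] at h2
    have h6 := le_of_mul_le_mul_right h2 (by positivity)
    linarith
  set Ap := (range N).filter (fun i => Real.sqrt (J / 8) ≤ (lac J (rt N ^ i)).re) with hAp
  set Am := (range N).filter (fun i => (lac J (rt N ^ i)).re ≤ - Real.sqrt (J / 8)) with hAm
  have hcover : A ⊆ Ap ∪ Am := by
    intro i hi
    rw [hA, Finset.mem_filter] at hi
    rw [Finset.mem_union, hAp, hAm, Finset.mem_filter, Finset.mem_filter]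
    have h4 := Real.sqrt_le_sqrt hi.2
    simp only [hX] at h4
    rw [Real.sqrt_sq_eq_abs] at h4
    rcases le_abs.mp h4 with h | h
    · left; exact ⟨hi.1, h⟩
    · right; exact ⟨hi.1, by linarith⟩
  have hinj : Am.card ≤ Ap.card := by
    refine Finset.card_le_card_of_injOn (fun i => (i + M) % N) ?_ ?_
    · intro i hi
      simp only [hAm, Finset.coe_filter, Finset.mem_range, Set.mem_ofPred_eq] at hi
      simp only [hAp, Finset.coe_filter, Finset.mem_range, Set.mem_ofPred_eq]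
      refine ⟨Nat.mod_lt _ (Nat.pos_of_ne_zero hN0), ?_⟩
      have e1 : rt N ^ ((i + M) % N) = - rt N ^ i := by
        have e2 : rt N ^ ((i + M) % N) = rt N ^ (i + M) := by
          conv_rhs => rw [← Nat.mod_add_div (i + M) N, pow_add, pow_mul, (rt_prim hN0).pow_eq_one,
            one_pow, mul_one]
        rw [e2, pow_add]
        have e3 : rt N ^ M = -1 := by
          have e4 : (rt N ^ M) ^ 2 = 1 := by
            rw [← pow_mul, mul_comm M 2, ← hN, (rt_prim hN0).pow_eq_one]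
          rcases (sq_eq_sq_iff_eq_or_eq_neg.mp (show (rt N ^ M) ^ 2 = 1 ^ 2 by rw [e4, one_pow])) with h | h
          · exfalso
            have := (rt_prim hN0).dvd_of_pow_eq_one M h
            have := Nat.le_of_dvd (by omega) this
            omega
          · exact h
        rw [e3]
        ring
      rw [e1, lac_neg, Complex.neg_re]
      linarith [hi.2]
    · intro i hi j hj hij
      simp only [hAm, Finset.coe_filter, Finset.mem_range, Set.mem_ofPred_eq] at hi hj
      simp only at hij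
      have h1 : i + M ≡ j + M [MOD N] := hij
      have h2 := Nat.ModEq.add_right_cancel' M h1
      rw [Nat.ModEq, Nat.mod_eq_of_lt hi.1, Nat.mod_eq_of_lt hj.1] at h2
      exact h2
  have h7 : A.card ≤ Ap.card + Am.card := (Finset.card_le_card hcover).trans (Finset.card_union_le _ _)
  have h8 : (A.card : ℝ) ≤ Ap.card + Am.card := by exact_mod_cast h7
  have h9 : (Am.card : ℝ) ≤ Ap.card := by exact_mod_cast hinj
  linarith

end BlochMult
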