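import Pool.Agent.Bloch.Defs

namespace BlochMult

open Complex Metric Set Filter Topology MeasureTheory Interval

lemma inner_integral_tendsto {Θ : ℂ → ℂ} (h : IsInner Θ) (n : ℕ) :
    Tendsto (fun ρ : ℝ => ∫ θ in (0:ℝ)..2 * Real.pi, ‖Θ (circleMap 0 ρ θ)‖ ^ n) (𝓝[<] 1)
      (𝓝 (∫ θ in (0:ℝ)..2 * Real.pi, (1:ℝ))) := by
  obtain ⟨hd, ⟨C, hC⟩, hae⟩ := h
  refine intervalIntegral.tendsto_integral_filter_of_dominated_convergence (fun _ => C ^ n) ?_ ?_ ?_ ?_
  · filter_upwards [Ioo_mem_nhdsLT (show (0:ℝ) < 1 by norm_num)] with ρ hρ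
    have hc : Continuous (fun θ : ℝ => Θ (circleMap 0 ρ θ)) := by
      refine hd.continuousOn.comp_continuous (continuous_circleMap 0 ρ) ?_
      intro θ
      simp [abs_of_pos hρ.1, hρ.2]
    exact (hc.norm.pow n).aestronglyMeasurable
  · filter_upwards [Ioo_mem_nhdsLT (show (0:ℝ) < 1 by norm_num)] with ρ hρ
    refine Eventually.of_forall fun θ _ => ?_
    have := hC (circleMap 0 ρ θ) (by simp [abs_of_pos hρ.1, hρ.2])
    rw [norm_pow, norm_norm]
    gcongr
  · exact intervalIntegrable_const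
  · filter_upwards [hae] with θ hθ _
    obtain ⟨w, hw, ht⟩ := hθ
    have h1 := (ht.norm).pow n
    rw [hw, one_pow] at h1
    refine h1.congr (fun ρ => ?_)
    simp [circleMap]

lemma inner_le_one {Θ : ℂ → ℂ} (h : IsInner Θ) {z : ℂ} (hz : ‖z‖ < 1) : ‖Θ z‖ ≤ 1 := by
  have hd := h.1
  -- key inequality
  have key : ∀ n : ℕ, ‖Θ z‖ ^ n ≤ 1 / (1 - ‖z‖) := by
    intro n
    have h1 : ∀ᶠ ρ : ℝ in 𝓝[<] 1, 2 * Real.pi * ‖Θ z‖ ^ n ≤
        1 / (ρ - ‖z‖) * ∫ θ in (0:ℝ)..2 * Real.pi, ‖Θ (circleMap 0 ρ θ)‖ ^ n := by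
      filter_upwards [Ioo_mem_nhdsLT hz] with ρ hρ
      have hρ0 : 0 < ρ := (norm_nonneg z).trans_lt hρ.1
      have hzρ : 0 < ρ - ‖z‖ := by linarith [hρ.1]
      have hdc : DiffContOnCl ℂ (fun w => Θ w ^ n) (ball 0 ρ) := by
        have hsub : closedBall (0:ℂ) ρ ⊆ ball 0 1 := closedBall_subset_ball hρ.2
        refine ⟨(hd.mono (ball_subset_closedBall.trans hsub)).pow n, ?_⟩
        rw [closure_ball _ hρ0.ne']
        exact ((hd.mono hsub).pow n).continuousOn
      have hci := hdc.circleIntegral_sub_inv_smul (w := z) (by simpa using hρ.1)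
      have hn : ‖(2 * (Real.pi:ℂ) * I) • (Θ z ^ n)‖ = 2 * Real.pi * ‖Θ z‖ ^ n := by
        rw [norm_smul, norm_pow, norm_mul, norm_mul, Complex.norm_I, Complex.norm_real,
          Real.norm_eq_abs, abs_of_pos Real.pi_pos]
        simp
      rw [← hn, ← hci, circleIntegral]
      refine (intervalIntegral.norm_integral_le_integral_norm (by positivity)).trans ?_
      rw [← intervalIntegral.integral_const_mul]
      have hcc : Continuous (fun θ : ℝ => Θ (circleMap 0 ρ θ)) := by
        refine hd.continuousOn.comp_continuous (continuous_circleMap 0 ρ) ?_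
        intro θ
        simp [abs_of_pos hρ0, hρ.2]
      have hcne : ∀ θ : ℝ, ρ - ‖z‖ ≤ ‖circleMap 0 ρ θ - z‖ := by
        intro θ
        have := norm_sub_norm_le (circleMap 0 ρ θ) z
        simpa [abs_of_pos hρ0] using this
      have hcne2 : ∀ θ : ℝ, circleMap 0 ρ θ - z ≠ 0 := by
        intro θ
        have := hcne θ
        exact norm_pos_iff.mp (by linarith)
      refine intervalIntegral.integral_mono_on (by positivity) ?_ ?_ ?_
      · apply Continuous.intervalIntegrable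
        refine Continuous.norm ?_
        have h5 : Continuous (fun θ : ℝ => (circleMap 0 ρ θ - z)⁻¹) :=
          ((continuous_circleMap 0 ρ).sub continuous_const).inv₀ hcne2
        have h6 : Continuous (fun θ : ℝ => deriv (circleMap 0 ρ) θ) := by
          simp only [deriv_circleMap]
          exact (continuous_circleMap 0 ρ).mul continuous_const
        exact h6.smul (h5.smul (hcc.pow n))
      · apply Continuous.intervalIntegrable
        exact continuous_const.mul (hcc.norm.pow n)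
      · intro θ _
        rw [norm_smul, norm_smul, norm_inv, norm_pow, deriv_circleMap, norm_mul, norm_circleMap_zero,
          Complex.norm_I, mul_one, abs_of_pos hρ0]
        have h7 := hcne θ
        calc ρ * (‖circleMap 0 ρ θ - z‖⁻¹ * ‖Θ (circleMap 0 ρ θ)‖ ^ n)
            ≤ 1 * ((ρ - ‖z‖)⁻¹ * ‖Θ (circleMap 0 ρ θ)‖ ^ n) := by
              gcongr
              exact hρ.2.le
          _ = 1 / (ρ - ‖z‖) * ‖Θ (circleMap 0 ρ θ)‖ ^ n := by ring
    have hpos : (1:ℝ) - ‖z‖ ≠ 0 := by linarith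
    have h2 : Tendsto (fun ρ : ℝ => 1 / (ρ - ‖z‖) *
        ∫ θ in (0:ℝ)..2 * Real.pi, ‖Θ (circleMap 0 ρ θ)‖ ^ n) (𝓝[<] 1)
        (𝓝 (1 / (1 - ‖z‖) * ∫ θ in (0:ℝ)..2 * Real.pi, (1:ℝ))) := by
      refine Tendsto.mul ?_ (inner_integral_tendsto h n)
      refine Tendsto.div tendsto_const_nhds ?_ hpos
      exact (tendsto_id.mono_left nhdsWithin_le_nhds).sub_const ‖z‖
    have h3 := ge_of_tendsto h2 h1
    rw [intervalIntegral.integral_const] at h3
    simp only [sub_zero, smul_eq_mul, mul_one] at h3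
    have hpi := Real.pi_pos
    have h4 : 2 * Real.pi * ‖Θ z‖ ^ n ≤ 2 * Real.pi * (1 / (1 - ‖z‖)) := by linarith
    exact le_of_mul_le_mul_left h4 (by positivity)
  by_contra hcon
  push Not at hcon
  have h5 := tendsto_pow_atTop_atTop_of_one_lt hcon
  obtain ⟨n, hn⟩ := (h5.eventually (eventually_gt_atTop (1 / (1 - ‖z‖)))).exists
  linarith [key n]

end BlochMult
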