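import Mathlib

namespace BlochMult

open Complex Metric Set Filter Topology MeasureTheory Interval

lemma differentiableOn_of_off_real {f : ℂ → ℂ} {c : ℂ} {r : ℝ}
    (hc : ContinuousOn f (ball c r)) (hd : ∀ z ∈ ball c r, z.im ≠ 0 → DifferentiableAt ℂ f z) :
    DifferentiableOn ℂ f (ball c r) := by
  refine (Complex.isConservativeOn_and_continuousOn_iff_isDifferentiableOn isOpen_ball).1 ⟨?_, hc⟩
  intro z w hzw
  rw [← add_eq_zero_iff_eq_neg, Complex.wedgeIntegral_add_wedgeIntegral_eq]
  have hrect : ([[z.re, w.re]] ×ℂ [[z.im, w.im]]) ⊆ ball c r := hzw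
  by_cases h0 : (0:ℝ) ∈ Ioo (min z.im w.im) (max z.im w.im)
  · have h0' : (0:ℝ) ∈ [[z.im, w.im]] := ⟨h0.1.le, h0.2.le⟩
    have hs1 : [[z.im, (0:ℝ)]] ⊆ [[z.im, w.im]] := uIcc_subset_uIcc left_mem_uIcc h0'
    have hs2 : [[(0:ℝ), w.im]] ⊆ [[z.im, w.im]] := uIcc_subset_uIcc h0' right_mem_uIcc
    set m1 : ℂ := ⟨w.re, 0⟩ with hm1
    set m2 : ℂ := ⟨z.re, 0⟩ with hm2
    have hsub1 : ([[z.re, m1.re]] ×ℂ [[z.im, m1.im]]) ⊆ ([[z.re, w.re]] ×ℂ [[z.im, w.im]]) :=
      inter_subset_inter (preimage_mono (by simp [hm1])) (preimage_mono (by simpa [hm1] using hs1))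
    have hsub2 : ([[m2.re, w.re]] ×ℂ [[m2.im, w.im]]) ⊆ ([[z.re, w.re]] ×ℂ [[z.im, w.im]]) :=
      inter_subset_inter (preimage_mono (by simp [hm2])) (preimage_mono (by simpa [hm2] using hs2))
    have e1 := Complex.integral_boundary_rect_eq_zero_of_continuousOn_of_differentiableOn f z m1
      (hc.mono (hsub1.trans hrect)) (by
        intro x hx
        have hx1 : x ∈ [[z.re, m1.re]] ×ℂ [[z.im, m1.im]] :=
          ⟨⟨hx.1.1.le, hx.1.2.le⟩, ⟨hx.2.1.le, hx.2.2.le⟩⟩
        refine (hd x (hrect (hsub1 hx1)) ?_).differentiableWithinAt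
        intro hx0
        have h5 := hx.2
        rw [mem_preimage, hx0] at h5
        have h6 : m1.im = 0 := rfl
        rw [h6] at h5
        rcases le_total z.im 0 with h | h
        · rw [max_eq_right h] at h5; exact lt_irrefl _ h5.2
        · rw [min_eq_right h] at h5; exact lt_irrefl _ h5.1)
    have e2 := Complex.integral_boundary_rect_eq_zero_of_continuousOn_of_differentiableOn f m2 w
      (hc.mono (hsub2.trans hrect)) (by
        intro x hx
        have hx1 : x ∈ [[m2.re, w.re]] ×ℂ [[m2.im, w.im]] :=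
          ⟨⟨hx.1.1.le, hx.1.2.le⟩, ⟨hx.2.1.le, hx.2.2.le⟩⟩
        refine (hd x (hrect (hsub2 hx1)) ?_).differentiableWithinAt
        intro hx0
        have h5 := hx.2
        rw [mem_preimage, hx0] at h5
        have h6 : m2.im = 0 := rfl
        rw [h6] at h5
        rcases le_total w.im 0 with h | h
        · rw [max_eq_left h] at h5; exact lt_irrefl _ h5.2
        · rw [min_eq_left h] at h5; exact lt_irrefl _ h5.1)
    have hcont : ∀ x : ℝ, x ∈ [[z.re, w.re]] → ContinuousOn (fun y : ℝ => f (x + y * I))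
        [[z.im, w.im]] := by
      intro x hx
      refine hc.comp (by fun_prop) ?_
      intro y hy
      refine hrect ⟨?_, ?_⟩
      · simpa using hx
      · simpa using hy
    have hint : ∀ x : ℝ, x ∈ [[z.re, w.re]] →
        (∫ y : ℝ in z.im..w.im, f (x + y * I)) =
        (∫ y : ℝ in z.im..0, f (x + y * I)) + (∫ y : ℝ in (0:ℝ)..w.im, f (x + y * I)) := by
      intro x hx
      rw [intervalIntegral.integral_add_adjacent_intervals]
      · exact ((hcont x hx).mono hs1).intervalIntegrable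
      · exact ((hcont x hx).mono hs2).intervalIntegrable
    rw [hint _ right_mem_uIcc, hint _ left_mem_uIcc]
    have h7 : m1.re = w.re := rfl
    have h8 : m1.im = 0 := rfl
    have h9 : m2.re = z.re := rfl
    have h10 : m2.im = 0 := rfl
    rw [h7, h8] at e1
    rw [h9, h10] at e2
    have := congrArg₂ (· + ·) e1 e2
    simp only [add_zero] at this
    rw [← this]
    simp only [smul_add]
    ring
  · refine Complex.integral_boundary_rect_eq_zero_of_continuousOn_of_differentiableOn f z w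
      (hc.mono hrect) ?_
    intro x hx
    have hx1 : x ∈ [[z.re, w.re]] ×ℂ [[z.im, w.im]] :=
      ⟨⟨hx.1.1.le, hx.1.2.le⟩, ⟨hx.2.1.le, hx.2.2.le⟩⟩
    refine (hd x (hrect hx1) ?_).differentiableWithinAt
    intro hx0
    apply h0
    rw [← hx0]
    exact hx.2

end BlochMult
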