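import Pool.Agent.Bloch.AvgMorera
import Pool.Agent.Bloch.InnerBasic

namespace BlochMult

open Complex Metric Set Filter Topology MeasureTheory Interval

theorem reflect_half {F : ℂ → ℂ} (hF : ∀ ζ : ℂ, 0 < ζ.im → DifferentiableAt ℂ F ζ)
    (hF1 : ∀ ζ : ℂ, 0 < ζ.im → ‖F ζ‖ ≤ 1)
    (hrad : ∀ᵐ x : ℝ, ∃ w : ℂ, ‖w‖ = 1 ∧ Tendsto (fun y : ℝ => F (x + y * I)) (𝓝[>] 0) (𝓝 w))
    {ε : ℝ} (hε : 0 < ε) {ζ₀ : ℂ} (h0 : 0 < ζ₀.im) {ρ : ℝ} (hρ : 0 < ρ)
    (hlow : ∀ ζ : ℂ, 0 < ζ.im → ‖ζ - ζ₀‖ < ρ → ε ≤ ‖F ζ‖) :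
    ‖deriv F ζ₀‖ ≤ 1 / ε / ρ := by
  classical
  have hε1 : ε ≤ 1 := (hlow ζ₀ h0 (by simpa using hρ)).trans (hF1 ζ₀ h0)
  have hε2 : 1 ≤ 1 / ε := by rw [le_div_iff₀ hε]; linarith
  set g : ℝ → ℂ := fun x => if h : ∃ w : ℂ, ‖w‖ = 1 ∧
    Tendsto (fun y : ℝ => F (x + y * I)) (𝓝[>] 0) (𝓝 w) then h.choose else 1 with hg
  have hg1 : ∀ x, ‖g x‖ = 1 := by
    intro x
    simp only [hg]
    split_ifs with h
    · exact h.choose_spec.1
    · simp
  have hg2 : ∀ᵐ x : ℝ, Tendsto (fun y : ℝ => F (x + y * I)) (𝓝[>] 0) (𝓝 (g x)) := by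
    filter_upwards [hrad] with x hx
    simp only [hg]
    rw [dif_pos hx]
    exact hx.choose_spec.2
  have hFc : ∀ y : ℝ, 0 < y → Continuous (fun x : ℝ => F (x + y * I)) := by
    intro y hy
    rw [continuous_iff_continuousAt]
    intro x
    have h1 : ContinuousAt F (x + y * I) := (hF _ (by simpa using hy)).continuousAt
    have h2 : ContinuousAt (fun x : ℝ => (x:ℂ) + y * I) x := by fun_prop
    exact ContinuousAt.comp (f := fun x : ℝ => (x:ℂ) + y * I) h1 h2
  set G : ℂ → ℂ := fun ζ => if 0 < ζ.im then F ζ else if ζ.im < 0 then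
    ((starRingEnd ℂ) (F ((starRingEnd ℂ) ζ)))⁻¹ else g ζ.re with hG
  have hGpos : ∀ ζ : ℂ, 0 < ζ.im → G ζ = F ζ := by
    intro ζ hζ
    simp only [hG]
    rw [if_pos hζ]
  have hGneg : ∀ ζ : ℂ, ζ.im < 0 → G ζ = ((starRingEnd ℂ) (F ((starRingEnd ℂ) ζ)))⁻¹ := by
    intro ζ hζ
    simp only [hG]
    rw [if_neg (by linarith), if_pos hζ]
  have hGzero : ∀ ζ : ℂ, ζ.im = 0 → G ζ = g ζ.re := by
    intro ζ hζ
    simp only [hG]
    rw [if_neg (by linarith), if_neg (by linarith)]
  have hconj : ∀ ζ ∈ ball ζ₀ ρ, ζ.im < 0 → ε ≤ ‖F ((starRingEnd ℂ) ζ)‖ := by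
    intro ζ hζ him
    refine hlow _ (by simpa using him) ?_
    rw [mem_ball, dist_eq_norm] at hζ
    refine lt_of_le_of_lt ?_ hζ
    rw [← pow_le_pow_iff_left₀ (norm_nonneg _) (norm_nonneg _) two_ne_zero, Complex.sq_norm,
      Complex.sq_norm, Complex.normSq_apply, Complex.normSq_apply]
    simp
    nlinarith [mul_pos h0 (neg_pos.mpr him)]
  have hGe : (fun ζ => deriv G ζ) ζ₀ = deriv F ζ₀ := by
    apply Filter.EventuallyEq.deriv_eq
    have : ∀ᶠ ζ in 𝓝 ζ₀, 0 < ζ.im := Complex.continuous_im.continuousAt.eventually_const_lt h0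
    filter_upwards [this] with ζ hζ
    exact hGpos ζ hζ
  rw [← hGe]
  refine deriv_bound_across hρ (by positivity) h0 ?_ ?_ ?_ ?_
  · intro ζ hζ
    rcases lt_trichotomy ζ.im 0 with h | h | h
    · rw [hGneg ζ h, norm_inv, RCLike.norm_conj, ← one_div]
      exact one_div_le_one_div_of_le hε (hconj ζ hζ h)
    · rw [hGzero ζ h, hg1]
      exact hε2
    · rw [hGpos ζ h]
      exact (hF1 ζ h).trans hε2
  · intro ζ hζ him
    rcases lt_or_gt_of_ne him with h | h
    · have h1 : G =ᶠ[𝓝 ζ] fun ζ => ((starRingEnd ℂ) (F ((starRingEnd ℂ) ζ)))⁻¹ := by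
        have : ∀ᶠ ζ' in 𝓝 ζ, ζ'.im < 0 := Complex.continuous_im.continuousAt.eventually_lt_const h
        filter_upwards [this] with ζ' hζ'
        exact hGneg ζ' hζ'
      rw [h1.differentiableAt_iff]
      apply DifferentiableAt.inv
      · have h2 : DifferentiableAt ℂ F ((starRingEnd ℂ) ζ) := hF _ (by simpa using h)
        have h3 := h2.conj_conj
        simp only [Complex.conj_conj] at h3
        exact h3
      · intro h4
        rw [map_eq_zero] at h4
        have h5 := hconj ζ hζ h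
        rw [h4, norm_zero] at h5
        linarith
    · have h1 : G =ᶠ[𝓝 ζ] F := by
        have : ∀ᶠ ζ' in 𝓝 ζ, 0 < ζ'.im := Complex.continuous_im.continuousAt.eventually_const_lt h
        filter_upwards [this] with ζ' hζ'
        exact hGpos ζ' hζ'
      rw [h1.differentiableAt_iff]
      exact hF ζ h
  · intro y
    rcases lt_trichotomy y 0 with h | h | h
    · have h1 : (fun x : ℝ => G (x + y * I)) =
          fun x : ℝ => ((starRingEnd ℂ) (F (x + (-y : ℝ) * I)))⁻¹ := by
        ext x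
        rw [hGneg _ (by simpa using h)]
        simp
      rw [h1]
      apply Measurable.aestronglyMeasurable
      apply Measurable.inv
      exact (Complex.continuous_conj.comp (hFc (-y) (by linarith))).measurable
    · have h1 : (fun x : ℝ => G (x + y * I)) = g := by
        ext x
        rw [hGzero _ (by simpa using h)]
        simp
      rw [h1]
      refine aestronglyMeasurable_of_tendsto_ae (u := atTop)
        (f := fun (n : ℕ) (x : ℝ) => F (x + ((1 / ((n:ℝ) + 1) : ℝ) : ℂ) * I)) ?_ ?_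
      · intro n
        exact (hFc _ (by positivity)).aestronglyMeasurable
      · filter_upwards [hg2] with x hx
        have h2 : Tendsto (fun n : ℕ => 1 / ((n:ℝ) + 1)) atTop (𝓝[>] 0) := by
          refine tendsto_nhdsWithin_iff.2 ⟨tendsto_one_div_add_atTop_nhds_zero_nat, ?_⟩
          exact Eventually.of_forall fun n => by simp only [mem_Ioi]; positivity
        exact hx.comp h2
    · have h1 : (fun x : ℝ => G (x + y * I)) = fun x : ℝ => F (x + y * I) := by
        ext x
        rw [hGpos _ (by simpa using h)]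
      rw [h1]
      exact (hFc y h).aestronglyMeasurable
  · filter_upwards [hg2] with x hx _
    have h00 : (fun y : ℝ => G (x + y * I)) 0 = g x := by
      simp only
      rw [hGzero _ (by simp)]
      simp
    rw [continuousAt_iff_continuous_left'_right']
    constructor
    · unfold ContinuousWithinAt
      rw [h00]
      have h2 : Tendsto (fun y : ℝ => ((starRingEnd ℂ) (F (x + y * I)))⁻¹) (𝓝[>] 0)
          (𝓝 ((starRingEnd ℂ) (g x))⁻¹) := by
        refine Tendsto.inv₀ ?_ ?_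
        · exact (Complex.continuous_conj.tendsto _).comp hx
        · rw [Ne, map_eq_zero, ← norm_eq_zero, hg1]
          norm_num
      have h3 : ((starRingEnd ℂ) (g x))⁻¹ = g x := by
        apply inv_eq_of_mul_eq_one_right
        rw [mul_comm, Complex.mul_conj, Complex.normSq_eq_norm_sq, hg1]
        simp
      rw [h3] at h2
      have h4 : Tendsto (fun y : ℝ => -y) (𝓝[<] 0) (𝓝[>] 0) := by
        refine tendsto_nhdsWithin_iff.2 ⟨?_, ?_⟩
        · have : Tendsto (fun y : ℝ => -y) (𝓝 0) (𝓝 (-0)) := (continuous_neg).tendsto 0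
          rw [neg_zero] at this
          exact this.mono_left nhdsWithin_le_nhds
        · filter_upwards [self_mem_nhdsWithin] with y hy
          simpa using hy
      have h5 := h2.comp h4
      refine h5.congr' ?_
      filter_upwards [self_mem_nhdsWithin] with y hy
      rw [hGneg _ (by simpa using hy)]
      simp
    · unfold ContinuousWithinAt
      rw [h00]
      refine hx.congr' ?_
      filter_upwards [self_mem_nhdsWithin] with y hy
      rw [hGpos _ (by simpa using hy)]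


theorem reflect_disc {Θ : ℂ → ℂ} (hΘ : IsInner Θ) {ε : ℝ} (hε : 0 < ε) {z : ℂ}
    (hz : 1 / 2 ≤ ‖z‖) (hz1 : ‖z‖ < 1) {ρ : ℝ} (hρ : 0 < ρ)
    (h : ∀ w : ℂ, ‖w‖ < 1 → ‖w - z‖ < ρ → ε ≤ ‖Θ w‖) :
    ‖deriv Θ z‖ ≤ 2 / (ε * ρ) := by
  have hz0 : z ≠ 0 := by
    intro h0
    rw [h0, norm_zero] at hz
    norm_num at hz
  have hnz : 0 < ‖z‖ := norm_pos_iff.mpr hz0
  set ζ₀ : ℂ := -I * Complex.log z with hζ₀
  have hexp : Complex.exp (I * ζ₀) = z := by
    rw [hζ₀, ← mul_assoc]
    have : I * -I = 1 := by simp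
    rw [this, one_mul, Complex.exp_log hz0]
  have him : ζ₀.im = -Real.log ‖z‖ := by
    rw [hζ₀]
    simp [Complex.log_re]
  have him0 : 0 < ζ₀.im := by
    rw [him]
    have := Real.log_neg hnz hz1
    linarith
  have hnorm : ∀ ζ : ℂ, ‖Complex.exp (I * ζ)‖ = Real.exp (-ζ.im) := by
    intro ζ
    rw [Complex.norm_exp]
    simp
  have hlt : ∀ ζ : ℂ, 0 < ζ.im → ‖Complex.exp (I * ζ)‖ < 1 := by
    intro ζ hζ
    rw [hnorm, Real.exp_lt_one_iff]
    linarith
  set F : ℂ → ℂ := fun ζ => Θ (Complex.exp (I * ζ)) with hFdef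
  have hder : ∀ ζ : ℂ, 0 < ζ.im → HasDerivAt F
      (deriv Θ (Complex.exp (I * ζ)) * (Complex.exp (I * ζ) * I)) ζ := by
    intro ζ hζ
    have h1 : HasDerivAt Θ (deriv Θ (Complex.exp (I * ζ))) (Complex.exp (I * ζ)) :=
      (hΘ.1.differentiableAt (isOpen_ball.mem_nhds (by simpa using hlt ζ hζ))).hasDerivAt
    have h2 : HasDerivAt (fun ζ : ℂ => Complex.exp (I * ζ)) (Complex.exp (I * ζ) * I) ζ := by
      have h3 : HasDerivAt (fun ζ : ℂ => I * ζ) I ζ := by
        simpa using (hasDerivAt_id ζ).const_mul I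
      exact h3.cexp
    exact h1.comp ζ h2
  have key := reflect_half (F := F) (ε := ε) (ζ₀ := ζ₀) (ρ := ρ)
    (fun ζ hζ => (hder ζ hζ).differentiableAt)
    (fun ζ hζ => inner_le_one hΘ (hlt ζ hζ))
    (by
      filter_upwards [hΘ.2.2] with x hx
      obtain ⟨w, hw, ht⟩ := hx
      refine ⟨w, hw, ?_⟩
      have h4 : Tendsto (fun y : ℝ => Real.exp (-y)) (𝓝[>] 0) (𝓝[<] 1) := by
        refine tendsto_nhdsWithin_iff.2 ⟨?_, ?_⟩
        · have h5 : Continuous (fun y : ℝ => Real.exp (-y)) := by fun_prop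
          have h6 := h5.tendsto 0
          simp only [neg_zero, Real.exp_zero] at h6
          exact h6.mono_left nhdsWithin_le_nhds
        · filter_upwards [self_mem_nhdsWithin] with y hy
          rw [mem_Iio, Real.exp_lt_one_iff]
          simpa using hy
      refine (ht.comp h4).congr ?_
      intro y
      simp only [Function.comp_apply, hFdef]
      congr 1
      rw [Complex.ofReal_exp, ← Complex.exp_add]
      congr 1
      push_cast
      linear_combination (-(y:ℂ)) * Complex.I_sq)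
    hε him0 hρ
    (by
      intro ζ hζ hd
      refine h _ (hlt ζ hζ) ?_
      refine lt_of_le_of_lt ?_ hd
      rw [← hexp]
      -- MVT on the upper half plane
      have hconv : Convex ℝ {ζ : ℂ | 0 < ζ.im} := convex_halfSpace_im_gt 0
      have := hconv.norm_image_sub_le_of_norm_hasDerivWithin_le
        (f := fun ζ : ℂ => Complex.exp (I * ζ)) (f' := fun ζ => Complex.exp (I * ζ) * I) (C := 1)
        (x := ζ₀) (y := ζ)
        (by
          intro ζ _
          have h3 : HasDerivAt (fun ζ : ℂ => I * ζ) I ζ := by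
            simpa using (hasDerivAt_id ζ).const_mul I
          exact h3.cexp.hasDerivWithinAt)
        (by
          intro ζ hζ
          rw [norm_mul, Complex.norm_I, mul_one]
          exact (hlt ζ hζ).le)
        him0 hζ
      simpa using this)
  rw [(hder ζ₀ him0).deriv, hexp, norm_mul, norm_mul, Complex.norm_I, mul_one] at key
  have h5 : ‖deriv Θ z‖ * (1 / 2) ≤ ‖deriv Θ z‖ * ‖z‖ := by gcongr
  have h6 : 1 / ε / ρ = 1 / (ε * ρ) := by rw [div_div]
  have h7 : 2 / (ε * ρ) = 2 * (1 / (ε * ρ)) := by ring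
  rw [h7]
  rw [h6] at key
  linarith

end BlochMult
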