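import Pool.Agent.Bloch.FinBl

namespace BlochMult

open Complex Metric Set Filter Topology

/-- rotation factor -/
noncomputable def rotf (e p : ℂ) : ℂ := e * (1 - (starRingEnd ℂ) p) / (1 - p)

/-- normalised automorphism: `p ↦ 0`, `1 ↦ e` -/
noncomputable def psi (e p z : ℂ) : ℂ := rotf e p * mob p z

section
variable {e p : ℂ}

lemma one_sub_ne (hp : ‖p‖ < 1) : (1:ℂ) - p ≠ 0 := by
  intro h
  have : p = 1 := (sub_eq_zero.mp h).symm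
  rw [this, norm_one] at hp
  exact lt_irrefl _ hp

lemma norm_one_sub_conj (p : ℂ) : ‖1 - (starRingEnd ℂ) p‖ = ‖1 - p‖ := by
  have : 1 - (starRingEnd ℂ) p = (starRingEnd ℂ) (1 - p) := by simp
  rw [this, RCLike.norm_conj]

lemma norm_rotf (he : ‖e‖ = 1) (hp : ‖p‖ < 1) : ‖rotf e p‖ = 1 := by
  unfold rotf
  rw [norm_div, norm_mul, he, one_mul, norm_one_sub_conj, div_self]
  exact (norm_pos_iff.mpr (one_sub_ne hp)).ne'

lemma norm_psi (he : ‖e‖ = 1) (hp : ‖p‖ < 1) (z : ℂ) : ‖psi e p z‖ = ‖mob p z‖ := by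
  unfold psi
  rw [norm_mul, norm_rotf he hp, one_mul]

lemma psi_self (e p : ℂ) : psi e p p = 0 := by
  unfold psi
  rw [mob_self, mul_zero]

lemma psi_one (e : ℂ) (hp : ‖p‖ < 1) : psi e p 1 = e := by
  unfold psi rotf mob
  have h1 := one_sub_ne hp
  have h2 : (1:ℂ) - (starRingEnd ℂ) p ≠ 0 := by
    have := one_sub_ne (p := (starRingEnd ℂ) p) (by rw [RCLike.norm_conj]; exact hp)
    exact this
  rw [mul_one]
  field_simp

lemma norm_psi_sub (he : ‖e‖ = 1) (hp : ‖p‖ < 1) {z : ℂ} (hz : ‖z‖ ≤ 1) :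
    ‖psi e p z - e‖ = (1 - ‖p‖ ^ 2) * ‖z - 1‖ / (‖1 - (starRingEnd ℂ) p * z‖ * ‖1 - p‖) := by
  have h1 : psi e p z - e = rotf e p * (mob p z - mob p 1) := by
    rw [mul_sub]
    change psi e p z - e = psi e p z - psi e p 1
    rw [psi_one e hp]
  rw [h1, norm_mul, norm_rotf he hp, one_mul, mob_sub hp hz (by simp), norm_div, norm_mul, norm_mul,
    mul_one, norm_one_sub_conj, Complex.norm_real, Real.norm_of_nonneg]
  nlinarith [norm_nonneg p]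

lemma hasDerivAt_psi (e : ℂ) (hp : ‖p‖ < 1) {z : ℂ} (hz : ‖z‖ ≤ 1) :
    HasDerivAt (psi e p) (rotf e p * (((1 - ‖p‖ ^ 2 : ℝ) : ℂ) / (1 - (starRingEnd ℂ) p * z) ^ 2)) z :=
  (hasDerivAt_mob (den_ne hp hz)).const_mul _

lemma norm_deriv_psi (he : ‖e‖ = 1) (hp : ‖p‖ < 1) {z : ℂ} (hz : ‖z‖ ≤ 1) :
    ‖deriv (psi e p) z‖ = (1 - ‖p‖ ^ 2) / ‖1 - (starRingEnd ℂ) p * z‖ ^ 2 := by
  rw [(hasDerivAt_psi e hp hz).deriv, norm_mul, norm_rotf he hp, one_mul, norm_div, norm_pow,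
    Complex.norm_real, Real.norm_of_nonneg]
  nlinarith [norm_nonneg p]

lemma psi_le_one (he : ‖e‖ = 1) (hp : ‖p‖ < 1) {z : ℂ} (hz : ‖z‖ ≤ 1) : ‖psi e p z‖ ≤ 1 := by
  rw [norm_psi he hp]
  exact norm_mob_le_one hp hz

lemma psi_lt_one (he : ‖e‖ = 1) (hp : ‖p‖ < 1) {z : ℂ} (hz : ‖z‖ < 1) : ‖psi e p z‖ < 1 := by
  rw [norm_psi he hp]
  exact norm_mob_lt_one hp hz

lemma fac_psi (he : ‖e‖ = 1) (hp : ‖p‖ < 1) : Fac (psi e p) where
  diff := fun z hz => (hasDerivAt_psi e hp (by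
    rw [mem_ball, dist_zero_right] at hz; exact hz.le)).differentiableAt.differentiableWithinAt
  cont := fun z hz => (hasDerivAt_psi e hp (by
    simpa using hz)).continuousAt.continuousWithinAt
  le_one := fun z hz => psi_le_one he hp hz
  eq_one := fun z hz => by rw [norm_psi he hp]; exact norm_mob_eq_one hp hz

/-- `p` with `1-|p| = σ`, `|1-p| = D` -/
structure Site (p : ℂ) (σ D : ℝ) : Prop where
  hp : ‖p‖ = 1 - σ
  hD : ‖1 - p‖ = D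
  hσ : 0 < σ
  hσD : 16 * σ ≤ D
  hD1 : D ≤ 1

variable {σ D : ℝ}

lemma Site.lt (h : Site p σ D) : ‖p‖ < 1 := by rw [h.hp]; linarith [h.hσ]

lemma Site.D0 (h : Site p σ D) : 0 < D := by linarith [h.hσ, h.hσD]

lemma Site.sq_le (h : Site p σ D) : 1 - ‖p‖ ^ 2 ≤ 2 * σ := by
  rw [h.hp]
  nlinarith [h.hσ]

lemma Site.sq_nonneg' (h : Site p σ D) : 0 ≤ 1 - ‖p‖ ^ 2 := by
  have := h.lt
  nlinarith [norm_nonneg p]

lemma Site.sub_one_le (h : Site p σ D) {z : ℂ} (hz : ‖z‖ ≤ 1) :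
    ‖z - 1‖ ≤ ‖1 - (starRingEnd ℂ) p * z‖ + D := by
  have h1 : z - 1 = -(1 - (starRingEnd ℂ) p * z) + (1 - (starRingEnd ℂ) p) * z := by ring
  rw [h1]
  refine (norm_add_le _ _).trans ?_
  rw [norm_neg, norm_mul, norm_one_sub_conj, h.hD]
  have := h.D0
  nlinarith [norm_nonneg z]

lemma Site.near_upper (h : Site p σ D) {z : ℂ} (hz : ‖z‖ ≤ 1)
    (hn : ‖1 - (starRingEnd ℂ) p * z‖ < D / 4) : ‖z - 1‖ ≤ 5 / 4 * D := by
  have := h.sub_one_le hz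
  linarith

lemma Site.near_lower (h : Site p σ D) {z : ℂ}
    (hn : ‖1 - (starRingEnd ℂ) p * z‖ < D / 4) : 3 / 4 * D ≤ ‖z - 1‖ := by
  have h1 : 1 - (starRingEnd ℂ) p = (1 - (starRingEnd ℂ) p * z) + (starRingEnd ℂ) p * (z - 1) := by ring
  have h2 : D ≤ ‖1 - (starRingEnd ℂ) p * z‖ + ‖z - 1‖ := by
    rw [← h.hD, ← norm_one_sub_conj, h1]
    refine (norm_add_le _ _).trans ?_
    rw [norm_mul, RCLike.norm_conj]
    have := h.lt
    nlinarith [norm_nonneg (z - 1)]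
  linarith

lemma Site.far_close (h : Site p σ D) (he : ‖e‖ = 1) {z : ℂ} (hz : ‖z‖ ≤ 1)
    (hf : D / 4 ≤ ‖1 - (starRingEnd ℂ) p * z‖) : ‖psi e p z - e‖ ≤ 10 * σ / D := by
  rw [norm_psi_sub he h.lt hz, h.hD]
  have hD := h.D0
  have h1 := h.sub_one_le hz
  have h2 : 0 < ‖1 - (starRingEnd ℂ) p * z‖ := by linarith
  rw [div_le_div_iff₀ (by positivity) hD]
  have h3 := h.sq_le
  have h4 := h.sq_nonneg'
  have hσ := h.hσ
  calc (1 - ‖p‖ ^ 2) * ‖z - 1‖ * D ≤ (2 * σ) * (5 * ‖1 - (starRingEnd ℂ) p * z‖) * D := by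
        gcongr
        linarith
    _ = 10 * σ * (‖1 - (starRingEnd ℂ) p * z‖ * D) := by ring

lemma Site.gen_close (h : Site p σ D) (he : ‖e‖ = 1) {z : ℂ} (hz : ‖z‖ ≤ 1) :
    ‖psi e p z - e‖ ≤ 2 * ‖z - 1‖ / D := by
  rw [norm_psi_sub he h.lt hz, h.hD]
  have hD := h.D0
  have h1 := den_ge_left (p := p) hz
  rw [h.hp] at h1
  have hσ := h.hσ
  have h2 : σ ≤ ‖1 - (starRingEnd ℂ) p * z‖ := by linarith
  have h2' : 0 < ‖1 - (starRingEnd ℂ) p * z‖ := by linarith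
  rw [div_le_div_iff₀ (by positivity) hD]
  have h3 := h.sq_le
  have h4 := h.sq_nonneg'
  calc (1 - ‖p‖ ^ 2) * ‖z - 1‖ * D ≤ (2 * ‖1 - (starRingEnd ℂ) p * z‖) * ‖z - 1‖ * D := by
        gcongr
        linarith
    _ = 2 * ‖z - 1‖ * (‖1 - (starRingEnd ℂ) p * z‖ * D) := by ring

lemma Site.self_near (h : Site p σ D) : ‖1 - (starRingEnd ℂ) p * p‖ < D / 4 := by
  have h3 : 1 - (starRingEnd ℂ) p * p = ((1 - ‖p‖ ^ 2 : ℝ) : ℂ) := by
    push_cast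
    rw [← Complex.ofReal_pow, ← Complex.normSq_eq_norm_sq, ← Complex.normSq_eq_conj_mul_self]
  rw [h3, Complex.norm_real, Real.norm_of_nonneg h.sq_nonneg']
  have h4 := h.sq_le
  have h5 := h.hσD
  have h6 := h.hσ
  linarith

lemma exists_site {σ D : ℝ} (hσ : 0 < σ) (hσD : 16 * σ ≤ D) (hD1 : D ≤ 1) : ∃ p : ℂ, Site p σ D := by
  have hD0 : 0 < D := by linarith
  set x : ℝ := ((1 - σ) ^ 2 + 1 - D ^ 2) / 2 with hx
  have h1 : x ≤ 1 - σ := by rw [hx]; nlinarith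
  have h2 : -(1 - σ) ≤ x := by rw [hx]; nlinarith
  have h3 : 0 ≤ (1 - σ) ^ 2 - x ^ 2 := by nlinarith
  refine ⟨⟨x, Real.sqrt ((1 - σ) ^ 2 - x ^ 2)⟩, ?_, ?_, hσ, hσD, hD1⟩
  · have h4 : 0 ≤ 1 - σ := by linarith
    rw [Complex.norm_def, Complex.normSq_apply]
    have h5 : x * x + Real.sqrt ((1 - σ) ^ 2 - x ^ 2) * Real.sqrt ((1 - σ) ^ 2 - x ^ 2) =
        (1 - σ) ^ 2 := by
      rw [Real.mul_self_sqrt h3]
      ring
    simp only
    rw [h5, Real.sqrt_sq h4]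
  · rw [← Real.sqrt_sq hD0.le, Complex.norm_def, Complex.normSq_apply]
    congr 1
    simp only [Complex.sub_re, Complex.one_re, Complex.sub_im, Complex.one_im]
    have h5 : (0 - Real.sqrt ((1 - σ) ^ 2 - x ^ 2)) * (0 - Real.sqrt ((1 - σ) ^ 2 - x ^ 2)) =
      (1 - σ) ^ 2 - x ^ 2 := by
      rw [zero_sub, neg_mul_neg, Real.mul_self_sqrt h3]
    rw [h5, hx]
    ring

end

end BlochMult
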