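import Pool.Agent.Bloch.Reflect
import Pool.Agent.Bloch.Diff

namespace BlochMult

open Complex Metric Set Filter Topology MeasureTheory Interval

/-- truncated modulus -/
noncomputable def trunc (ω : ℝ → ℝ) (t₀ : ℝ) (t : ℝ) : ℝ := ω (min t t₀)

lemma trunc_mono {ω : ℝ → ℝ} (hω : IsModulus ω) {t₀ : ℝ} (h0 : 0 < t₀) (h1 : t₀ < 1)
    {s t : ℝ} (hs : 0 < s) (hst : s ≤ t) : trunc ω t₀ s ≤ trunc ω t₀ t := by
  apply hω.2.1
  · exact ⟨lt_min hs h0, (min_le_right _ _).trans_lt h1⟩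
  · exact ⟨lt_min (hs.trans_le hst) h0, (min_le_right _ _).trans_lt h1⟩
  · exact min_le_min_right _ hst

lemma trunc_pos {ω : ℝ → ℝ} (hω : IsModulus ω) {t₀ : ℝ} (h0 : 0 < t₀) (h1 : t₀ < 1)
    {t : ℝ} (ht : 0 < t) : 0 < trunc ω t₀ t :=
  hω.2.2 _ ⟨lt_min ht h0, (min_le_right _ _).trans_lt h1⟩

lemma trunc_le {ω : ℝ → ℝ} (hω : IsModulus ω) {t₀ : ℝ} (h0 : 0 < t₀) (h1 : t₀ < 1)
    {t : ℝ} (ht : 0 < t) (ht1 : t < 1) : trunc ω t₀ t ≤ ω t := by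
  apply hω.2.1
  · exact ⟨lt_min ht h0, (min_le_right _ _).trans_lt h1⟩
  · exact ⟨ht, ht1⟩
  · exact min_le_left _ _

lemma memB_to {ω : ℝ → ℝ} (hω : IsModulus ω) {t₀ : ℝ} (h0 : 0 < t₀) (h1 : t₀ < 1)
    {f : ℂ → ℂ} (hf : MemB ω f) :
    ∃ A : ℝ, 0 ≤ A ∧ ∀ z : ℂ, ‖z‖ < 1 →
      ‖deriv f z‖ ≤ A * trunc ω t₀ (1 - ‖z‖) / (1 - ‖z‖) := by
  obtain ⟨hd, C, r, ⟨hr0, hr1⟩, hC⟩ := hf
  set r' := max r (1 - t₀) with hr'
  have hr'1 : r' < 1 := max_lt hr1 (by linarith)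
  have hcd : ContinuousOn (deriv f) (ball 0 1) := (hd.deriv isOpen_ball).continuousOn
  have hcomp : IsCompact (closedBall (0:ℂ) r') := isCompact_closedBall 0 r'
  obtain ⟨B, hB⟩ := hcomp.exists_bound_of_continuousOn (hcd.mono (closedBall_subset_ball hr'1))
  have hW := trunc_pos hω h0 h1 (show 0 < 1 - r' by linarith)
  refine ⟨max |C| (|B| / trunc ω t₀ (1 - r')), le_max_of_le_left (abs_nonneg _), ?_⟩
  intro z hz
  have hz1 : 0 < 1 - ‖z‖ := by linarith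
  have hWz := trunc_pos hω h0 h1 hz1
  rw [le_div_iff₀ hz1]
  rcases le_or_gt ‖z‖ r' with h | h
  · have h2 := hB z (by simpa using h)
    have h3 := trunc_mono hω h0 h1 (show 0 < 1 - r' by linarith) (show 1 - r' ≤ 1 - ‖z‖ by linarith)
    calc ‖deriv f z‖ * (1 - ‖z‖) ≤ |B| * 1 := by
          apply mul_le_mul (h2.trans (le_abs_self B)) _ hz1.le (abs_nonneg _)
          linarith [norm_nonneg z]
      _ = |B| / trunc ω t₀ (1 - r') * trunc ω t₀ (1 - r') := by field_simp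
      _ ≤ max |C| (|B| / trunc ω t₀ (1 - r')) * trunc ω t₀ (1 - ‖z‖) := by
          apply mul_le_mul (le_max_right _ _) h3 hW.le
          exact le_max_of_le_left (abs_nonneg _)
  · have h2 := hC z (lt_of_le_of_lt (le_max_left _ _) h) hz
    have h3 : trunc ω t₀ (1 - ‖z‖) = ω (1 - ‖z‖) := by
      unfold trunc
      rw [min_eq_left]
      have := (le_max_right r (1 - t₀)).trans_lt h
      linarith
    rw [h3] at hWz ⊢
    refine h2.trans ?_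
    apply mul_le_mul_of_nonneg_right _ hWz.le
    exact (le_abs_self C).trans (le_max_left _ _)

lemma memB_of {ω : ℝ → ℝ} {t₀ : ℝ} (h0 : 0 < t₀)
    {f : ℂ → ℂ} (hf : DifferentiableOn ℂ f (ball 0 1)) {A : ℝ}
    (hA : ∀ z : ℂ, 1 / 2 ≤ ‖z‖ → ‖z‖ < 1 →
      ‖deriv f z‖ * (1 - ‖z‖) ≤ A * trunc ω t₀ (1 - ‖z‖)) : MemB ω f := by
  refine ⟨hf, A, max (1 / 2) (1 - t₀), ⟨lt_max_of_lt_left (by norm_num),
    max_lt (by norm_num) (by linarith)⟩, ?_⟩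
  intro z hz hz1
  have h2 := hA z ((le_max_left _ _).trans hz.le) hz1
  have h3 : trunc ω t₀ (1 - ‖z‖) = ω (1 - ‖z‖) := by
    unfold trunc
    rw [min_eq_left]
    have := (le_max_right (1 / 2) (1 - t₀)).trans_lt hz
    linarith
  rwa [h3] at h2

lemma sfin_to {ω : ℝ → ℝ} (hω : IsModulus ω) {t₀ : ℝ} (h0 : 0 < t₀) (h1 : t₀ < 1)
    {f Θ : ℂ → ℂ} (hf : DifferentiableOn ℂ f (ball 0 1)) {ε : ℝ} (hS : SFin ω f Θ ε) :
    ∃ M : ℝ, 0 ≤ M ∧ ∀ z : ℂ, ‖z‖ < 1 → ‖Θ z‖ < ε → ‖f z‖ ≤ M * trunc ω t₀ (1 - ‖z‖) := by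
  obtain ⟨M, hM⟩ := hS
  have hr'1 : 1 - t₀ < 1 := by linarith
  have hcomp : IsCompact (closedBall (0:ℂ) (1 - t₀)) := isCompact_closedBall 0 _
  obtain ⟨B, hB⟩ := hcomp.exists_bound_of_continuousOn
    (hf.continuousOn.mono (closedBall_subset_ball hr'1))
  have hW := trunc_pos hω h0 h1 (show 0 < t₀ from h0)
  refine ⟨max |M| (|B| / trunc ω t₀ t₀), le_max_of_le_left (abs_nonneg _), ?_⟩
  intro z hz hΘ
  have hz1 : 0 < 1 - ‖z‖ := by linarith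
  have hWz := trunc_pos hω h0 h1 hz1
  rcases le_or_gt ‖z‖ (1 - t₀) with h | h
  · have h2 := hB z (by simpa using h)
    have h3 := trunc_mono hω h0 h1 h0 (show t₀ ≤ 1 - ‖z‖ by linarith)
    calc ‖f z‖ ≤ |B| := h2.trans (le_abs_self B)
      _ = |B| / trunc ω t₀ t₀ * trunc ω t₀ t₀ := by field_simp
      _ ≤ max |M| (|B| / trunc ω t₀ t₀) * trunc ω t₀ (1 - ‖z‖) := by
          apply mul_le_mul (le_max_right _ _) h3 hW.le
          exact le_max_of_le_left (abs_nonneg _)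
  · have h3 : trunc ω t₀ (1 - ‖z‖) = ω (1 - ‖z‖) := by
      unfold trunc
      rw [min_eq_left]
      linarith
    have hz0 : z ≠ 0 := by
      rintro rfl
      rw [norm_zero] at h
      linarith
    have h2 := hM ⟨z, ⟨hz0, hz, hΘ⟩, rfl⟩
    simp only at h2
    rw [h3] at hWz ⊢
    rw [div_le_iff₀ hWz] at h2
    refine h2.trans ?_
    apply mul_le_mul_of_nonneg_right _ hWz.le
    exact (le_abs_self M).trans (le_max_left _ _)

lemma sfin_of {ω : ℝ → ℝ} (hω : IsModulus ω) {t₀ : ℝ} (h0 : 0 < t₀) (h1 : t₀ < 1)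
    {f Θ : ℂ → ℂ} {ε M : ℝ} (hM0 : 0 ≤ M)
    (hM : ∀ z : ℂ, ‖z‖ < 1 → ‖Θ z‖ < ε → ‖f z‖ ≤ M * trunc ω t₀ (1 - ‖z‖)) :
    SFin ω f Θ ε := by
  refine ⟨M, ?_⟩
  rintro x ⟨z, ⟨hz0, hz, hΘ⟩, rfl⟩
  simp only
  have hz1 : 0 < 1 - ‖z‖ := by linarith
  have hzn : 0 < ‖z‖ := norm_pos_iff.mpr hz0
  have hW := hω.2.2 (1 - ‖z‖) ⟨hz1, by linarith⟩
  rw [div_le_iff₀ hW]
  refine (hM z hz hΘ).trans ?_
  gcongr
  exact trunc_le hω h0 h1 hz1 (by linarith)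

lemma trunc_lower {ω : ℝ → ℝ} (hω : IsModulus ω) {t₀ : ℝ} (h0 : 0 < t₀) (h1 : t₀ < 1)
    {c : ℝ} (hc : 0 < c) (hlow : ∀ s t, 0 < s → s ≤ t → t ≤ t₀ → c * (s / t) ≤ ω s / ω t)
    {s t : ℝ} (hs : 0 < s) (hst : s ≤ t) :
    c * (s / t) * trunc ω t₀ t ≤ trunc ω t₀ s := by
  have ht : 0 < t := hs.trans_le hst
  have h2 := hlow (min s t₀) (min t t₀) (lt_min hs h0) (min_le_min_right _ hst) (min_le_right _ _)
  have h3 := trunc_pos hω h0 h1 ht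
  have h4 : s / t ≤ min s t₀ / min t t₀ := by
    rw [div_le_div_iff₀ ht (lt_min ht h0)]
    rcases le_total s t₀ with h | h
    · rw [min_eq_left h]
      gcongr
      exact min_le_left _ _
    · rw [min_eq_right h, min_eq_right (h.trans hst)]
      nlinarith
  rw [le_div_iff₀ (by exact h3)] at h2
  calc c * (s / t) * trunc ω t₀ t ≤ c * (min s t₀ / min t t₀) * trunc ω t₀ t := by gcongr
    _ ≤ trunc ω t₀ s := h2

lemma trunc_reg {ω : ℝ → ℝ} (hω : IsModulus ω) {t₀ : ℝ} (h0 : 0 < t₀) (h1 : t₀ < 1)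
    {c C α : ℝ} (hc : 0 < c) (hα : 0 < α)
    (hlow : ∀ s t, 0 < s → s ≤ t → t ≤ t₀ → c * (s / t) ≤ ω s / ω t)
    (hup : ∀ s t, 0 < s → s ≤ t → t ≤ t₀ → ω s / ω t ≤ C * (s / t) ^ α) :
    Reg (trunc ω t₀) c (C * (2 / t₀) ^ α) α := by
  have hωt := hω.2.2 t₀ ⟨h0, h1⟩
  have hC : 0 < C := by
    have := hup t₀ t₀ h0 le_rfl le_rfl
    rw [div_self hωt.ne', div_self h0.ne', Real.one_rpow, mul_one] at this
    linarith
  refine ⟨hc, by positivity, hα, fun s t hs hst => trunc_mono hω h0 h1 hs hst,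
    fun t ht => trunc_pos hω h0 h1 ht, fun s t hs hst => trunc_lower hω h0 h1 hc hlow hs hst, ?_⟩
  intro s t hs hst ht2
  have ht : 0 < t := hs.trans_le hst
  have h2 := hup (min s t₀) (min t t₀) (lt_min hs h0) (min_le_min_right _ hst) (min_le_right _ _)
  have h3 := trunc_pos hω h0 h1 ht
  have hmt : 0 < min t t₀ := lt_min ht h0
  have hms : 0 < min s t₀ := lt_min hs h0
  have h4 : min s t₀ / min t t₀ ≤ (2 / t₀) * (s / t) := by
    have h5 : t * t₀ / 2 ≤ min t t₀ := by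
      apply le_min <;> nlinarith
    rw [div_le_iff₀ hmt]
    calc min s t₀ ≤ s := min_le_left _ _
      _ = 2 / t₀ * (s / t) * (t * t₀ / 2) := by field_simp
      _ ≤ 2 / t₀ * (s / t) * min t t₀ := by gcongr
  rw [div_le_iff₀ (by exact h3)] at h2
  calc trunc ω t₀ s ≤ C * (min s t₀ / min t t₀) ^ α * trunc ω t₀ t := h2
    _ ≤ C * ((2 / t₀) * (s / t)) ^ α * trunc ω t₀ t := by gcongr
    _ = C * (2 / t₀) ^ α * (s / t) ^ α * trunc ω t₀ t := by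
      rw [Real.mul_rpow (by positivity) (by positivity)]
      ring

end BlochMult
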