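import Pool.Agent.Bloch.Suff

namespace BlochMult

open Complex Metric Set Filter Topology MeasureTheory Interval

theorem suff_A1 {W : ℝ → ℝ} {c K α : ℝ} (hW : Reg W c K α) {f Θ : ℂ → ℂ}
    (hf : DifferentiableOn ℂ f (ball 0 1)) (hΘ : IsInner Θ) {A₁ A₂ : ℝ} (hA₁ : 0 ≤ A₁)
    (hA₂ : 0 ≤ A₂)
    (h1 : ∀ z : ℂ, ‖z‖ < 1 → ‖deriv f z‖ ≤ A₁ * W (1 - ‖z‖) / (1 - ‖z‖))
    (h2 : ∀ z : ℂ, ‖z‖ < 1 → ‖deriv (fun z => f z * Θ z) z‖ ≤ A₂ * W (1 - ‖z‖) / (1 - ‖z‖))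
    {ε : ℝ} (hε1 : ε < 1) :
    ∃ M : ℝ, 0 ≤ M ∧ ∀ z : ℂ, ‖z‖ < 1 → ‖Θ z‖ < ε → ‖f z‖ ≤ M * W (1 - ‖z‖) := by
  have hα := hW.α_pos
  have hK := hW.K_pos
  set M : ℝ := max (2 * A₁ * (K / α)) (2 * (A₁ + A₂) * (K / α) / (1 - ε)) with hM
  have hM0 : 0 ≤ M := le_max_of_le_left (by positivity)
  refine ⟨M, hM0, ?_⟩
  have hderf : ∀ z : ℂ, ‖z‖ < 1 → HasDerivAt f (deriv f z) z := fun z hz =>
    (hf.differentiableAt (isOpen_ball.mem_nhds (by simpa using hz))).hasDerivAt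
  have hderΘ : ∀ z : ℂ, ‖z‖ < 1 → HasDerivAt Θ (deriv Θ z) z := fun z hz =>
    (hΘ.1.differentiableAt (isOpen_ball.mem_nhds (by simpa using hz))).hasDerivAt
  have hprod : ∀ z : ℂ, ‖z‖ < 1 → ‖f z‖ * ‖deriv Θ z‖ ≤ (A₁ + A₂) * W (1 - ‖z‖) / (1 - ‖z‖) := by
    intro z hz
    have e1 := ((hderf z hz).mul (hderΘ z hz)).deriv
    have e2 := h2 z hz
    have e3 : deriv (fun z => f z * Θ z) z = deriv f z * Θ z + f z * deriv Θ z := e1
    rw [e3] at e2
    have e4 : f z * deriv Θ z = (deriv f z * Θ z + f z * deriv Θ z) - deriv f z * Θ z := by ring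
    rw [← norm_mul, e4]
    refine (norm_sub_le _ _).trans ?_
    rw [norm_mul (deriv f z)]
    have e5 : ‖deriv f z‖ * ‖Θ z‖ ≤ ‖deriv f z‖ * 1 := by
      gcongr
      exact inner_le_one hΘ hz
    have e6 := h1 z hz
    have e7 : (A₁ + A₂) * W (1 - ‖z‖) / (1 - ‖z‖) = A₁ * W (1 - ‖z‖) / (1 - ‖z‖) +
      A₂ * W (1 - ‖z‖) / (1 - ‖z‖) := by ring
    rw [e7]
    linarith
  -- good directions
  have hgood : ∀ e : ℂ, ‖e‖ = 1 → (∃ w : ℂ, ‖w‖ = 1 ∧
      Tendsto (fun r : ℝ => Θ ((r : ℂ) * e)) (𝓝[<] 1) (𝓝 w)) → ∀ x : ℝ, 0 ≤ x → x < 1 →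
      ‖Θ ((x : ℂ) * e)‖ < ε → ‖f ((x : ℂ) * e)‖ ≤ M * W (1 - x) := by
    intro e he hlim x hx0 hx1 hΘx
    obtain ⟨w, hw, ht⟩ := hlim
    by_contra hcon
    push Not at hcon
    have hWx := hW.pos (1 - x) (by linarith)
    have hnorm : ∀ r : ℝ, 0 ≤ r → ‖(r:ℂ) * e‖ = r := by
      intro r hr
      rw [norm_mul, he, mul_one, Complex.norm_real, Real.norm_of_nonneg hr]
    have hfx : 0 < ‖f ((x : ℂ) * e)‖ := lt_of_le_of_lt (by positivity) hcon
    set v := ‖f ((x : ℂ) * e)‖ with hv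
    have hhalf : ∀ r : ℝ, x ≤ r → r < 1 → v / 2 ≤ ‖f ((r:ℂ) * e)‖ := by
      intro r hxr hr1
      have e1 := radial_bound hW (g := f) (g' := deriv f) hA₁ (z := e) (r₁ := x) (r₂ := r) hx0 hxr
        (by rw [he]; linarith)
        (fun y hy => hderf _ (by rw [hnorm y (hx0.trans hy.1)]; linarith [hy.2]))
        (fun y hy => by
          have := h1 ((y:ℂ) * e) (by rw [hnorm y (hx0.trans hy.1)]; linarith [hy.2])
          rw [hnorm y (hx0.trans hy.1)] at this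
          rwa [he, mul_one])
      rw [he, mul_one] at e1
      have e2 : 2 * A₁ * (K / α) * W (1 - x) ≤ M * W (1 - x) := by
        gcongr
        exact le_max_left _ _
      have e3 : v ≤ ‖f ((r:ℂ) * e)‖ + ‖f ((r:ℂ) * e) - f ((x:ℂ) * e)‖ := by
        have := norm_sub_norm_le (f ((x:ℂ) * e)) (f ((r:ℂ) * e))
        rw [norm_sub_rev] at this
        linarith
      nlinarith
    have hosc : ∀ r : ℝ, x ≤ r → r < 1 → ‖Θ ((r:ℂ) * e) - Θ ((x:ℂ) * e)‖ ≤
        2 * (A₁ + A₂) / v * (K / α) * W (1 - x) := by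
      intro r hxr hr1
      have e1 := radial_bound hW (g := Θ) (g' := deriv Θ) (A := 2 * (A₁ + A₂) / v)
        (by positivity) (z := e) (r₁ := x) (r₂ := r) hx0 hxr
        (by rw [he]; linarith)
        (fun y hy => hderΘ _ (by rw [hnorm y (hx0.trans hy.1)]; linarith [hy.2]))
        (fun y hy => by
          have hy1 : y < 1 := by linarith [hy.2]
          have e4 := hprod ((y:ℂ) * e) (by rw [hnorm y (hx0.trans hy.1)]; exact hy1)
          rw [hnorm y (hx0.trans hy.1)] at e4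
          rw [he, mul_one]
          have e5 := hhalf y hy.1 hy1
          have e6 : v / 2 * ‖deriv Θ ((y:ℂ) * e)‖ ≤ (A₁ + A₂) * W (1 - y) / (1 - y) :=
            (mul_le_mul_of_nonneg_right e5 (norm_nonneg _)).trans e4
          have e7 : 2 * (A₁ + A₂) / v * W (1 - y) / (1 - y) =
              (2 / v) * ((A₁ + A₂) * W (1 - y) / (1 - y)) := by ring
          rw [e7]
          calc ‖deriv Θ ((y:ℂ) * e)‖ = (2 / v) * (v / 2 * ‖deriv Θ ((y:ℂ) * e)‖) := by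
                field_simp
            _ ≤ (2 / v) * ((A₁ + A₂) * W (1 - y) / (1 - y)) := by gcongr)
      rw [he, mul_one] at e1
      exact e1
    have hlimit : ‖w - Θ ((x:ℂ) * e)‖ ≤ 2 * (A₁ + A₂) / v * (K / α) * W (1 - x) := by
      refine le_of_tendsto ((ht.sub_const _).norm) ?_
      filter_upwards [Ioo_mem_nhdsLT hx1] with r hr
      exact hosc r hr.1.le hr.2
    have e8 : 1 - ε < ‖w - Θ ((x:ℂ) * e)‖ := by
      have := norm_sub_norm_le w (Θ ((x:ℂ) * e))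
      rw [hw] at this
      linarith
    have e9 : 1 - ε < 2 * (A₁ + A₂) / v * (K / α) * W (1 - x) := lt_of_lt_of_le e8 hlimit
    have e10 : 2 * (A₁ + A₂) * (K / α) / (1 - ε) * W (1 - x) < v := by
      refine lt_of_le_of_lt ?_ hcon
      gcongr
      exact le_max_right _ _
    have h1ε : 0 < 1 - ε := by linarith
    have e11 : 2 * (A₁ + A₂) / v * (K / α) * W (1 - x) =
        (2 * (A₁ + A₂) * (K / α) / (1 - ε) * W (1 - x)) * ((1 - ε) / v) := by field_simp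
    rw [e11] at e9
    have e12 : (2 * (A₁ + A₂) * (K / α) / (1 - ε) * W (1 - x)) * ((1 - ε) / v) ≤
        v * ((1 - ε) / v) := by gcongr
    have e13 : v * ((1 - ε) / v) = 1 - ε := by field_simp
    linarith
  intro z hz hΘz
  by_contra hcon
  push Not at hcon
  -- the bad set of angles is open
  set x := ‖z‖ with hx
  have hx0 : 0 ≤ x := norm_nonneg z
  have hpt : ∀ θ : ℝ, ‖(x:ℂ) * Complex.exp ((θ:ℂ) * I)‖ = x := by
    intro θ
    rw [norm_mul, Complex.norm_exp_ofReal_mul_I, mul_one, Complex.norm_real,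
      Real.norm_of_nonneg hx0]
  have hcontθ : Continuous (fun θ : ℝ => (x:ℂ) * Complex.exp ((θ:ℂ) * I)) := by fun_prop
  have hcf : Continuous (fun θ : ℝ => ‖f ((x:ℂ) * Complex.exp ((θ:ℂ) * I))‖) :=
    (hf.continuousOn.comp_continuous hcontθ (fun θ => by
      rw [mem_ball, dist_zero_right, hpt]; exact hz)).norm
  have hcΘ : Continuous (fun θ : ℝ => ‖Θ ((x:ℂ) * Complex.exp ((θ:ℂ) * I))‖) :=
    (hΘ.1.continuousOn.comp_continuous hcontθ (fun θ => by
      rw [mem_ball, dist_zero_right, hpt]; exact hz)).norm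
  have hopen : IsOpen {θ : ℝ | ‖Θ ((x:ℂ) * Complex.exp ((θ:ℂ) * I))‖ < ε ∧
      M * W (1 - x) < ‖f ((x:ℂ) * Complex.exp ((θ:ℂ) * I))‖} :=
    (isOpen_lt hcΘ continuous_const).inter (isOpen_lt continuous_const hcf)
  have hne : {θ : ℝ | ‖Θ ((x:ℂ) * Complex.exp ((θ:ℂ) * I))‖ < ε ∧
      M * W (1 - x) < ‖f ((x:ℂ) * Complex.exp ((θ:ℂ) * I))‖}.Nonempty := by
    refine ⟨Complex.arg z, ?_, ?_⟩
    · rw [hx, Complex.norm_mul_exp_arg_mul_I]; exact hΘz
    · rw [hx, Complex.norm_mul_exp_arg_mul_I]; exact hcon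
  have hdense := MeasureTheory.Measure.dense_of_ae hΘ.2.2
  obtain ⟨θ, hθ1, hθ2⟩ := hdense.inter_open_nonempty _ hopen hne
  have := hgood (Complex.exp ((θ:ℂ) * I)) (Complex.norm_exp_ofReal_mul_I θ) hθ2 x hx0 hz hθ1.1
  exact absurd hθ1.2 (not_lt.mpr this)

theorem suff_A2 {W : ℝ → ℝ} {c K α : ℝ} (hW : Reg W c K α) {f Θ : ℂ → ℂ}
    (hf : DifferentiableOn ℂ f (ball 0 1)) (hΘ : IsInner Θ) {A₁ : ℝ} (hA₁ : 0 ≤ A₁)
    (h1 : ∀ z : ℂ, ‖z‖ < 1 → ‖deriv f z‖ ≤ A₁ * W (1 - ‖z‖) / (1 - ‖z‖))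
    {ε : ℝ} (hε : 0 < ε) {M : ℝ} (hM0 : 0 ≤ M)
    (hM : ∀ z : ℂ, ‖z‖ < 1 → ‖Θ z‖ < ε → ‖f z‖ ≤ M * W (1 - ‖z‖)) :
    ∃ A : ℝ, ∀ z : ℂ, 1 / 2 ≤ ‖z‖ → ‖z‖ < 1 →
      ‖deriv (fun z => f z * Θ z) z‖ * (1 - ‖z‖) ≤ A * W (1 - ‖z‖) := by
  have hα := hW.α_pos
  have hK := hW.K_pos
  have hc := hW.c_pos
  have hderf : ∀ z : ℂ, ‖z‖ < 1 → HasDerivAt f (deriv f z) z := fun z hz =>
    (hf.differentiableAt (isOpen_ball.mem_nhds (by simpa using hz))).hasDerivAt
  have hderΘ : ∀ z : ℂ, ‖z‖ < 1 → HasDerivAt Θ (deriv Θ z) z := fun z hz =>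
    (hΘ.1.differentiableAt (isOpen_ball.mem_nhds (by simpa using hz))).hasDerivAt
  set K' : ℝ := 4 * A₁ * K / (α * c) + A₁ / c with hK'
  have hK'0 : 0 ≤ K' := by positivity
  -- Cauchy estimate
  have hCauchy : ∀ z : ℂ, ‖z‖ < 1 → ‖deriv Θ z‖ * (1 - ‖z‖) ≤ 2 := by
    intro z hz
    have hz1 : 0 < 1 - ‖z‖ := by linarith
    have hsub : closedBall z ((1 - ‖z‖) / 2) ⊆ ball 0 1 := by
      intro w hw
      rw [mem_closedBall, dist_eq_norm] at hw
      rw [mem_ball, dist_zero_right]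
      have := norm_sub_norm_le w z
      linarith
    have := Complex.norm_deriv_le_of_forall_mem_sphere_norm_le (c := z) (R := (1 - ‖z‖) / 2)
      (C := 1) (f := Θ) (by positivity)
      (by
        refine ⟨hΘ.1.mono (ball_subset_closedBall.trans hsub), ?_⟩
        rw [closure_ball _ (by positivity)]
        exact hΘ.1.continuousOn.mono hsub)
      (fun w hw => inner_le_one hΘ (by simpa using hsub (sphere_subset_closedBall hw)))
    rw [le_div_iff₀ (by positivity)] at this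
    linarith
  have hmain : ∀ z : ℂ, 1 / 2 ≤ ‖z‖ → ‖z‖ < 1 →
      ‖f z‖ * ‖deriv Θ z‖ * (1 - ‖z‖) ≤ (2 * M + (M + K') * ((4 + 2 / ε) / c)) * W (1 - ‖z‖) := by
    intro z hz hz1
    set t := 1 - ‖z‖ with ht
    have ht0 : 0 < t := by linarith
    have hWt := hW.pos t ht0
    rcases lt_or_ge ‖Θ z‖ ε with hsmall | hlarge
    · have e1 := hM z hz1 hsmall
      have e2 := hCauchy z hz1
      calc ‖f z‖ * ‖deriv Θ z‖ * t = ‖f z‖ * (‖deriv Θ z‖ * t) := by ring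
        _ ≤ (M * W t) * 2 := by
          apply mul_le_mul e1 e2 (by positivity) (by positivity)
        _ ≤ (2 * M + (M + K') * ((4 + 2 / ε) / c)) * W t := by
          have : 0 ≤ (M + K') * ((4 + 2 / ε) / c) * W t := by positivity
          nlinarith
    · set E : Set ℂ := {w : ℂ | ‖w‖ < 1 ∧ ‖Θ w‖ < ε} with hE
      rcases E.eq_empty_or_nonempty with hEe | hEne
      · -- derivative zero
        have e1 : ∀ ρ : ℝ, 0 < ρ → ‖deriv Θ z‖ ≤ 2 / (ε * ρ) := by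
          intro ρ hρ
          refine reflect_disc hΘ hε hz hz1 hρ ?_
          intro w hw _
          by_contra hcon
          push Not at hcon
          have : w ∈ E := ⟨hw, hcon⟩
          rw [hEe] at this
          exact this
        have e2 : ‖deriv Θ z‖ ≤ 0 := by
          have e3 : Tendsto (fun ρ : ℝ => 2 / (ε * ρ)) atTop (𝓝 0) :=
            tendsto_const_nhds.div_atTop (tendsto_id.const_mul_atTop hε)
          refine ge_of_tendsto e3 ?_
          filter_upwards [eventually_gt_atTop (0:ℝ)] with ρ hρ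
          exact e1 ρ hρ
        have e3 : ‖deriv Θ z‖ = 0 := le_antisymm e2 (norm_nonneg _)
        rw [e3, mul_zero, zero_mul]
        positivity
      · set ρ := infDist z E with hρ
        have hρ0 : 0 ≤ ρ := infDist_nonneg
        obtain ⟨w, hwE, hw⟩ := (infDist_lt_iff hEne).1 (show infDist z E < ρ + t by linarith)
        rw [dist_eq_norm] at hw
        have hT : 0 < 2 * t + ρ := by linarith
        have hwt : 1 - ‖w‖ ≤ 2 * t + ρ := by
          have := norm_sub_norm_le z w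
          linarith
        have e1 := diff_bound hW hA₁ hf h1 hz1 hwE.1 hT (by linarith) hwt
          (by linarith)
        have e2 := hM w hwE.1 hwE.2
        have e3 : W (1 - ‖w‖) ≤ W (2 * t + ρ) := hW.mono _ _ (by linarith [hwE.1]) hwt
        have e4 : ‖f z‖ ≤ (M + K') * W (2 * t + ρ) := by
          have e5 : ‖f z‖ ≤ ‖f w‖ + ‖f z - f w‖ := by
            have := norm_sub_norm_le (f z) (f w)
            linarith
          have e6 : M * W (1 - ‖w‖) ≤ M * W (2 * t + ρ) := by gcongr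
          linarith
        have e7 : (2 * t + ρ) * ‖deriv Θ z‖ ≤ 4 + 2 / ε := by
          have e8 := hCauchy z hz1
          have e9 : ρ * ‖deriv Θ z‖ ≤ 2 / ε := by
            rcases hρ0.eq_or_lt with h | h
            · rw [← h, zero_mul]
              positivity
            · have := reflect_disc hΘ hε hz hz1 h (by
                intro w' hw' hd
                by_contra hcon
                push Not at hcon
                have hmem : w' ∈ E := ⟨hw', hcon⟩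
                have := infDist_le_dist_of_mem (x := z) hmem
                rw [dist_comm, dist_eq_norm] at this
                linarith)
              calc ρ * ‖deriv Θ z‖ ≤ ρ * (2 / (ε * ρ)) := by gcongr
                _ = 2 / ε := by field_simp
          rw [← ht] at e8
          linarith
        have e10 := hW.lower t (2 * t + ρ) ht0 (by linarith)
        have hWT := hW.pos _ hT
        have e11 : W (2 * t + ρ) * t / (2 * t + ρ) ≤ W t / c := by
          rw [le_div_iff₀ hc]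
          calc W (2 * t + ρ) * t / (2 * t + ρ) * c = c * (t / (2 * t + ρ)) * W (2 * t + ρ) := by
                ring
            _ ≤ W t := e10
        calc ‖f z‖ * ‖deriv Θ z‖ * t
            ≤ ((M + K') * W (2 * t + ρ)) * ‖deriv Θ z‖ * t := by gcongr
          _ = (M + K') * ((2 * t + ρ) * ‖deriv Θ z‖) * (W (2 * t + ρ) * t / (2 * t + ρ)) := by
              field_simp
          _ ≤ (M + K') * (4 + 2 / ε) * (W t / c) := by gcongr
          _ = ((M + K') * ((4 + 2 / ε) / c)) * W t := by ring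
          _ ≤ (2 * M + (M + K') * ((4 + 2 / ε) / c)) * W t := by
            have : 0 ≤ 2 * M * W t := by positivity
            nlinarith
  refine ⟨A₁ + (2 * M + (M + K') * ((4 + 2 / ε) / c)), ?_⟩
  intro z hz hz1
  have ht0 : 0 < 1 - ‖z‖ := by linarith
  have e1 := ((hderf z hz1).mul (hderΘ z hz1)).deriv
  have e3 : deriv (fun z => f z * Θ z) z = deriv f z * Θ z + f z * deriv Θ z := e1
  rw [e3]
  have e4 := h1 z hz1
  rw [le_div_iff₀ ht0] at e4
  have e5 := hmain z hz hz1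
  calc ‖deriv f z * Θ z + f z * deriv Θ z‖ * (1 - ‖z‖)
      ≤ (‖deriv f z‖ * ‖Θ z‖ + ‖f z‖ * ‖deriv Θ z‖) * (1 - ‖z‖) := by
        gcongr
        refine (norm_add_le _ _).trans ?_
        rw [norm_mul, norm_mul]
    _ ≤ (‖deriv f z‖ * 1 + ‖f z‖ * ‖deriv Θ z‖) * (1 - ‖z‖) := by
        gcongr
        exact inner_le_one hΘ hz1
    _ = ‖deriv f z‖ * (1 - ‖z‖) + ‖f z‖ * ‖deriv Θ z‖ * (1 - ‖z‖) := by ring
    _ ≤ _ := by linarith

/-- Sufficiency. -/
theorem suff {ω : ℝ → ℝ} (hω : IsModulus ω) {t₀ : ℝ} (h0 : 0 < t₀) (h1 : t₀ < 1)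
    {c C α : ℝ} (hc : 0 < c) (hα : 0 < α)
    (hlow : ∀ s t, 0 < s → s ≤ t → t ≤ t₀ → c * (s / t) ≤ ω s / ω t)
    (hup : ∀ s t, 0 < s → s ≤ t → t ≤ t₀ → ω s / ω t ≤ C * (s / t) ^ α) : PropP ω := by
  have hW := trunc_reg hω h0 h1 hc hα hlow hup
  intro f hf Θ hΘ
  obtain ⟨A₁, hA₁, hf1⟩ := memB_to hω h0 h1 hf
  have himp1 : MemB ω (fun z => f z * Θ z) → ∀ ε ∈ Ioo (0:ℝ) 1, SFin ω f Θ ε := by
    intro hfΘ ε hε
    obtain ⟨A₂, hA₂, hf2⟩ := memB_to hω h0 h1 hfΘ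
    obtain ⟨M, hM0, hM⟩ := suff_A1 hW hf.1 hΘ hA₁ hA₂ hf1 hf2 hε.2
    exact sfin_of hω h0 h1 hM0 hM
  have himp2 : (∃ ε ∈ Ioo (0:ℝ) 1, SFin ω f Θ ε) → MemB ω (fun z => f z * Θ z) := by
    rintro ⟨ε, hε, hS⟩
    obtain ⟨M, hM0, hM⟩ := sfin_to hω h0 h1 hf.1 hS
    obtain ⟨A, hA⟩ := suff_A2 hW hf.1 hΘ hA₁ hf1 hε.1 hM0 hM
    exact memB_of h0 (hf.1.mul hΘ.1) hA
  have himp3 : (∀ ε ∈ Ioo (0:ℝ) 1, SFin ω f Θ ε) → (∃ ε ∈ Ioo (0:ℝ) 1, SFin ω f Θ ε) :=
    fun h => ⟨1 / 2, ⟨by norm_num, by norm_num⟩, h _ ⟨by norm_num, by norm_num⟩⟩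
  exact ⟨⟨fun h => himp3 (himp1 h), himp2⟩, ⟨fun h => himp1 (himp2 h), himp3⟩⟩

end BlochMult
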