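import Pool.Agent.Bloch.Site
import Pool.Agent.Bloch.Block
import Pool.Agent.Bloch.Defs

namespace BlochMult

open Complex Metric Set Filter Topology

/-- everything about one block placed in the disc -/
structure Placed (ω : ℝ → ℝ) (t₀ c : ℝ) (k : ℕ) (R : ℝ) (F β : ℂ → ℂ) (e : ℂ) (A η : ℝ)
    (p : ℂ) (σ D δ : ℝ) : Prop where
  hω : IsModulus ω
  ht0 : 0 < t₀
  ht1 : t₀ < 1
  hc : 0 < c
  hlow : ∀ s t, 0 < s → s ≤ t → t ≤ t₀ → c * (s / t) ≤ ω s / ω t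
  blk : IsBlock R F β e A η
  site : Site p σ D
  hδ : 0 < δ
  hδt : δ ≤ t₀
  hDδ : D ≤ δ
  hσe : σ = c * (1 / 2) ^ (k + 8) * D ^ 2 / (A * δ)
  hplat : ω δ / 2 ≤ ω (σ * min η 1 / (4 * A))

/-- the analytic block -/
noncomputable def fk (ω : ℝ → ℝ) (F : ℂ → ℂ) (e p : ℂ) (δ : ℝ) (z : ℂ) : ℂ :=
  (ω δ : ℂ) * (F (psi e p z) - F e)

/-- the inner block -/
noncomputable def Bk (β : ℂ → ℂ) (e p : ℂ) (z : ℂ) : ℂ := β (psi e p z) / β e

namespace Placed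

variable {ω : ℝ → ℝ} {t₀ c : ℝ} {k : ℕ} {R : ℝ} {F β : ℂ → ℂ} {e : ℂ} {A η : ℝ}
    {p : ℂ} {σ D δ : ℝ} (h : Placed ω t₀ c k R F β e A η p σ D δ)
include h

lemma W0 : 0 < ω δ := h.hω.2.2 _ ⟨h.hδ, h.hδt.trans_lt h.ht1⟩

lemma A0 : 0 < A := by linarith [h.blk.hA]

lemma D0 : 0 < D := h.site.D0

lemma hc1 : c ≤ 1 := by
  have h1 := h.hlow t₀ t₀ h.ht0 le_rfl le_rfl
  have h2 := h.hω.2.2 t₀ ⟨h.ht0, h.ht1⟩
  rw [div_self h2.ne', div_self h.ht0.ne', mul_one] at h1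
  exact h1

lemma low_mul {s t : ℝ} (hs : 0 < s) (hst : s ≤ t) (ht : t ≤ t₀) :
    c * s * ω t ≤ t * ω s := by
  have h1 := h.hlow s t hs hst ht
  have ht0 : 0 < t := hs.trans_le hst
  have h2 := h.hω.2.2 t ⟨ht0, ht.trans_lt h.ht1⟩
  rw [le_div_iff₀ h2] at h1
  calc c * s * ω t = t * (c * (s / t) * ω t) := by field_simp
    _ ≤ t * ω s := by gcongr

lemma mono {s t : ℝ} (hs : 0 < s) (hst : s ≤ t) (ht : t < 1) : ω s ≤ ω t :=
  h.hω.2.1 ⟨hs, hst.trans_lt ht⟩ ⟨hs.trans_le hst, ht⟩ hst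

lemma σ_le_δ : σ ≤ δ := by
  have := h.site.hσD
  have := h.hDδ
  have := h.site.hσ
  linarith

lemma hasDerivAt_fk {z : ℂ} (hz : ‖z‖ < 1) : HasDerivAt (fk ω F e p δ)
    ((ω δ : ℂ) * (deriv F (psi e p z) * deriv (psi e p) z)) z := by
  have h1 := (hasDerivAt_psi e h.site.lt hz.le).differentiableAt.hasDerivAt
  have h2 := (h.blk.hF (psi e p z)).hasDerivAt
  have h3 := (h2.comp z h1).sub_const (F e)
  exact h3.const_mul (ω δ : ℂ)

lemma fk_diff : DifferentiableOn ℂ (fk ω F e p δ) (ball 0 1) := fun z hz =>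
  (h.hasDerivAt_fk (by simpa using hz)).differentiableAt.differentiableWithinAt

lemma norm_deriv_fk {z : ℂ} (hz : ‖z‖ < 1) : ‖deriv (fk ω F e p δ) z‖ =
    ω δ * (‖deriv F (psi e p z)‖ * ((1 - ‖p‖ ^ 2) / ‖1 - (starRingEnd ℂ) p * z‖ ^ 2)) := by
  rw [(h.hasDerivAt_fk hz).deriv, norm_mul, norm_mul, Complex.norm_real,
    Real.norm_of_nonneg h.W0.le, norm_deriv_psi h.blk.he h.site.lt hz.le]

lemma deriv_le_two {z : ℂ} (hz : ‖z‖ < 1) :
    ‖deriv (fk ω F e p δ) z‖ * (1 - ‖z‖) ≤ 2 * ω δ := by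
  rw [h.norm_deriv_fk hz]
  have hp := h.site.lt
  have h1 := one_sub_norm_mob_sq hp hz.le
  rw [← norm_psi h.blk.he hp] at h1
  have h2 := psi_lt_one h.blk.he hp hz
  have h3 := h.blk.hF1 (psi e p z) h2
  have hd := den_pos hp hz.le
  have h4 : (1 - ‖p‖ ^ 2) / ‖1 - (starRingEnd ℂ) p * z‖ ^ 2 * (1 - ‖z‖) ≤
      2 * (1 - ‖psi e p z‖) := by
    have h5 : (1 - ‖p‖ ^ 2) / ‖1 - (starRingEnd ℂ) p * z‖ ^ 2 * (1 - ‖z‖) ≤
        1 - ‖psi e p z‖ ^ 2 := by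
      rw [h1]
      have h6 := h.site.sq_nonneg'
      have h7 : 1 - ‖z‖ ≤ 1 - ‖z‖ ^ 2 := by nlinarith [norm_nonneg z]
      calc (1 - ‖p‖ ^ 2) / ‖1 - (starRingEnd ℂ) p * z‖ ^ 2 * (1 - ‖z‖)
          ≤ (1 - ‖p‖ ^ 2) / ‖1 - (starRingEnd ℂ) p * z‖ ^ 2 * (1 - ‖z‖ ^ 2) := by gcongr
        _ = _ := by ring
    nlinarith [norm_nonneg (psi e p z)]
  have hW := h.W0
  calc ω δ * (‖deriv F (psi e p z)‖ * ((1 - ‖p‖ ^ 2) / ‖1 - (starRingEnd ℂ) p * z‖ ^ 2)) * (1 - ‖z‖)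
      = ω δ * (‖deriv F (psi e p z)‖ *
        ((1 - ‖p‖ ^ 2) / ‖1 - (starRingEnd ℂ) p * z‖ ^ 2 * (1 - ‖z‖))) := by ring
    _ ≤ ω δ * (‖deriv F (psi e p z)‖ * (2 * (1 - ‖psi e p z‖))) := by gcongr
    _ = ω δ * (2 * (‖deriv F (psi e p z)‖ * (1 - ‖psi e p z‖))) := by ring
    _ ≤ ω δ * (2 * 1) := by gcongr
    _ = 2 * ω δ := by ring

lemma deriv_le_den {z : ℂ} (hz : ‖z‖ < 1) {d : ℝ} (hd0 : 0 < d)
    (hd : d ≤ ‖1 - (starRingEnd ℂ) p * z‖) :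
    ‖deriv (fk ω F e p δ) z‖ ≤ 2 * A * σ / d ^ 2 * ω δ := by
  rw [h.norm_deriv_fk hz]
  have hW := h.W0
  have h1 := h.blk.hFA' (psi e p z) (psi_lt_one h.blk.he h.site.lt hz).le
  have h2 := h.site.sq_le
  have h3 := h.site.sq_nonneg'
  have hA := h.A0
  have hσ := h.site.hσ
  calc ω δ * (‖deriv F (psi e p z)‖ * ((1 - ‖p‖ ^ 2) / ‖1 - (starRingEnd ℂ) p * z‖ ^ 2))
      ≤ ω δ * (A * ((2 * σ) / d ^ 2)) := by gcongr
    _ = 2 * A * σ / d ^ 2 * ω δ := by ring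

lemma ell_pos : 0 < σ * min η 1 / (4 * A) := by
  have := h.site.hσ
  have := h.A0
  have : 0 < min η 1 := lt_min h.blk.hη one_pos
  positivity

lemma ell_le : σ * min η 1 / (4 * A) ≤ σ / (4 * A) := by
  have h1 := h.site.hσ
  have h2 := h.A0
  have h3 : min η 1 ≤ 1 := min_le_right _ _
  gcongr
  nlinarith

lemma ell_le_δ : σ * min η 1 / (4 * A) ≤ δ := by
  refine h.ell_le.trans ?_
  have h1 := h.site.hσ
  have h2 := h.blk.hA
  have h3 := h.σ_le_δ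
  rw [div_le_iff₀ (by linarith)]
  nlinarith

lemma fk_all {z : ℂ} (hz : ‖z‖ < 1) (ht : 1 - ‖z‖ ≤ t₀) :
    ‖deriv (fk ω F e p δ) z‖ * (1 - ‖z‖) ≤ 4 / c * ω (1 - ‖z‖) := by
  have hW := h.W0
  have hc := h.hc
  have hc1 := h.hc1
  have ht0 : 0 < 1 - ‖z‖ := by linarith
  have hωt := h.hω.2.2 (1 - ‖z‖) ⟨ht0, ht.trans_lt h.ht1⟩
  set ell := σ * min η 1 / (4 * A) with hell
  have hell0 : 0 < ell := h.ell_pos
  rcases le_or_gt ell (1 - ‖z‖) with hl | hl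
  · have h1 := h.deriv_le_two hz
    have h2 := h.mono hell0 hl (ht.trans_lt h.ht1)
    have h3 := h.hplat
    have h4 : 2 * ω δ ≤ 4 * ω (1 - ‖z‖) := by linarith
    have h5 : 4 * ω (1 - ‖z‖) ≤ 4 / c * ω (1 - ‖z‖) := by
      gcongr
      rw [le_div_iff₀ hc]
      linarith
    linarith
  · have hA := h.A0
    have hσ := h.site.hσ
    have h1 : σ ≤ ‖1 - (starRingEnd ℂ) p * z‖ := by
      have := den_ge_left (p := p) hz.le
      rw [h.site.hp] at this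
      linarith
    have h2 := h.deriv_le_den hz hσ h1
    have h3 := h.low_mul ht0 hl.le (h.ell_le_δ.trans h.hδt)
    have h4 := h.hplat
    have h5 : c * (1 - ‖z‖) * (ω δ / 2) ≤ ell * ω (1 - ‖z‖) := by
      refine le_trans ?_ h3
      gcongr
    have h6 : ell ≤ σ / (4 * A) := h.ell_le
    have h7 : (1 - ‖z‖) * ω δ ≤ 2 * (σ / (4 * A)) / c * ω (1 - ‖z‖) := by
      have h8 : ell * ω (1 - ‖z‖) ≤ σ / (4 * A) * ω (1 - ‖z‖) := by gcongr
      rw [div_mul_eq_mul_div, le_div_iff₀ hc]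
      linarith
    calc ‖deriv (fk ω F e p δ) z‖ * (1 - ‖z‖) ≤ (2 * A * σ / σ ^ 2 * ω δ) * (1 - ‖z‖) := by
          gcongr
      _ = (2 * A / σ) * ((1 - ‖z‖) * ω δ) := by field_simp
      _ ≤ (2 * A / σ) * (2 * (σ / (4 * A)) / c * ω (1 - ‖z‖)) := by gcongr
      _ = 1 / c * ω (1 - ‖z‖) := by field_simp; ring
      _ ≤ 4 / c * ω (1 - ‖z‖) := by
        gcongr
        norm_num

lemma fk_far {z : ℂ} (hz : ‖z‖ < 1) (ht : 1 - ‖z‖ ≤ t₀)
    (hf : D / 4 ≤ ‖1 - (starRingEnd ℂ) p * z‖) :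
    ‖deriv (fk ω F e p δ) z‖ * (1 - ‖z‖) ≤ (1 / 2) ^ k * ω (1 - ‖z‖) := by
  have hW := h.W0
  have hc := h.hc
  have hc1 := h.hc1
  have hA := h.A0
  have hA1 := h.blk.hA
  have hD := h.D0
  have hδ := h.hδ
  have hDδ := h.hDδ
  have hσ := h.site.hσ
  have ht0 : 0 < 1 - ‖z‖ := by linarith
  have hωt := h.hω.2.2 (1 - ‖z‖) ⟨ht0, ht.trans_lt h.ht1⟩
  have hpow : (0:ℝ) < (1 / 2) ^ k := by positivity
  have hpow8 : ((1:ℝ) / 2) ^ (k + 8) = (1 / 2) ^ k / 256 := by rw [pow_add]; norm_num; ring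
  rcases le_or_gt (1 - ‖z‖) δ with hl | hl
  · have h2 := h.deriv_le_den hz (show 0 < D / 4 by positivity) hf
    have h3 := h.low_mul ht0 hl h.hδt
    have h4 : (1 - ‖z‖) * ω δ ≤ δ / c * ω (1 - ‖z‖) := by
      rw [div_mul_eq_mul_div, le_div_iff₀ hc]
      linarith
    calc ‖deriv (fk ω F e p δ) z‖ * (1 - ‖z‖)
        ≤ (2 * A * σ / (D / 4) ^ 2 * ω δ) * (1 - ‖z‖) := by gcongr
      _ = (32 * A * σ / D ^ 2) * ((1 - ‖z‖) * ω δ) := by field_simp; ring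
      _ ≤ (32 * A * σ / D ^ 2) * (δ / c * ω (1 - ‖z‖)) := by gcongr
      _ = (1 / 2) ^ k / 8 * ω (1 - ‖z‖) := by
        rw [h.hσe, hpow8]
        field_simp
        norm_num
      _ ≤ (1 / 2) ^ k * ω (1 - ‖z‖) := by
        gcongr
        linarith
  · have h1 : 1 - ‖z‖ ≤ ‖1 - (starRingEnd ℂ) p * z‖ := den_ge_right h.site.lt.le
    have h2 := h.deriv_le_den hz ht0 h1
    have h3 := h.mono hδ hl.le (ht.trans_lt h.ht1)
    have h5 : 2 * A * σ / (1 - ‖z‖) ≤ (1 / 2) ^ k := by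
      rw [div_le_iff₀ ht0]
      have h6 : 2 * A * σ = 2 * c * (1 / 2) ^ (k + 8) * D ^ 2 / δ := by
        rw [h.hσe]
        field_simp
      rw [h6, hpow8, div_le_iff₀ hδ]
      have h7 : D ^ 2 ≤ δ * δ := by nlinarith
      have h8 : D ^ 2 ≤ (1 - ‖z‖) * δ := by nlinarith
      calc 2 * c * ((1 / 2) ^ k / 256) * D ^ 2 ≤ 2 * 1 * ((1 / 2) ^ k / 256) * ((1 - ‖z‖) * δ) := by
            gcongr
        _ = (1 / 128) * ((1 / 2) ^ k * (1 - ‖z‖) * δ) := by ring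
        _ ≤ 1 * ((1 / 2) ^ k * (1 - ‖z‖) * δ) := by gcongr; norm_num
        _ = (1 / 2) ^ k * (1 - ‖z‖) * δ := by ring
    calc ‖deriv (fk ω F e p δ) z‖ * (1 - ‖z‖)
        ≤ (2 * A * σ / (1 - ‖z‖) ^ 2 * ω δ) * (1 - ‖z‖) := by gcongr
      _ = (2 * A * σ / (1 - ‖z‖)) * ω δ := by field_simp
      _ ≤ (1 / 2) ^ k * ω (1 - ‖z‖) := by gcongr

lemma close_num : A * (10 * σ / D) ≤ (1 / 2) ^ (k + 3) := by
  have hc := h.hc
  have hc1 := h.hc1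
  have hA := h.A0
  have hD := h.D0
  have hδ := h.hδ
  have hDδ := h.hDδ
  have hpow : (0:ℝ) < (1 / 2) ^ k := by positivity
  have hpow8 : ((1:ℝ) / 2) ^ (k + 8) = (1 / 2) ^ k / 256 := by rw [pow_add]; norm_num; ring
  have hpow3 : ((1:ℝ) / 2) ^ (k + 3) = (1 / 2) ^ k / 8 := by rw [pow_add]; norm_num; ring
  have h1 : A * (10 * σ / D) = 10 * c * ((1 / 2) ^ k / 256) * (D / δ) := by
    rw [h.hσe, hpow8]
    field_simp
  have h2 : D / δ ≤ 1 := by rw [div_le_one hδ]; exact hDδ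
  rw [h1, hpow3]
  calc 10 * c * ((1 / 2) ^ k / 256) * (D / δ) ≤ 10 * 1 * ((1 / 2) ^ k / 256) * 1 := by gcongr
    _ ≤ (1 / 2) ^ k / 8 := by linarith

lemma fk_far_val {z : ℂ} (hz : ‖z‖ ≤ 1) (hf : D / 4 ≤ ‖1 - (starRingEnd ℂ) p * z‖) :
    ‖fk ω F e p δ z‖ ≤ (1 / 2) ^ (k + 3) * ω δ := by
  unfold fk
  have hW := h.W0
  have hA := h.A0
  rw [norm_mul, Complex.norm_real, Real.norm_of_nonneg hW.le, mul_comm]
  gcongr
  refine (h.blk.hFA _ _ (psi_le_one h.blk.he h.site.lt hz) h.blk.he.le).trans ?_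
  have h1 := h.site.far_close h.blk.he hz hf
  calc A * ‖psi e p z - e‖ ≤ A * (10 * σ / D) := by gcongr
    _ ≤ _ := h.close_num

lemma fk_gen_val {z : ℂ} (hz : ‖z‖ ≤ 1) :
    ‖fk ω F e p δ z‖ ≤ ω δ * A * (2 * ‖z - 1‖ / D) := by
  unfold fk
  have hW := h.W0
  have hA := h.A0
  rw [norm_mul, Complex.norm_real, Real.norm_of_nonneg hW.le, mul_assoc]
  gcongr
  refine (h.blk.hFA _ _ (psi_le_one h.blk.he h.site.lt hz) h.blk.he.le).trans ?_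
  have h1 := h.site.gen_close h.blk.he hz
  gcongr

lemma βe : ‖β e‖ = 1 := h.blk.hβ.eq_one e h.blk.he

lemma Bk_norm (z : ℂ) : ‖Bk β e p z‖ = ‖β (psi e p z)‖ := by
  unfold Bk
  rw [norm_div, h.βe, div_one]

lemma Bk_fac : Fac (Bk β e p) where
  diff := by
    intro z hz
    rw [mem_ball, dist_zero_right] at hz
    have h1 : DifferentiableAt ℂ β (psi e p z) :=
      h.blk.hβ.diff.differentiableAt (isOpen_ball.mem_nhds (by
        rw [mem_ball, dist_zero_right]; exact psi_lt_one h.blk.he h.site.lt hz))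
    have h2 := (hasDerivAt_psi e h.site.lt hz.le).differentiableAt
    exact ((h1.comp z h2).div_const (β e)).differentiableWithinAt
  cont := by
    have h1 : ContinuousOn (fun z => β (psi e p z)) (closedBall 0 1) := by
      refine h.blk.hβ.cont.comp (fac_psi h.blk.he h.site.lt).cont ?_
      intro z hz
      rw [mem_closedBall, dist_zero_right] at hz ⊢
      exact psi_le_one h.blk.he h.site.lt hz
    exact h1.div_const _
  le_one := fun z hz => by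
    rw [h.Bk_norm]
    exact h.blk.hβ.le_one _ (psi_le_one h.blk.he h.site.lt hz)
  eq_one := fun z hz => by
    rw [h.Bk_norm]
    exact h.blk.hβ.eq_one _ ((fac_psi h.blk.he h.site.lt).eq_one z hz)

lemma Bk_far {z : ℂ} (hz : ‖z‖ ≤ 1) (hf : D / 4 ≤ ‖1 - (starRingEnd ℂ) p * z‖) :
    ‖Bk β e p z - 1‖ ≤ (1 / 2) ^ (k + 3) := by
  have hβe := h.βe
  have hne : β e ≠ 0 := by rw [← norm_pos_iff, hβe]; norm_num
  have h1 : Bk β e p z - 1 = (β (psi e p z) - β e) / β e := by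
    unfold Bk
    rw [sub_div, div_self hne]
  rw [h1, norm_div, hβe, div_one]
  refine (h.blk.hβA _ _ (psi_le_one h.blk.he h.site.lt hz) h.blk.he.le).trans ?_
  have h1 := h.site.far_close h.blk.he hz hf
  have hA := h.A0
  calc A * ‖psi e p z - e‖ ≤ A * (10 * σ / D) := by gcongr
    _ ≤ _ := h.close_num

lemma Bk_small {z : ℂ} (hz : ‖z‖ < 1) (hs : ‖Bk β e p z‖ < Real.exp (-12)) (hz0 : z ≠ 0) :
    ‖fk ω F e p δ z‖ ≤ 6 * ω δ ∧ ω δ / 2 ≤ ω (1 - ‖z‖) := by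
  rw [h.Bk_norm] at hs
  have hlt := psi_lt_one h.blk.he h.site.lt hz
  obtain ⟨h1, h2⟩ := h.blk.hβz _ hlt hs
  have hW := h.W0
  constructor
  · unfold fk
    rw [norm_mul, Complex.norm_real, Real.norm_of_nonneg hW.le]
    have h3 : ‖F (psi e p z) - F e‖ ≤ 6 := by
      refine (norm_sub_le _ _).trans ?_
      linarith [h.blk.hFe]
    calc ω δ * ‖F (psi e p z) - F e‖ ≤ ω δ * 6 := by gcongr
      _ = 6 * ω δ := by ring
  · refine h.hplat.trans ?_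
    have hσ := h.site.hσ
    have hA := h.blk.hA
    have hz0' : 0 < ‖z‖ := norm_pos_iff.mpr hz0
    refine h.mono h.ell_pos ?_ (by linarith)
    have h3 := one_sub_norm_mob_sq h.site.lt hz.le
    rw [← norm_psi h.blk.he h.site.lt] at h3
    have hd : σ ≤ ‖1 - (starRingEnd ℂ) p * z‖ := by
      have := den_ge_left (p := p) hz.le
      rw [h.site.hp] at this
      linarith
    have hd0 : 0 < ‖1 - (starRingEnd ℂ) p * z‖ := by linarith
    have h4 : η ≤ 1 - ‖psi e p z‖ ^ 2 := by nlinarith [norm_nonneg (psi e p z)]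
    rw [h3, le_div_iff₀ (by positivity)] at h4
    have h5 := h.site.sq_le
    have h6 : 1 - ‖z‖ ^ 2 ≤ 2 * (1 - ‖z‖) := by nlinarith
    have h6' : 0 ≤ 1 - ‖z‖ ^ 2 := by nlinarith
    have hη := h.blk.hη
    have h7 : η * σ ^ 2 ≤ (2 * σ) * (2 * (1 - ‖z‖)) := by
      calc η * σ ^ 2 ≤ η * ‖1 - (starRingEnd ℂ) p * z‖ ^ 2 := by gcongr
        _ ≤ (1 - ‖p‖ ^ 2) * (1 - ‖z‖ ^ 2) := h4
        _ ≤ (2 * σ) * (2 * (1 - ‖z‖)) := by
          apply mul_le_mul h5 h6 h6' (by positivity)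
    have h8 : η * σ / 4 ≤ 1 - ‖z‖ := by
      have h9 : η * σ ^ 2 = (η * σ / 4) * (4 * σ) := by ring
      have h10 : (2 * σ) * (2 * (1 - ‖z‖)) = (1 - ‖z‖) * (4 * σ) := by ring
      rw [h9, h10] at h7
      exact le_of_mul_le_mul_right h7 (by positivity)
    refine le_trans ?_ h8
    rw [div_le_iff₀ (by linarith)]
    have h11 : min η 1 ≤ η := min_le_left _ _
    have h12 : 0 < min η 1 := lt_min hη one_pos
    calc σ * min η 1 ≤ σ * η * 1 := by rw [mul_one]; gcongr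
      _ ≤ σ * η * A := by gcongr
      _ = η * σ / 4 * (4 * A) := by ring

lemma Bk_p : ‖Bk β e p p‖ ≤ Real.exp (-(9 / 256)) := by
  rw [h.Bk_norm, psi_self]
  exact h.blk.hβ0

lemma fk_p : ω δ * (R / 3 - 3) ≤ ‖fk ω F e p δ p‖ := by
  unfold fk
  have hW := h.W0
  rw [norm_mul, Complex.norm_real, Real.norm_of_nonneg hW.le, psi_self]
  gcongr
  have := norm_sub_norm_le (F 0) (F e)
  linarith [h.blk.hF0, h.blk.hFe]

end Placed

end BlochMult
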